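import Mathlib

/-! Abstract complexes with supports and the bootstrap principle on compact spaces. -/

set_option autoImplicit false

namespace Pool.Agent.Helper158.PD

open Set Topology

universe u v

/-- A graded complex `… → T 2 → T 1 → T 0` with subgroups `Z k A` (the elements which vanish
near `A`). -/
structure HC (X : Type u) [TopologicalSpace X] where
  T : ℕ → Type v
  [grp : ∀ k, AddCommGroup (T k)]
  d : ∀ k, T (k + 1) →+ T k
  Z : ∀ k, Set X → AddSubgroup (T k)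
  d_Z : ∀ k A φ, φ ∈ Z (k + 1) A → d k φ ∈ Z k A
  dd : ∀ k φ, d k (d (k + 1) φ) = 0
  mono : ∀ k A B, A ⊆ B → Z k B ≤ Z k A
  union : ∀ k A B, IsClosed A → IsClosed B → ∀ φ, φ ∈ Z k A → φ ∈ Z k B → φ ∈ Z k (A ∪ B)
  inter : ∀ k A B, IsClosed A → IsClosed B → ∀ φ, φ ∈ Z k (A ∩ B) →
    ∃ φ₁ ∈ Z k A, ∃ φ₂ ∈ Z k B, φ = φ₁ + φ₂
  nhd : ∀ k A, IsClosed A → ∀ φ, φ ∈ Z k A →
    ∃ U, IsOpen U ∧ A ⊆ U ∧ ∀ B, B ⊆ U → φ ∈ Z k B
  empty : ∀ k φ, φ ∈ Z k ∅

attribute [instance] HC.grp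

namespace HC

variable {X : Type u} [TopologicalSpace X] (C : HC.{u, v} X)

/-- `φ` is exact near `K`. -/
def Ex (k : ℕ) (K : Set X) (φ : C.T (k + 1)) : Prop :=
  ∃ ψ : C.T (k + 2), φ - C.d (k + 1) ψ ∈ C.Z (k + 1) K

/-- acyclicity at `K` in degrees `> n` -/
def Acy (n : ℕ) (K : Set X) : Prop :=
  ∀ k, n ≤ k → ∀ φ : C.T (k + 1), C.d k φ ∈ C.Z k K → C.Ex k K φ

/-- acyclicity at all closed subsets of `K` -/
def Good (n : ℕ) (K : Set X) : Prop := ∀ K' ⊆ K, IsClosed K' → C.Acy n K'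

theorem Ex.mono {k : ℕ} {K K' : Set X} {φ : C.T (k + 1)} (h : C.Ex k K φ) (hK : K' ⊆ K) :
    C.Ex k K' φ := by
  obtain ⟨ψ, hψ⟩ := h
  exact ⟨ψ, C.mono _ _ _ hK hψ⟩

theorem cut {k : ℕ} {A B : Set X} (hA : IsClosed A) (hB : IsClosed B)
    (hAB : ∀ θ : C.T (k + 2), C.d (k + 1) θ ∈ C.Z (k + 1) (A ∩ B) → C.Ex (k + 1) (A ∩ B) θ)
    {φ : C.T (k + 1)} (h1 : C.Ex k A φ) (h2 : C.Ex k B φ) : C.Ex k (A ∪ B) φ := by
  obtain ⟨x1, hx1⟩ := h1
  obtain ⟨x2, hx2⟩ := h2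
  have h3 : C.d (k + 1) (x1 - x2) ∈ C.Z (k + 1) (A ∩ B) := by
    have e : C.d (k + 1) (x1 - x2) = (φ - C.d (k + 1) x2) - (φ - C.d (k + 1) x1) := by
      rw [map_sub]; abel
    rw [e]
    exact sub_mem (C.mono _ _ _ inter_subset_right hx2) (C.mono _ _ _ inter_subset_left hx1)
  obtain ⟨y, hy⟩ := hAB _ h3
  obtain ⟨ν1, h4, ν2, h5, h6⟩ := C.inter _ _ _ hA hB _ hy
  refine ⟨x2 + ν2, C.union _ _ _ hA hB _ ?_ ?_⟩
  · have e : φ - C.d (k + 1) (x2 + ν2) = (φ - C.d (k + 1) x1) + C.d (k + 1) ν1 := by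
      have e2 : x2 + ν2 = x1 - ν1 - C.d (k + 2) y := by
        have : x1 - x2 - C.d (k + 1 + 1) y = ν1 + ν2 := h6
        have h7 : ν2 = x1 - x2 - C.d (k + 1 + 1) y - ν1 := by rw [this]; abel
        rw [h7]; abel
      rw [e2, map_sub, map_sub, C.dd]
      abel
    rw [e]
    exact add_mem hx1 (C.d_Z _ _ _ h4)
  · have e : φ - C.d (k + 1) (x2 + ν2) = (φ - C.d (k + 1) x2) - C.d (k + 1) ν2 := by
      rw [map_add]; abel
    rw [e]
    exact sub_mem hx2 (C.d_Z _ _ _ h5)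



/-- minimal closed sets on which a class is not exact -/
theorem exists_min [CompactSpace X] {k : ℕ} {K : Set X} (hK : IsClosed K) {φ : C.T (k + 1)}
    (h : ¬ C.Ex k K φ) : ∃ K0 ⊆ K, IsClosed K0 ∧ ¬ C.Ex k K0 φ ∧
      ∀ K' ⊆ K0, IsClosed K' → K' ≠ K0 → C.Ex k K' φ := by
  classical
  obtain ⟨K0, hK0, hmin⟩ := zorn_superset_nonempty {L : Set X | IsClosed L ∧ ¬ C.Ex k L φ} (by
    intro c hcS hc hne
    refine ⟨⋂₀ c, ⟨isClosed_sInter fun s hs => (hcS hs).1, ?_⟩, fun s hs => sInter_subset_of_mem hs⟩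
    rintro ⟨ψ, hψ⟩
    obtain ⟨U, hU, hLU, hB⟩ := C.nhd _ _ (isClosed_sInter fun s hs => (hcS hs).1) _ hψ
    have : Nonempty c := hne.to_subtype
    obtain ⟨i, hi⟩ := exists_subset_nhds_of_compactSpace (V := fun s : c => (s : Set X)) (U := U)
      (by
        intro a b
        rcases hc.total a.2 b.2 with h1 | h1
        · exact ⟨a, subset_rfl, h1⟩
        · exact ⟨b, h1, subset_rfl⟩)
      (fun s => (hcS s.2).1)
      (by
        intro x hx
        apply hU.mem_nhds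
        apply hLU
        rw [mem_sInter]
        intro t ht
        exact mem_iInter.mp hx ⟨t, ht⟩)
    exact (hcS i.2).2 ⟨ψ, hB _ hi⟩) K ⟨hK, h⟩
  refine ⟨K0, hK0, hmin.prop.1, hmin.prop.2, ?_⟩
  intro K' hK' hc' hne
  by_contra hex
  exact hne (subset_antisymm hK' (hmin.2 ⟨hc', hex⟩ hK'))

theorem good_of_subset {n : ℕ} {K K' : Set X} (h : C.Good n K) (hK : K' ⊆ K) : C.Good n K' :=
  fun L hL hc => h L (hL.trans hK) hc

theorem good_union {n : ℕ} {A B : Set X} (hA : IsClosed A) (hB : IsClosed B) (h1 : C.Good n A)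
    (h2 : C.Good n B) : C.Good n (A ∪ B) := by
  intro K' hK' hc k hk φ hφ
  have e : K' = (K' ∩ A) ∪ (K' ∩ B) := by
    rw [← inter_union_distrib_left, inter_eq_left.2 hK']
  rw [e] at hφ ⊢
  apply C.cut (hc.inter hA) (hc.inter hB)
  · intro θ hθ
    exact h1 _ (fun x hx => hx.1.2) ((hc.inter hA).inter (hc.inter hB)) (k + 1) (by omega) θ hθ
  · exact h1 _ inter_subset_right (hc.inter hA) k hk φ (C.mono _ _ _ subset_union_left hφ)
  · exact h2 _ inter_subset_right (hc.inter hB) k hk φ (C.mono _ _ _ subset_union_right hφ)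

theorem good_empty {n : ℕ} : C.Good n ∅ := by
  intro K' hK' _ k _ φ _
  have : K' = ∅ := subset_empty_iff.1 hK'
  subst this
  exact ⟨0, C.empty _ _⟩

/-- points and cuts give good sets -/
theorem good_of_cut [CompactSpace X] [T1Space X] {n : ℕ} {K : Set X}
    (hpt : ∀ x ∈ K, C.Acy n {x})
    (hcut : ∀ x ∈ K, ∀ y ∈ K, x ≠ y → ∃ A B : Set X, IsClosed A ∧ IsClosed B ∧ K ⊆ A ∪ B ∧
      x ∉ B ∧ y ∉ A ∧ C.Good n (K ∩ A ∩ B)) : C.Good n K := by
  intro K' hK' hc k hk φ hφ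
  by_contra hne
  obtain ⟨K0, hK0, hc0, hn0, hmin⟩ := C.exists_min hc hne
  have hne0 : K0.Nonempty := by
    rw [nonempty_iff_ne_empty]
    rintro rfl
    exact hn0 ⟨0, C.empty _ _⟩
  obtain ⟨x, hx⟩ := hne0
  by_cases h1 : K0 = {x}
  · apply hn0
    rw [h1]
    refine hpt x (hK' (hK0 hx)) k hk φ (C.mono _ _ _ ?_ hφ)
    rw [singleton_subset_iff]
    exact hK0 hx
  · have h2 : ∃ y ∈ K0, x ≠ y := by
      by_contra hcon
      push Not at hcon
      apply h1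
      apply Subset.antisymm
      · intro y hy
        exact (hcon y hy).symm
      · rw [singleton_subset_iff]
        exact hx
    obtain ⟨y, hy, hxy⟩ := h2
    obtain ⟨A, B, hA, hB, hAB, hxB, hyA, hG⟩ :=
      hcut x (hK' (hK0 hx)) y (hK' (hK0 hy)) hxy
    have e : K0 = (K0 ∩ A) ∪ (K0 ∩ B) := by
      rw [← inter_union_distrib_left, inter_eq_left.2 ((hK0.trans hK').trans hAB)]
    apply hn0
    rw [e]
    apply C.cut (hc0.inter hA) (hc0.inter hB)
    · intro θ hθ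
      exact hG _ (fun z hz => ⟨⟨hK' (hK0 hz.1.1), hz.1.2⟩, hz.2.2⟩)
        ((hc0.inter hA).inter (hc0.inter hB)) (k + 1) (by omega) θ hθ
    · refine hmin _ inter_subset_left (hc0.inter hA) ?_
      intro h
      have : y ∈ K0 ∩ A := by rw [h]; exact hy
      exact hyA this.2
    · refine hmin _ inter_subset_left (hc0.inter hB) ?_
      intro h
      have : x ∈ K0 ∩ B := by rw [h]; exact hx
      exact hxB this.2

theorem good_coord [CompactSpace X] [T2Space X] {n : ℕ} {ι : Type*} [DecidableEq ι]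
    (f : ι → X → ℝ) (hpt : ∀ x, C.Acy n {x}) (m : ℕ) :
    ∀ (s : Finset ι), s.card ≤ m → ∀ K : Set X, IsClosed K → (∀ i ∈ s, ContinuousOn (f i) K) →
      (∀ x ∈ K, ∀ y ∈ K, (∀ i ∈ s, f i x = f i y) → x = y) → C.Good n K := by
  have hcl : ∀ (i : ι) (t : ℝ) (K : Set X), IsClosed K → ContinuousOn (f i) K →
      IsClosed {z | z ∈ K ∧ f i z ≤ t} ∧ IsClosed {z | z ∈ K ∧ t ≤ f i z} := by
    intro i t K hK hf
    constructor
    · have : {z | z ∈ K ∧ f i z ≤ t} = K ∩ f i ⁻¹' (Iic t) := rfl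
      rw [this]
      exact hf.preimage_isClosed_of_isClosed hK isClosed_Iic
    · have : {z | z ∈ K ∧ t ≤ f i z} = K ∩ f i ⁻¹' (Ici t) := rfl
      rw [this]
      exact hf.preimage_isClosed_of_isClosed hK isClosed_Ici
  induction m with
  | zero =>
    intro s hs K hK hf hsep
    refine C.good_of_cut (fun x _ => hpt x) ?_
    intro x hx y hy hxy
    exfalso
    apply hxy
    refine hsep x hx y hy ?_
    intro i hi
    have : s = ∅ := Finset.card_eq_zero.1 (Nat.le_zero.1 hs)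
    rw [this] at hi
    exact absurd hi (Finset.notMem_empty _)
  | succ m ih =>
    intro s hs K hK hf hsep
    have hgood : ∀ (i : ι), i ∈ s → ∀ t : ℝ, ∀ L : Set X, IsClosed L →
        (∀ z ∈ L, z ∈ K ∧ f i z = t) → C.Good n L := by
      intro i hi t L hL hLt
      refine ih (s.erase i) ?_ L hL ?_ ?_
      · rw [Finset.card_erase_of_mem hi]; omega
      · intro j hj
        exact (hf j (Finset.mem_of_mem_erase hj)).mono (fun z hz => (hLt z hz).1)
      · intro x hx y hy hxy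
        refine hsep x (hLt x hx).1 y (hLt y hy).1 (fun j hj => ?_)
        by_cases hji : j = i
        · rw [hji, (hLt x hx).2, (hLt y hy).2]
        · exact hxy j (Finset.mem_erase.2 ⟨hji, hj⟩)
    refine C.good_of_cut (fun x _ => hpt x) ?_
    intro x hx y hy hxy
    have hex : ∃ i ∈ s, f i x ≠ f i y := by
      by_contra hcon
      push Not at hcon
      exact hxy (hsep x hx y hy hcon)
    obtain ⟨i, hi, hne⟩ := hex
    rcases lt_or_gt_of_ne hne with hlt | hlt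
    · obtain ⟨t, ht1, ht2⟩ := exists_between hlt
      obtain ⟨c1, c2⟩ := hcl i t K hK (hf i hi)
      refine ⟨{z | z ∈ K ∧ f i z ≤ t}, {z | z ∈ K ∧ t ≤ f i z}, c1, c2, ?_, ?_, ?_, ?_⟩
      · intro z hz
        rcases le_total (f i z) t with h | h
        · exact Or.inl ⟨hz, h⟩
        · exact Or.inr ⟨hz, h⟩
      · intro h
        exact absurd h.2 (not_le.2 ht1)
      · intro h
        exact absurd h.2 (not_le.2 ht2)
      · refine hgood i hi t _ ((hK.inter c1).inter c2) ?_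
        rintro z ⟨⟨h1, h2⟩, h3⟩
        exact ⟨h1, le_antisymm h2.2 h3.2⟩
    · obtain ⟨t, ht1, ht2⟩ := exists_between hlt
      obtain ⟨c1, c2⟩ := hcl i t K hK (hf i hi)
      refine ⟨{z | z ∈ K ∧ t ≤ f i z}, {z | z ∈ K ∧ f i z ≤ t}, c2, c1, ?_, ?_, ?_, ?_⟩
      · intro z hz
        rcases le_total (f i z) t with h | h
        · exact Or.inr ⟨hz, h⟩
        · exact Or.inl ⟨hz, h⟩
      · intro h
        exact absurd h.2 (not_le.2 ht2)
      · intro h
        exact absurd h.2 (not_le.2 ht1)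
      · refine hgood i hi t _ ((hK.inter c2).inter c1) ?_
        rintro z ⟨⟨h1, h2⟩, h3⟩
        exact ⟨h1, le_antisymm h3.2 h2.2⟩

/-- the bootstrap principle for compact locally Euclidean spaces -/
theorem boot [CompactSpace X] [T2Space X] (m : ℕ) [ChartedSpace (EuclideanSpace ℝ (Fin m)) X]
    {n : ℕ} (hpt : ∀ x, C.Acy n {x}) : C.Good n univ := by
  classical
  have hloc : ∀ x : X, ∃ K : Set X, K ∈ 𝓝 x ∧ IsClosed K ∧ C.Good n K := by
    intro x
    have hsrc : (chartAt (EuclideanSpace ℝ (Fin m)) x).source ∈ 𝓝 x :=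
      (chartAt (EuclideanSpace ℝ (Fin m)) x).open_source.mem_nhds
        (mem_chart_source (EuclideanSpace ℝ (Fin m)) x)
    obtain ⟨K, hK, hKc, hKs⟩ := exists_mem_nhds_isClosed_subset hsrc
    refine ⟨K, hK, hKc, ?_⟩
    refine C.good_coord (fun (i : Fin m) y => (chartAt (EuclideanSpace ℝ (Fin m)) x y) i) hpt m
      Finset.univ (by simp) K hKc ?_ ?_
    · intro i _
      exact (EuclideanSpace.proj (𝕜 := ℝ) (ι := Fin m) i).continuous.comp_continuousOn
        ((chartAt (EuclideanSpace ℝ (Fin m)) x).continuousOn.mono hKs)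
    · intro y hy z hz hyz
      apply (chartAt (EuclideanSpace ℝ (Fin m)) x).injOn (hKs hy) (hKs hz)
      ext i
      exact hyz i (Finset.mem_univ i)
  choose K hK hKc hKg using hloc
  obtain ⟨t, ht⟩ := CompactSpace.elim_nhds_subcover K hK
  have hind : ∀ t : Finset X, IsClosed (⋃ x ∈ t, K x) ∧ C.Good n (⋃ x ∈ t, K x) := by
    intro t
    induction t using Finset.induction_on with
    | empty => simpa using C.good_empty
    | insert a s _ ih =>
      rw [Finset.set_biUnion_insert]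
      exact ⟨(hKc a).union ih.1, C.good_union (hKc a) ih.1 (hKg a) ih.2⟩
  have h := (hind t).2
  rw [ht] at h
  exact h

/-- a class which is exact near every point is exact, if the complex is acyclic in higher
degrees -/
theorem ex_of_local [CompactSpace X] [T2Space X] {m : ℕ} (hac : C.Good (m + 1) univ)
    {K : Set X} (hK : IsClosed K) {θ : C.T (m + 1)}
    (h : ∀ x ∈ K, C.Ex m {x} θ) : C.Ex m K θ := by
  by_contra hne
  obtain ⟨K0, hK0K, hK0c, hK0ne, hmin⟩ := C.exists_min hK hne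
  have hne0 : K0.Nonempty := by
    rw [nonempty_iff_ne_empty]
    rintro rfl
    exact hK0ne ⟨0, C.empty _ _⟩
  obtain ⟨x, hx⟩ := hne0
  by_cases hs : ∃ y ∈ K0, x ≠ y
  · obtain ⟨y, hy, hxy⟩ := hs
    obtain ⟨U, V, hU, hV, hxU, hyV, hd⟩ := t2_separation hxy
    have hAc : IsClosed (K0 \ U) := hK0c.sdiff hU
    have hBc : IsClosed (K0 \ V) := hK0c.sdiff hV
    have eK : (K0 \ U) ∪ (K0 \ V) = K0 := by
      ext z
      constructor
      · rintro (hz | hz)
        · exact hz.1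
        · exact hz.1
      · intro hz
        by_cases hzU : z ∈ U
        · exact Or.inr ⟨hz, fun hzV => (Set.disjoint_left.1 hd) hzU hzV⟩
        · exact Or.inl ⟨hz, hzU⟩
    apply hK0ne
    rw [← eK]
    apply C.cut hAc hBc
    · intro θ' hθ'
      exact hac _ (subset_univ _) (hAc.inter hBc) (m + 1) le_rfl θ' hθ'
    · refine hmin _ sdiff_subset hAc (fun e => ?_)
      have : x ∈ K0 \ U := by rw [e]; exact hx
      exact this.2 hxU
    · refine hmin _ sdiff_subset hBc (fun e => ?_)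
      have : y ∈ K0 \ V := by rw [e]; exact hy
      exact this.2 hyV
  · have e : K0 = {x} := by
      ext z
      constructor
      · intro hz
        by_contra hzx
        exact hs ⟨z, hz, fun e => hzx (e ▸ rfl)⟩
      · intro hz
        rw [mem_singleton_iff.1 hz]
        exact hx
    apply hK0ne
    rw [e]
    exact h x (hK0K hx)

/-- gluing over two closed sets -/
theorem glue_two [CompactSpace X] [T2Space X] {m : ℕ} (hac : C.Good (m + 1) univ)
    (R : X → Set (C.T (m + 1)))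
    (R1 : ∀ x, ∀ φ ∈ R x, ∀ φ' ∈ R x, C.Ex m {x} (φ - φ'))
    (R2 : ∀ x, ∀ φ ∈ R x, ∀ ψ, φ + C.d (m + 1) ψ ∈ R x)
    (R3 : ∀ x, ∀ φ ∈ R x, ∀ ζ ∈ C.Z (m + 1) {x}, φ + ζ ∈ R x)
    {A B : Set X} (hA : IsClosed A) (hB : IsClosed B) (φ1 φ2 : C.T (m + 1))
    (h1 : C.d m φ1 ∈ C.Z m A) (h1' : ∀ x ∈ A, φ1 ∈ R x)
    (h2 : C.d m φ2 ∈ C.Z m B) (h2' : ∀ x ∈ B, φ2 ∈ R x) :
    ∃ φ : C.T (m + 1), C.d m φ ∈ C.Z m (A ∪ B) ∧ ∀ x ∈ A ∪ B, φ ∈ R x := by
  obtain ⟨ψ, hψ⟩ := C.ex_of_local hac (hA.inter hB) (θ := φ1 - φ2)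
    (fun x hx => R1 x φ1 (h1' x hx.1) φ2 (h2' x hx.2))
  obtain ⟨ν1, hν1, ν2, hν2, he⟩ := C.inter _ _ _ hA hB _ hψ
  have e2 : φ2 + ν2 = φ1 + C.d (m + 1) (-ψ) + (-ν1) := by
    have h7 : ν2 = φ1 - φ2 - C.d (m + 1) ψ - ν1 := by rw [he]; abel
    rw [h7, map_neg]; abel
  refine ⟨φ2 + ν2, C.union _ _ _ hA hB _ ?_ ?_, ?_⟩
  · rw [e2, map_add, map_add, C.dd, add_zero, map_neg]
    exact add_mem h1 (neg_mem (C.d_Z _ _ _ hν1))
  · rw [map_add]
    exact add_mem h2 (C.d_Z _ _ _ hν2)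
  · rintro x (hx | hx)
    · rw [e2]
      exact R3 x _ (R2 x _ (h1' x hx) _) _
        (neg_mem (C.mono _ _ _ (Set.singleton_subset_iff.2 hx) hν1))
    · exact R3 x _ (h2' x hx) _ (C.mono _ _ _ (Set.singleton_subset_iff.2 hx) hν2)

/-- gluing of classes with uniquely determined germs -/
theorem glue [CompactSpace X] [T2Space X] {m : ℕ} (hac : C.Good (m + 1) univ)
    (R : X → Set (C.T (m + 1)))
    (R1 : ∀ x, ∀ φ ∈ R x, ∀ φ' ∈ R x, C.Ex m {x} (φ - φ'))
    (R2 : ∀ x, ∀ φ ∈ R x, ∀ ψ, φ + C.d (m + 1) ψ ∈ R x)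
    (R3 : ∀ x, ∀ φ ∈ R x, ∀ ζ ∈ C.Z (m + 1) {x}, φ + ζ ∈ R x)
    (R4 : ∀ x, ∀ φ ∈ R x, C.d m φ ∈ C.Z m {x})
    (R5 : ∀ x, ∃ U, IsOpen U ∧ x ∈ U ∧ ∃ φ, (∀ y ∈ U, φ ∈ R y) ∧ ∀ B ⊆ U, C.d m φ ∈ C.Z m B) :
    ∃ φ : C.T (m + 1), C.d m φ ∈ C.Z m univ ∧ ∀ x, φ ∈ R x := by
  classical
  choose U hUo hxU φ hφ hd using R5
  have hN : ∀ x, ∃ t ∈ 𝓝 x, IsClosed t ∧ t ⊆ U x := fun x =>
    exists_mem_nhds_isClosed_subset ((hUo x).mem_nhds (hxU x))
  choose N hNn hNc hNU using hN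
  have hall : ∀ t : Finset X, ∃ θ : C.T (m + 1), C.d m θ ∈ C.Z m (⋃ x ∈ t, N x) ∧
      ∀ y ∈ ⋃ x ∈ t, N x, θ ∈ R y := by
    intro t
    induction t using Finset.induction_on with
    | empty =>
      refine ⟨0, ?_, ?_⟩
      · have : (⋃ x ∈ (∅ : Finset X), N x) = ∅ := by simp
        rw [this]
        exact C.empty _ _
      · intro y hy
        simp at hy
    | insert a t _ ih =>
      obtain ⟨θ, h1, h2⟩ := ih
      rw [Finset.set_biUnion_insert]
      refine C.glue_two hac R R1 R2 R3 (hNc a) ?_ (φ a) θ (hd a (N a) (hNU a)) ?_ h1 h2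
      · exact isClosed_biUnion_finset fun i _ => hNc i
      · intro x hx
        exact hφ a x (hNU a hx)
  obtain ⟨t, -, ht⟩ := isCompact_univ.elim_nhds_subcover N (fun x _ => hNn x)
  obtain ⟨θ, h1, h2⟩ := hall t
  have hu : (⋃ x ∈ t, N x) = univ := Set.eq_univ_of_univ_subset ht
  rw [hu] at h1 h2
  exact ⟨θ, h1, fun x => h2 x (mem_univ x)⟩

end HC

end Pool.Agent.Helper158.PD
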