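import Pool.Agent.Helper158.PD.Rel

/-! Poincaré duality mod 2: local computations, the fundamental class, and the global theorem. -/

set_option autoImplicit false
set_option linter.unusedVariables false


namespace Pool.Agent.Helper158.PD

open Set Topology
open Pool.Agent.Helper922.HB.Sc (Sing sface altd vert)

universe u v

variable {X : Type u} [TopologicalSpace X]

/-- every point has arbitrarily small box neighbourhoods -/
def HasBoxes (n : ℕ) (X : Type u) [TopologicalSpace X] : Prop :=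
  ∀ (x : X) (U : Set X), IsOpen U → x ∈ U → ∃ V, IsBox n V ∧ x ∈ V ∧ V ⊆ U

theorem hasBoxes (n : ℕ) [ChartedSpace (EuclideanSpace ℝ (Fin n)) X] : HasBoxes n X := by
  intro x U hU hxU
  have hx : x ∈ ((chartAt (EuclideanSpace ℝ (Fin n)) x).transHomeomorph
      (PiLp.continuousLinearEquiv 2 ℝ (fun _ : Fin n => ℝ)).toHomeomorph).source :=
    mem_chart_source (EuclideanSpace ℝ (Fin n)) x
  obtain ⟨l', u', h1, h2, h3, h4⟩ := exists_box ((chartAt (EuclideanSpace ℝ (Fin n)) x).transHomeomorph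
      (PiLp.continuousLinearEquiv 2 ℝ (fun _ : Fin n => ℝ)).toHomeomorph) hx hU hxU
    (l := fun i => ((chartAt (EuclideanSpace ℝ (Fin n)) x).transHomeomorph
      (PiLp.continuousLinearEquiv 2 ℝ (fun _ : Fin n => ℝ)).toHomeomorph) x i - 1)
    (u := fun i => ((chartAt (EuclideanSpace ℝ (Fin n)) x).transHomeomorph
      (PiLp.continuousLinearEquiv 2 ℝ (fun _ : Fin n => ℝ)).toHomeomorph) x i + 1)
    (fun i => ⟨by simp only; linarith, by simp only; linarith⟩)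
  refine ⟨_, ⟨_, l', u', fun i => (h1 i).2.1, h2, rfl⟩, h3, ?_⟩
  refine (BX_mono _ ?_).trans h4
  intro y hy
  exact ⟨fun i => (hy i).1.le, fun i => (hy i).2.le⟩

/-- graded form of the computation for open boxes: outside degree `n` -/
theorem box_other [CompletelyNormalSpace X] [T2Space X] {n : ℕ} {V : Set X} (hV : IsBox n V)
    {k : ℕ} (hk : k + 1 ≠ n) {b : Co X (k + 1)} (hb : b ∈ (Gr X).N (k + 1) Vᶜ)
    (hdb : dl (k + 1) b ∈ (Gr X).N (k + 2) univ) :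
    ∃ b' ∈ (Gr X).N k Vᶜ, b - dl k b' ∈ (Gr X).N (k + 1) univ := by
  obtain ⟨w, hw⟩ := box_gen hV
  obtain ⟨r, b', hb', h⟩ := hw.2.2.2 (inc (k + 1) b) (inc_mem_N hb) (by
    rw [tdl_inc]; exact inc_mem_N hdb)
  refine ⟨cp k b', cp_mem_N hb', ?_⟩
  have h2 := cp_mem_N (p := k + 1) h
  rw [map_sub, map_sub, map_smul, cp_inc, cp_inc_ne hk, smul_zero, sub_zero, cp_tdl_succ] at h2
  exact h2

/-- graded form of the computation for open boxes: degree `n` -/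
theorem box_top [CompletelyNormalSpace X] [T2Space X] {m : ℕ} {V : Set X}
    {w : Co X (m + 1)} (hw : RSph univ Vᶜ (m + 1) w) {b : Co X (m + 1)}
    (hb : b ∈ (Gr X).N (m + 1) Vᶜ) (hdb : dl (m + 1) b ∈ (Gr X).N (m + 2) univ) :
    ∃ r : F2, ∃ b' ∈ (Gr X).N m Vᶜ, b - r • w - dl m b' ∈ (Gr X).N (m + 1) univ := by
  obtain ⟨r, b', hb', h⟩ := hw.2.2.2 (inc (m + 1) b) (inc_mem_N hb) (by
    rw [tdl_inc]; exact inc_mem_N hdb)
  refine ⟨r, cp m b', cp_mem_N hb', ?_⟩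
  have h2 := cp_mem_N (p := m + 1) h
  rw [map_sub, map_sub, map_smul, cp_inc, cp_inc, cp_tdl_succ] at h2
  exact h2

/-- graded form: a generator is not exact -/
theorem box_top_ne [CompletelyNormalSpace X] [T2Space X] {m : ℕ} {V : Set X}
    {w : Co X (m + 1)} (hw : RSph univ Vᶜ (m + 1) w) :
    w ∈ (Gr X).N (m + 1) Vᶜ ∧ dl (m + 1) w ∈ (Gr X).N (m + 2) univ ∧
      ∀ b' ∈ (Gr X).N m Vᶜ, w - dl m b' ∉ (Gr X).N (m + 1) univ := by
  obtain ⟨h1, h2, h3, _⟩ := hw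
  refine ⟨?_, ?_, ?_⟩
  · have h4 := cp_mem_N (p := m + 1) h1
    rwa [cp_inc] at h4
  · have h4 := cp_mem_N (p := m + 2) h2
    rwa [tdl_inc, cp_inc] at h4
  · intro b' hb' h4
    apply h3 (inc m b') (inc_mem_N hb')
    rw [tdl_inc, ← map_sub]
    exact inc_mem_N h4

section

variable [CompactSpace X] [T2Space X] [CompletelyNormalSpace X] [T4Space X]

/-- the dual of the graded complex is acyclic at points in degrees `> n` -/
theorem dual_acy_pt {n : ℕ} (hB : HasBoxes n X) (x : X) : ((Gr X).dual).Acy n {x} := by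
  intro k hk φ hφ
  have hφ' : (Gr X).bd k φ ∈ (Gr X).Z k {x} := hφ
  obtain ⟨U, hU, hxU, hkill⟩ := hφ'
  obtain ⟨V, hV, hxV, hVU⟩ := hB x U hU (hxU rfl)
  obtain ⟨ψ, hψ⟩ := (Gr X).ext_bd (k := k + 1) (V := V) φ (by
    intro b hb hdb
    obtain ⟨b', hb', hbb⟩ := box_other hV (by omega : k + 1 ≠ n) hb hdb
    have h1 : φ.1 (b - dl k b') = 0 := φ.2 _ hbb
    have h2 : φ.1 (dl k b') = 0 :=
      hkill b' ((Gr X).N_mono (compl_subset_compl.2 hVU) hb')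
    have h3 : φ.1 b = φ.1 (b - dl k b') + φ.1 (dl k b') := by
      rw [← map_add, sub_add_cancel]
    rw [h3, h1, h2, add_zero])
  exact ⟨ψ, V, hV.isOpen, singleton_subset_iff.2 hxV, hψ⟩

/-- functionals with the right germ at `x` -/
def Rset (m : ℕ) (x : X) : Set ((Gr X).D (m + 1)) :=
  {φ | ∃ V : Set X, IsBox (m + 1) V ∧ x ∈ V ∧ (∀ c ∈ (Gr X).N m Vᶜ, φ.1 (dl m c) = 0) ∧
    ∀ w : Co X (m + 1), RSph univ Vᶜ (m + 1) w → φ.1 w = 1}

theorem Rset_small {m : ℕ} {x : X} (hB : HasBoxes (m + 1) X) {φ : (Gr X).D (m + 1)}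
    (hφ : φ ∈ Rset m x) {U : Set X} (hU : IsOpen U) (hxU : x ∈ U) :
    ∃ V : Set X, V ⊆ U ∧ IsBox (m + 1) V ∧ x ∈ V ∧ (∀ c ∈ (Gr X).N m Vᶜ, φ.1 (dl m c) = 0) ∧
      ∀ w : Co X (m + 1), RSph univ Vᶜ (m + 1) w → φ.1 w = 1 := by
  obtain ⟨V1, hV1, hx1, h1, h2⟩ := hφ
  obtain ⟨V, hV, hxV, hsub⟩ := hB x (V1 ∩ U) (hV1.isOpen.inter hU) ⟨hx1, hxU⟩
  have hs1 : V ⊆ V1 := hsub.trans inter_subset_left
  refine ⟨V, hsub.trans inter_subset_right, hV, hxV, fun c hc => ?_, fun w hw => ?_⟩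
  · exact h1 c ((Gr X).N_mono (compl_subset_compl.2 hs1) hc)
  · exact h2 w (box_gen_mono hV1 hV hs1 hw)

theorem Rset_sub {m : ℕ} {x : X} (hB : HasBoxes (m + 1) X) {φ φ' : (Gr X).D (m + 1)}
    (hφ : φ ∈ Rset m x) (hφ' : φ' ∈ Rset m x) :
    ∃ ψ : (Gr X).D (m + 2), φ - φ' - (Gr X).bd (m + 1) ψ ∈ (Gr X).Z (m + 1) {x} := by
  obtain ⟨V1, hV1, hx1, h1a, h1b⟩ := hφ'
  obtain ⟨V, hVU, hV, hxV, ha, hb⟩ := Rset_small hB hφ hV1.isOpen hx1
  have hcomp : V1ᶜ ⊆ Vᶜ := compl_subset_compl.2 hVU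
  obtain ⟨w, hw⟩ := box_gen (X := X) hV
  have hw1 : φ.1 w = 1 := hb w hw
  have hw2 : φ'.1 w = 1 := h1b w (box_gen_mono hV1 hV hVU hw)
  have key : ∀ b ∈ (Gr X).N (m + 1) Vᶜ, (Gr X).dl (m + 1) b ∈ (Gr X).N (m + 1 + 1) univ →
      (φ - φ').1 b = 0 := by
    intro b hbN hdb
    obtain ⟨r, b', hb', hr⟩ := box_top hw hbN hdb
    have e1 : (φ - φ').1 (b - r • w - dl m b') = 0 := (φ - φ').2 _ hr
    have e2 : (φ - φ').1 w = 0 := by
      change φ.1 w - φ'.1 w = 0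
      rw [hw1, hw2, sub_self]
    have e3 : (φ - φ').1 (dl m b') = 0 := by
      change φ.1 (dl m b') - φ'.1 (dl m b') = 0
      rw [ha b' hb', h1a b' ((Gr X).N_mono hcomp hb'), sub_self]
    rw [map_sub, map_sub, map_smul, e2, e3, smul_zero, sub_zero, sub_zero] at e1
    exact e1
  obtain ⟨ψ, hψ⟩ := (Gr X).ext_bd (φ - φ') key
  exact ⟨ψ, V, hV.isOpen, singleton_subset_iff.2 hxV, hψ⟩

theorem Rset_bd {m : ℕ} {x : X} {φ : (Gr X).D (m + 1)}
    (hφ : φ ∈ Rset m x) (ψ : (Gr X).D (m + 2)) : φ + (Gr X).bd (m + 1) ψ ∈ Rset m x := by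
  obtain ⟨V, hV, hxV, h1, h2⟩ := hφ
  refine ⟨V, hV, hxV, fun c hc => ?_, fun w hw => ?_⟩
  · change φ.1 (dl m c) + ψ.1 (dl (m + 1) (dl m c)) = 0
    rw [h1 c hc, dl_dl, map_zero, add_zero]
  · change φ.1 w + ψ.1 (dl (m + 1) w) = 1
    rw [h2 w hw, ψ.2 _ (box_top_ne hw).2.1, add_zero]

theorem Rset_Z {m : ℕ} {x : X} (hB : HasBoxes (m + 1) X) {φ : (Gr X).D (m + 1)}
    (hφ : φ ∈ Rset m x) {ζ : (Gr X).D (m + 1)} (hζ : ζ ∈ (Gr X).Z (m + 1) {x}) :
    φ + ζ ∈ Rset m x := by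
  obtain ⟨U, hU, hxU, h0⟩ := hζ
  obtain ⟨V, hVU, hV, hxV, h1, h2⟩ := Rset_small hB hφ hU (hxU (mem_singleton x))
  refine ⟨V, hV, hxV, fun c hc => ?_, fun w hw => ?_⟩
  · change φ.1 (dl m c) + ζ.1 (dl m c) = 0
    rw [h1 c hc, h0 _ ((Gr X).N_mono (compl_subset_compl.2 hVU) ((Gr X).dl_N hc)), add_zero]
  · change φ.1 w + ζ.1 w = 1
    rw [h2 w hw, h0 _ ((Gr X).N_mono (compl_subset_compl.2 hVU) (box_top_ne hw).1), add_zero]

theorem Rset_local {m : ℕ} (hB : HasBoxes (m + 1) X) (x : X) :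
    ∃ U : Set X, IsOpen U ∧ x ∈ U ∧ ∃ φ : (Gr X).D (m + 1), (∀ y ∈ U, φ ∈ Rset m y) ∧
      ∀ B ⊆ U, (Gr X).bd m φ ∈ (Gr X).Z m B := by
  obtain ⟨V, hV, hxV, -⟩ := hB x univ isOpen_univ (mem_univ x)
  obtain ⟨w, hw⟩ := box_gen hV
  obtain ⟨hw1, hw2, hw3⟩ := box_top_ne hw
  obtain ⟨S, hS⟩ : ∃ S : Submodule F2 (Co X (m + 1)),
      S = ((Gr X).N m Vᶜ).map (dl m) ⊔ (Gr X).N (m + 1) univ := ⟨_, rfl⟩
  have hwS : w ∉ S := by
    intro h
    rw [hS, Submodule.mem_sup] at h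
    obtain ⟨y, hy, z, hz, hyz⟩ := h
    obtain ⟨b', hb', rfl⟩ := hy
    apply hw3 b' hb'
    have e : w - dl m b' = z := by
      rw [← hyz]
      abel
    rw [e]
    exact hz
  obtain ⟨f, hf1, hf2⟩ := Submodule.exists_dual_map_eq_bot_of_notMem (R := F2) hwS
    inferInstance
  have hf0 : ∀ c ∈ S, f c = 0 := by
    intro c hc
    have : f c ∈ S.map f := ⟨c, hc, rfl⟩
    rw [hf2] at this
    exact this
  have h2 : ∀ a : F2, a ≠ 0 → a = 1 := by decide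
  have hfw : f w = 1 := h2 _ hf1
  have hfN : ∀ c ∈ (Gr X).N (m + 1) univ, f c = 0 := by
    intro c hc
    apply hf0
    rw [hS]
    exact Submodule.mem_sup_right hc
  have hfd : ∀ c ∈ (Gr X).N m Vᶜ, f (dl m c) = 0 := by
    intro c hc
    apply hf0
    rw [hS]
    exact Submodule.mem_sup_left ⟨c, hc, rfl⟩
  refine ⟨V, hV.isOpen, hxV, ⟨f, hfN⟩, ?_, ?_⟩
  · intro y hy
    refine ⟨V, hV, hy, hfd, ?_⟩
    intro w' hw'
    obtain ⟨i1, i2, i3⟩ := box_top_ne hw'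
    obtain ⟨r, b', hb', hr⟩ := box_top hw i1 i2
    change f w' = 1
    have e1 : f (w' - r • w - dl m b') = 0 := hfN _ hr
    rw [map_sub, map_sub, map_smul, hfw, hfd b' hb', sub_zero, smul_eq_mul, mul_one] at e1
    have e2 : f w' = r := sub_eq_zero.1 e1
    by_cases hr0 : r = 0
    · exfalso
      apply i3 b' hb'
      rw [hr0, zero_smul, sub_zero] at hr
      exact hr
    · rw [e2]
      exact h2 r hr0
  · intro B hB
    exact ⟨V, hV.isOpen, hB, hfd⟩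

/-- the fundamental class mod 2, as a functional on cochains -/
theorem exists_fund (m : ℕ) [ChartedSpace (EuclideanSpace ℝ (Fin (m + 1))) X] :
    ∃ I : (Gr X).D (m + 1), (∀ c : Co X m, I.1 (dl m c) = 0) ∧ ∀ x : X, I ∈ Rset m x := by
  have hB := hasBoxes (X := X) (m + 1)
  have hac : ((Gr X).dual).Good (m + 1) univ := by
    exact HC.boot _ (m + 1) (fun x => dual_acy_pt hB x)
  obtain ⟨φ, h1, h2⟩ := HC.glue ((Gr X).dual) (m := m) hac (fun x => Rset m x)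
    (fun x φ hφ φ' hφ' => Rset_sub hB hφ hφ') (fun x φ hφ ψ => Rset_bd hφ ψ)
    (fun x φ hφ ζ hζ => Rset_Z hB hφ hζ)
    (fun x φ hφ => by
      obtain ⟨V, hV, hxV, h, _⟩ := hφ
      exact ⟨V, hV.isOpen, singleton_subset_iff.2 hxV, h⟩)
    (fun x => Rset_local hB x)
  refine ⟨φ, fun c => ?_, h2⟩
  have h3 : (Gr X).bd m φ = 0 := (Gr X).Z_univ h1
  exact congrArg (fun ψ : (Gr X).D m => ψ.1 c) h3

theorem cone_acy_pt_cup {q r : ℕ} (hq : q = r) (h : 0 + q = r) (I : Co X r →ₗ[F2] F2)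
    (b : Co X r) : I (cup h (cp 0 (one : TS X → F2)) (cp q (inc r b))) = I b := by
  subst hq
  congr 1
  funext σ
  rw [cup_apply, cp_inc]
  have e1 : cp 0 (one : TS X → F2) = fun _ => 1 := cp_inc 0 _
  rw [e1, one_mul]
  congr 1
  ext y
  change σ (stdSimplex.map (back h) y) = σ y
  congr 1
  have e2 : back h = id := by
    funext i
    apply Fin.ext
    simp [back]
  rw [e2]
  exact stdSimplex.map_id_apply y

theorem cone_acy_pt_one {n : ℕ} (I : Co X n →ₗ[F2] F2) (w : Co X n) :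
    pairing n I (one : TS X → F2) (inc n w) = I w := by
  rw [pairing_apply, Fin.sum_univ_succ, Finset.sum_eq_zero]
  · rw [add_zero]
    exact cone_acy_pt_cup rfl _ I w
  · intro p _
    have h1 : cp ((Fin.succ p : Fin (n + 1)) : ℕ) (one : TS X → F2) = 0 := by
      apply cp_inc_ne
      rw [Fin.val_succ]
      omega
    rw [h1, map_zero, LinearMap.zero_apply, map_zero]

theorem cone_acy_pt_cacy {m : ℕ} (hB : HasBoxes (m + 1) X) (x : X) : CAcy ({x} : Set X) := by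
  obtain ⟨V, ⟨e, l, u, hlu, ht, hV⟩, hxV, -⟩ := hB x univ isOpen_univ (mem_univ x)
  rw [hV] at hxV
  have hxs : x ∈ e.source := hxV.1
  have he : BX e {e x} = {x} := by
    ext y
    constructor
    · rintro ⟨h1, h2⟩
      exact e.injOn h1 hxs h2
    · intro h
      rw [mem_singleton_iff.1 h]
      exact ⟨hxs, rfl⟩
  have h := cacy_convex e (A := {e x}) isCompact_singleton (convex_singleton _)
    (singleton_nonempty _) (by
      rintro y hy
      rw [mem_singleton_iff.1 hy]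
      exact e.map_source hxs)
  rw [he] at h
  exact h

theorem cone_acy_pt_alg {M : Type*} [AddCommGroup M] [Module F2 M] (A B D E : M) :
    A - B + D = A + E + (E - D - B) := by
  have hE : E + E = 0 := ZModModule.add_self E
  have hD : D + D = 0 := ZModModule.add_self D
  have : A + E + (E - D - B) = A - B + D + (E + E) - (D + D) := by abel
  rw [this, hE, hD]
  abel

theorem cone_acy_pt_h3 {m : ℕ} (I : (Gr X).D (m + 1))
    (hI : ∀ c : Co X m, I.1 (dl m c) = 0) (x : X) (a a1 : TS X → F2) (φ : (Tot X).D 0) (r : F2)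
    (h2 : tbd φ + Phi (m + 1) I a ∈ (Tot X).Z 0 {x}) (hν : a - r • one - tdl a1 ∈ NT {x}) :
    tbd (φ - Phi (m + 1) I a1) + Phi (m + 1) I (r • one) ∈ (Tot X).Z 0 {x} := by
  have e0 : tbd (φ - Phi (m + 1) I a1) = tbd φ - Phi (m + 1) I (tdl a1) := by
    rw [← Phi_dl I hI]
    exact map_sub tbd φ (Phi (m + 1) I a1)
  have e1 : Phi (m + 1) I (a - r • one - tdl a1) =
      Phi (m + 1) I a - Phi (m + 1) I (r • one) - Phi (m + 1) I (tdl a1) := by
    rw [map_sub, map_sub]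
  have e : tbd (φ - Phi (m + 1) I a1) + Phi (m + 1) I (r • one) =
      (tbd φ + Phi (m + 1) I a) + Phi (m + 1) I (a - r • one - tdl a1) := by
    rw [e0, e1]
    exact cone_acy_pt_alg (M := (Tot X).D 0) (tbd φ) (Phi (m + 1) I (tdl a1))
      (Phi (m + 1) I (r • one)) (Phi (m + 1) I a)
  rw [e]
  exact Submodule.add_mem _ h2 (Phi_N I hν)

theorem cone_acy_pt_h9 {m : ℕ} (I : (Gr X).D (m + 1))
    (hI : ∀ c : Co X m, I.1 (dl m c) = 0) {V : Set X} {w : Co X (m + 1)} (hIw : I.1 w = 1)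
    (w4 : ∀ b ∈ NT Vᶜ, tdl b ∈ NT univ → ∃ r : F2, ∃ b' ∈ NT Vᶜ,
      b - r • inc (m + 1) w - tdl b' ∈ NT univ)
    (φ1 : (Tot X).D 0) (h7 : ∀ c ∈ NT Vᶜ, φ1.1 (tdl c) = 0) :
    ∀ b ∈ NT Vᶜ, tdl b ∈ NT univ →
      (φ1 - (φ1.1 (inc (m + 1) w)) • Phi (m + 1) I one).1 b = 0 := by
  have h8 : ∀ c, (Phi (m + 1) I one).1 (tdl c) = 0 := by
    intro c
    rw [Phi_apply, pairing_dl I.1 hI, tdl_one, map_zero, LinearMap.zero_apply]
  obtain ⟨κ, hκ⟩ : ∃ κ : F2, κ = φ1.1 (inc (m + 1) w) := ⟨_, rfl⟩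
  rw [← hκ]
  intro b hb hb2
  obtain ⟨r', b', hb', hν'⟩ := w4 b hb hb2
  have e : b = r' • inc (m + 1) w + tdl b' + (b - r' • inc (m + 1) w - tdl b') := by abel
  have e0 := (φ1 - κ • Phi (m + 1) I one).2 _ hν'
  rw [e, map_add, map_add, map_smul, e0, add_zero]
  have e1 : (φ1 - κ • Phi (m + 1) I one).1 (inc (m + 1) w) = 0 := by
    change φ1.1 (inc (m + 1) w) - κ * (Phi (m + 1) I one).1 (inc (m + 1) w) = 0
    rw [Phi_apply, cone_acy_pt_one, hIw, mul_one, hκ, sub_self]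
  have e2 : (φ1 - κ • Phi (m + 1) I one).1 (tdl b') = 0 := by
    change φ1.1 (tdl b') - κ * (Phi (m + 1) I one).1 (tdl b') = 0
    rw [h7 b' hb', h8, mul_zero, sub_zero]
  rw [e1, e2, smul_zero, add_zero]

theorem cone_acy_pt_fin {m : ℕ} (I : (Gr X).D (m + 1)) {V : Set X} (hV : IsOpen V) {x : X}
    (hxV : x ∈ V) (φ : (Tot X).D 0) (a1 : TS X → F2) (κ : F2) (ψ' : (Tot X).D 0)
    (hψ' : ∀ c ∈ NT Vᶜ, (φ - Phi (m + 1) I a1 - κ • Phi (m + 1) I one).1 c - ψ'.1 (tdl c) = 0) :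
    φ - (tbd ψ' + Phi (m + 1) I (a1 + κ • one)) ∈ (Tot X).Z 0 {x} := by
  refine ⟨V, hV, singleton_subset_iff.2 hxV, fun c hc => ?_⟩
  rw [← hψ' c hc, map_add, map_smul]
  change φ.1 c - (ψ'.1 (tdl c) + ((Phi (m + 1) I a1).1 c + κ * (Phi (m + 1) I one).1 c)) =
    φ.1 c - (Phi (m + 1) I a1).1 c - κ * (Phi (m + 1) I one).1 c - ψ'.1 (tdl c)
  ring

theorem cone_acy_pt_main {m : ℕ} (hB : HasBoxes (m + 1) X) (I : (Gr X).D (m + 1))
    (hI : ∀ c : Co X m, I.1 (dl m c) = 0) (x : X) (hx : I ∈ Rset m x)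
    (a : TS X → F2) (φ : (Tot X).D 0) (h1 : tdl a ∈ NT {x})
    (h2 : tbd φ + Phi (m + 1) I a ∈ (Tot X).Z 0 {x}) :
    ∃ (a2 : TS X → F2) (ψ : (Tot X).D 0), a - tdl a2 ∈ NT {x} ∧
      φ - (tbd ψ + Phi (m + 1) I a2) ∈ (Tot X).Z 0 {x} := by
  obtain ⟨r, a1, hν⟩ := cone_acy_pt_cacy hB x a h1
  obtain ⟨U, hU, hxU, h4⟩ := cone_acy_pt_h3 I hI x a a1 φ r h2 hν
  rw [singleton_subset_iff] at hxU
  obtain ⟨V, hVU, hVb, hxV, -, hw1⟩ := Rset_small hB hx hU hxU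
  obtain ⟨w, hw⟩ := box_gen hVb
  have hIw : I.1 w = 1 := hw1 w hw
  obtain ⟨w1, w2, w3, w4⟩ := hw
  have hmono : NT Vᶜ ≤ NT Uᶜ := (Tot X).N_mono (compl_subset_compl.2 hVU)
  have h5 : ∀ c ∈ NT Vᶜ,
      (φ - Phi (m + 1) I a1).1 (tdl c) + r * (Phi (m + 1) I one).1 c = 0 := by
    intro c hc
    have := h4 c (hmono hc)
    rw [map_smul] at this
    exact this
  have hr : r = 0 := by
    have h6 := h5 _ w1
    rw [(φ - Phi (m + 1) I a1).2 _ w2, zero_add, Phi_apply, cone_acy_pt_one, hIw, mul_one] at h6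
    exact h6
  have h7 : ∀ c ∈ NT Vᶜ, (φ - Phi (m + 1) I a1).1 (tdl c) = 0 := by
    intro c hc
    have := h5 c hc
    rwa [hr, zero_mul, add_zero] at this
  obtain ⟨ψ, hψ⟩ := (Tot X).ext_bd (k := 0) (V := V) _ (cone_acy_pt_h9 I hI hIw w4 _ h7)
  refine ⟨a1 + ((φ - Phi (m + 1) I a1).1 (inc (m + 1) w)) • one, ⟨ψ.1, ψ.2⟩, ?_, ?_⟩
  · rw [map_add, map_smul, tdl_one, smul_zero, add_zero]
    rw [hr, zero_smul, sub_zero] at hν
    exact hν
  · exact cone_acy_pt_fin I hVb.isOpen hxV φ a1 _ ⟨ψ.1, ψ.2⟩ (fun c hc => hψ c hc)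

/-- the duality cone is acyclic at points -/
theorem cone_acy_pt {m : ℕ} (hB : HasBoxes (m + 1) X) (I : (Gr X).D (m + 1))
    (hI : ∀ c : Co X m, I.1 (dl m c) = 0) (x : X) (hx : I ∈ Rset m x) :
    (cone I hI).Acy 0 {x} := by
  intro k _ p hp
  obtain ⟨a2, ψ, h3, h4⟩ := cone_acy_pt_main hB I hI x hx p.1 p.2 hp.1 hp.2
  exact ⟨(a2, ψ), h3, h4⟩

/-- duality in total form -/
theorem duality_total {m : ℕ} [ChartedSpace (EuclideanSpace ℝ (Fin (m + 1))) X]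
    (I : (Gr X).D (m + 1)) (hI : ∀ c : Co X m, I.1 (dl m c) = 0) (hR : ∀ x, I ∈ Rset m x)
    (a : TS X → F2) (φ : (Tot X).D 0) (ha : tdl a ∈ NT univ) (hφ : tbd φ + Phi (m + 1) I a = 0) :
    ∃ (a' : TS X → F2) (φ' : (Tot X).D 0), a - tdl a' ∈ NT univ ∧
      φ = tbd φ' + Phi (m + 1) I a' := by
  have hB := hasBoxes (X := X) (m + 1)
  have h := HC.boot (cone I hI) (m + 1) (n := 0) (fun x => cone_acy_pt hB I hI x (hR x))
  have h2 := h univ subset_rfl isClosed_univ 0 le_rfl (a, φ) (by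
    refine ⟨ha, ?_⟩
    change tbd φ + Phi (m + 1) I a ∈ (Tot X).Z 0 univ
    rw [hφ]
    exact zero_mem _)
  obtain ⟨⟨a', φ'⟩, h3, h4⟩ := h2
  refine ⟨a', φ', h3, ?_⟩
  have h5 : φ - (tbd φ' + Phi (m + 1) I a') = 0 := (Tot X).Z_univ h4
  exact sub_eq_zero.1 h5

/-- nondegeneracy of the total pairing on true cocycles -/
theorem total_inj {m : ℕ} [ChartedSpace (EuclideanSpace ℝ (Fin (m + 1))) X]
    (I : (Gr X).D (m + 1)) (hI : ∀ c : Co X m, I.1 (dl m c) = 0) (hR : ∀ x, I ∈ Rset m x)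
    (a : TS X → F2) (ha : tdl a = 0)
    (h : ∀ b : TS X → F2, tdl b = 0 → pairing (m + 1) I.1 a b = 0) : ∃ a', a = tdl a' := by
  have h1 : ∀ b : TS X → F2, tdl b ∈ NT (univ : Set X) → (Phi (m + 1) I a).1 b = 0 := by
    intro b hb
    obtain ⟨ν, hν, hbν⟩ := nt_univ_acyclic (tdl b) hb (tdl_tdl b)
    have h2 : tdl (b - ν) = 0 := by rw [map_sub, hbν, sub_self]
    have h3 := h (b - ν) h2
    rw [map_sub, sub_eq_zero] at h3
    rw [Phi_apply, h3]
    exact (Phi (m + 1) I a).2 ν hν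
  obtain ⟨ψ, hψ⟩ := (Tot X).ext_bd (k := 0) (V := univ) (Phi (m + 1) I a)
    (fun b _ hb => h1 b hb)
  have h4 : Phi (m + 1) I a = tbd ψ := by
    apply Subtype.ext
    apply LinearMap.ext
    intro c
    have h5 := hψ c (by rw [compl_univ]; exact (Tot X).N_empty 0 c)
    have h6 : (Phi (m + 1) I a).1 c - (tbd ψ).1 c = 0 := h5
    exact sub_eq_zero.1 h6
  have h7 : tbd ψ + Phi (m + 1) I a = 0 := by
    rw [h4]
    apply Subtype.ext
    apply LinearMap.ext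
    intro c
    change (tbd ψ).1 c + (tbd ψ).1 c = 0
    exact CharTwo.add_self_eq_zero _
  obtain ⟨a', φ', h8, -⟩ := duality_total I hI hR a ψ (by rw [ha]; exact zero_mem _) h7
  obtain ⟨ν, -, hν⟩ := nt_univ_acyclic (a - tdl a') h8 (by rw [map_sub, ha, tdl_tdl, sub_zero])
  exact ⟨a' + ν, by rw [map_add, ← hν, add_sub_cancel]⟩

/-- every functional on cohomology is given by the pairing -/
theorem total_surj {m : ℕ} [ChartedSpace (EuclideanSpace ℝ (Fin (m + 1))) X]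
    (I : (Gr X).D (m + 1)) (hI : ∀ c : Co X m, I.1 (dl m c) = 0) (hR : ∀ x, I ∈ Rset m x)
    (φ : (TS X → F2) →ₗ[F2] F2) (hφ : ∀ c, φ (tdl c) = 0) :
    ∃ a : TS X → F2, tdl a = 0 ∧ ∀ b, tdl b = 0 → φ b = pairing (m + 1) I.1 a b := by
  obtain ⟨ψ, hψ1, hψ2⟩ := CC.j24205_ext (NT (univ : Set X)) (LinearMap.ker (tdl (X := X))) φ (by
    intro c hc hc'
    obtain ⟨b', _, hb'⟩ := nt_univ_acyclic c hc (LinearMap.mem_ker.mp hc')
    rw [hb']
    exact hφ b')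
  let φ2 : (Tot X).D 0 := ⟨ψ, fun c hc => hψ1 c hc⟩
  have h1 : tbd φ2 = 0 := by
    apply Subtype.ext
    apply LinearMap.ext
    intro c
    change ψ (tdl c) = 0
    rw [hψ2 _ (LinearMap.mem_ker.mpr (tdl_tdl c)), hφ]
  obtain ⟨a', φ', ha', h2⟩ := duality_total I hI hR 0 φ2
    (by rw [map_zero]; exact zero_mem _) (by rw [h1, map_zero, add_zero])
  have h3 : tdl a' ∈ NT (univ : Set X) := by
    rw [zero_sub] at ha'
    exact neg_mem_iff.mp ha'
  obtain ⟨ν, hν, hν2⟩ := nt_univ_acyclic (tdl a') h3 (tdl_tdl a')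
  have h4 : Phi (m + 1) I ν = 0 := (Tot X).Z_univ (Phi_N I hν)
  refine ⟨a' - ν, ?_, ?_⟩
  · rw [map_sub, hν2, sub_self]
  · intro b hb
    have h5 : pairing (m + 1) I.1 ν b = 0 := by
      rw [← Phi_apply, h4]; rfl
    rw [map_sub, LinearMap.sub_apply, h5, sub_zero, ← hψ2 b (LinearMap.mem_ker.mpr hb)]
    have h6 : φ2.1 b = (tbd φ' + Phi (m + 1) I a').1 b := by rw [h2]
    have h7 : (tbd φ' + Phi (m + 1) I a').1 b = φ'.1 (tdl b) + pairing (m + 1) I.1 a' b := rfl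
    rw [h7, hb, map_zero, zero_add] at h6
    exact h6

end

/-- coboundaries of degree `p` -/
noncomputable def Bd (X : Type u) [TopologicalSpace X] : ∀ p : ℕ, Submodule F2 (Co X p)
  | 0 => ⊥
  | (p + 1) => LinearMap.range (dl p)

/-- cocycles of degree `p` -/
noncomputable def Cy (X : Type u) [TopologicalSpace X] (p : ℕ) : Submodule F2 (Co X p) :=
  LinearMap.ker (dl p)

/-- cohomology mod 2 -/
abbrev Hc (X : Type u) [TopologicalSpace X] (p : ℕ) : Type u :=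
  Cy X p ⧸ (Bd X p).submoduleOf (Cy X p)

theorem pc_cg {p p' q q' r : ℕ} (hp : p = p') (hq : q = q') (h : p + q = r)
    (h' : p' + q' = r) (I : Co X r →ₗ[F2] F2) (a b : TS X → F2) :
    I (cup h (cp p a) (cp q b)) = I (cup h' (cp p' a) (cp q' b)) := by
  subst hp hq
  rfl

theorem pc_inc_pair {n p q : ℕ} (h : p + q = n) (I : Co X n →ₗ[F2] F2) (a : Co X p)
    (b : TS X → F2) : pairing n I (inc p a) b = I (cup h a (cp q b)) := by
  rw [pairing_apply]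
  rw [Finset.sum_eq_single (⟨p, by omega⟩ : Fin (n + 1))]
  · have h1 := pc_cg (p := p) (p' := p) (q := n - p) (q' := q) rfl (by omega)
      (show p + (n - p) = n by omega) h I (inc p a) b
    rw [cp_inc] at h1
    refine Eq.trans ?_ h1
    change I (cup _ (cp p (inc p a)) (cp (n - p) b)) = _
    rw [cp_inc]
  · intro p' _ hp'
    rw [cp_inc_ne (fun h2 => hp' (Fin.ext h2)), map_zero, LinearMap.zero_apply, map_zero]
  · intro h2
    exact absurd (Finset.mem_univ _) h2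

theorem pc_inc_pair_zero {n p : ℕ} (h : n < p) (I : Co X n →ₗ[F2] F2) (a : Co X p)
    (b : TS X → F2) : pairing n I (inc p a) b = 0 := by
  rw [pairing_apply]
  refine Finset.sum_eq_zero fun p' _ => ?_
  have h1 : (p' : ℕ) ≠ p := by have := p'.2; omega
  rw [cp_inc_ne h1, map_zero, LinearMap.zero_apply, map_zero]

theorem pc_inc_cy {p : ℕ} {a : Co X p} (ha : a ∈ Cy X p) : tdl (inc p a) = 0 := by
  have h1 : dl p a = 0 := ha
  rw [tdl_inc, h1, map_zero]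

theorem pc_cp_cy {q : ℕ} {b : TS X → F2} (hb : tdl b = 0) : cp q b ∈ Cy X q := by
  change dl q (cp q b) = 0
  rw [← cp_tdl_succ, hb, map_zero]

theorem pc_bd_of {p : ℕ} {a : Co X p} {a' : TS X → F2} (h : inc p a = tdl a') : a ∈ Bd X p := by
  have h1 : a = cp p (tdl a') := by rw [← h, cp_inc]
  cases p with
  | zero =>
    rw [cp_tdl_zero] at h1
    rw [h1]
    exact zero_mem _
  | succ p =>
    rw [cp_tdl_succ] at h1
    rw [h1]
    exact ⟨_, rfl⟩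

theorem pc_inc_bd {p : ℕ} {a : Co X p} (h : a ∈ Bd X p) : ∃ a' : TS X → F2, inc p a = tdl a' := by
  cases p with
  | zero =>
    have h1 : a = 0 := h
    exact ⟨0, by rw [h1, map_zero, map_zero]⟩
  | succ p =>
    obtain ⟨c, rfl⟩ := h
    exact ⟨inc p c, (tdl_inc p c).symm⟩

/-- total cocycles -/
noncomputable def ZT (X : Type u) [TopologicalSpace X] : Submodule F2 (TS X → F2) :=
  LinearMap.ker tdl

/-- total coboundaries in the total cocycles -/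
noncomputable def WT (X : Type u) [TopologicalSpace X] : Submodule F2 (ZT X) :=
  (LinearMap.range (tdl (X := X))).submoduleOf (ZT X)

theorem pc_finiteQ {m : ℕ} (I : Co X (m + 1) →ₗ[F2] F2) (hI : ∀ c : Co X m, I (dl m c) = 0)
    (hsurj : ∀ (φ : (TS X → F2) →ₗ[F2] F2), (∀ c, φ (tdl c) = 0) →
      ∃ a : TS X → F2, tdl a = 0 ∧ ∀ b, tdl b = 0 → φ b = pairing (m + 1) I a b) :
    Module.Finite F2 (ZT X ⧸ WT X) := by
  obtain ⟨β, hβ⟩ : ∃ β : ZT X →ₗ[F2] ZT X →ₗ[F2] F2, ∀ a b, β a b = pairing (m + 1) I a.1 b.1 :=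
    ⟨(pairing (m + 1) I).domRestrict₁₂ (ZT X) (ZT X), fun a b => rfl⟩
  have h1 : ∀ a : ZT X, β a ∈ (WT X).dualAnnihilator := by
    intro a
    rw [Submodule.mem_dualAnnihilator]
    intro w hw
    obtain ⟨c, hc⟩ : ∃ c, tdl c = w.1 := hw
    rw [hβ, ← hc, pairing_dl I hI]
    have h2 : tdl a.1 = 0 := a.2
    rw [h2, map_zero, LinearMap.zero_apply]
  let Ψ : ZT X →ₗ[F2] (WT X).dualAnnihilator := LinearMap.codRestrict _ β h1
  have h3 : WT X ≤ LinearMap.ker Ψ := by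
    intro w hw
    obtain ⟨c, hc⟩ : ∃ c, tdl c = w.1 := hw
    rw [LinearMap.mem_ker]
    apply Subtype.ext
    apply LinearMap.ext
    intro b
    change β w b = 0
    rw [hβ, ← hc, ← pairing_dl I hI]
    have h2 : tdl b.1 = 0 := b.2
    rw [h2, map_zero]
  let Ψ' : (ZT X ⧸ WT X) →ₗ[F2] (WT X).dualAnnihilator := (WT X).liftQ Ψ h3
  have h4 : Function.Surjective Ψ' := by
    intro φ
    obtain ⟨φ', hφ'⟩ := LinearMap.exists_extend φ.1
    have h5 : ∀ c, φ' (tdl c) = 0 := by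
      intro c
      have h6 : tdl c ∈ ZT X := tdl_tdl c
      have h7 : φ' (tdl c) = φ.1 ⟨tdl c, h6⟩ := by
        rw [← hφ']
        rfl
      rw [h7]
      exact (Submodule.mem_dualAnnihilator _).1 φ.2 ⟨tdl c, h6⟩ ⟨c, rfl⟩
    obtain ⟨a, ha, hab⟩ := hsurj φ' h5
    refine ⟨(WT X).mkQ ⟨a, ha⟩, ?_⟩
    apply Subtype.ext
    apply LinearMap.ext
    intro b
    change β ⟨a, ha⟩ b = φ.1 b
    rw [hβ, ← hab b.1 b.2, ← hφ']
    rfl
  let e := (WT X).dualQuotEquivDualAnnihilator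
  have h5 : Function.Surjective (e.symm.toLinearMap.comp Ψ') :=
    e.symm.surjective.comp h4
  have h6 := LinearMap.rank_le_of_surjective _ h5
  by_contra hcon
  rw [← Module.rank_lt_aleph0_iff, not_lt] at hcon
  have h7 := lift_rank_lt_rank_dual hcon
  rw [Cardinal.lift_uzero] at h7
  exact absurd h6 (not_le.2 h7)

theorem pc_finite_Hc (p : ℕ) (h : Module.Finite F2 (ZT X ⧸ WT X)) : Module.Finite F2 (Hc X p) := by
  haveI := h
  let f : Cy X p →ₗ[F2] ZT X := (inc p).restrict (fun a ha => pc_inc_cy ha)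
  have hf : (Bd X p).submoduleOf (Cy X p) ≤ (WT X).comap f := by
    intro a ha
    obtain ⟨a', ha'⟩ := pc_inc_bd (show a.1 ∈ Bd X p from ha)
    exact ⟨a', ha'.symm⟩
  let g : Hc X p →ₗ[F2] (ZT X ⧸ WT X) := Submodule.mapQ _ _ f hf
  have hg : Function.Injective g := by
    rw [← LinearMap.ker_eq_bot, LinearMap.ker_eq_bot']
    intro x hx
    obtain ⟨a, rfl⟩ := Submodule.Quotient.mk_surjective _ x
    have h1 : (Submodule.Quotient.mk (f a) : ZT X ⧸ WT X) = 0 := hx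
    rw [Submodule.Quotient.mk_eq_zero] at h1
    rw [Submodule.Quotient.mk_eq_zero]
    obtain ⟨a', ha'⟩ : ∃ a', tdl a' = inc p a.1 := h1
    exact pc_bd_of ha'.symm
  exact Module.Finite.of_injective g hg

/-- **Poincaré duality mod 2** for closed topological manifolds -/
theorem poincare (X : Type u) [TopologicalSpace X] [CompactSpace X] [T2Space X] (m : ℕ)
    [ChartedSpace (EuclideanSpace ℝ (Fin (m + 1))) X] :
    ∃ I : Co X (m + 1) →ₗ[F2] F2, (∀ c : Co X m, I (dl m c) = 0) ∧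
      (∀ (p q : ℕ) (h : p + q = m + 1) (a : Co X p), a ∈ Cy X p →
        (∀ b ∈ Cy X q, I (cup h a b) = 0) → a ∈ Bd X p) ∧
      (∀ p, m + 1 < p → Cy X p = Bd X p) ∧ ∀ p, Module.Finite F2 (Hc X p) := by
  haveI : SecondCountableTopology X :=
    ChartedSpace.secondCountable_of_sigmaCompact (EuclideanSpace ℝ (Fin (m + 1))) X
  obtain ⟨I, hI, hR⟩ := exists_fund (X := X) m
  refine ⟨I.1, hI, ?_, ?_, ?_⟩
  · intro p q h a ha hb
    obtain ⟨a', ha'⟩ := total_inj I hI hR (inc p a) (pc_inc_cy ha) (fun b hbb => by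
      rw [pc_inc_pair h]
      exact hb _ (pc_cp_cy hbb))
    exact pc_bd_of ha'
  · intro p hp
    apply le_antisymm
    · intro a ha
      obtain ⟨a', ha'⟩ := total_inj I hI hR (inc p a) (pc_inc_cy ha) (fun b hbb => by
        rw [pc_inc_pair_zero hp])
      exact pc_bd_of ha'
    · intro a ha
      obtain ⟨p', rfl⟩ : ∃ p', p = p' + 1 := ⟨p - 1, by omega⟩
      obtain ⟨c, rfl⟩ := ha
      exact dl_dl p' c
  · intro p
    exact pc_finite_Hc p (pc_finiteQ I.1 hI (fun φ hφ => total_surj I hI hR φ hφ))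

end Pool.Agent.Helper158.PD
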