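import Pool.Agent.Helper158.PD.Top

/-! Closed 4-manifolds with fundamental group `ℤ⁶ * ℤ⁶`. -/

set_option autoImplicit false
set_option linter.unusedVariables false

namespace Pool.Agent.Helper158.PD

open Set Topology
open Pool.Agent.Helper922.HB.Sc (Sing sface altd vert)

universe u v

variable {X : Type u} [TopologicalSpace X]

/-- the group `ℤ⁶ * ℤ⁶` -/
abbrev GG : Type := Monoid.Coprod (Multiplicative (Fin 6 → ℤ)) (Multiplicative (Fin 6 → ℤ))

/-- coordinate homomorphism -/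
def pr (i : Fin 6) : Multiplicative (Fin 6 → ℤ) →* Multiplicative ℤ :=
  AddMonoidHom.toMultiplicative (Pi.evalAddMonoidHom (fun _ : Fin 6 => ℤ) i)

/-- coordinates on the first factor -/
def cA (i : Fin 6) (g : GG) : ℤ := Multiplicative.toAdd (Monoid.Coprod.lift (pr i) 1 g)

/-- coordinates on the second factor -/
def cB (i : Fin 6) (g : GG) : ℤ := Multiplicative.toAdd (Monoid.Coprod.lift 1 (pr i) g)

theorem cA_mul (i : Fin 6) (g g' : GG) : cA i (g * g') = cA i g + cA i g' := by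
  simp [cA]

theorem cB_mul (i : Fin 6) (g g' : GG) : cB i (g * g') = cB i g + cB i g' := by
  simp [cB]

/-- generators -/
def gen : Fin 6 ⊕ Fin 6 → GG
  | Sum.inl i => Monoid.Coprod.inl (Multiplicative.ofAdd (Pi.single i 1))
  | Sum.inr i => Monoid.Coprod.inr (Multiplicative.ofAdd (Pi.single i 1))

theorem pr_single (i j : Fin 6) :
    Multiplicative.toAdd (pr i (Multiplicative.ofAdd (Pi.single j (1 : ℤ)))) =
      if i = j then 1 else 0 := by
  show (Pi.single j (1 : ℤ) : Fin 6 → ℤ) i = _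
  rw [Pi.single_apply]

theorem cA_inl (i j : Fin 6) : cA i (gen (Sum.inl j)) = if i = j then 1 else 0 := by
  rw [cA, gen, Monoid.Coprod.lift_apply_inl]
  exact pr_single i j

theorem cA_inr (i j : Fin 6) : cA i (gen (Sum.inr j)) = 0 := by
  rw [cA, gen, Monoid.Coprod.lift_apply_inr]
  rfl

theorem cB_inl (i j : Fin 6) : cB i (gen (Sum.inl j)) = 0 := by
  rw [cB, gen, Monoid.Coprod.lift_apply_inl]
  rfl

theorem cB_inr (i j : Fin 6) : cB i (gen (Sum.inr j)) = if i = j then 1 else 0 := by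
  rw [cB, gen, Monoid.Coprod.lift_apply_inr]
  exact pr_single i j

theorem gen_comm_inl (i j : Fin 6) :
    gen (Sum.inl i) * gen (Sum.inl j) = gen (Sum.inl j) * gen (Sum.inl i) := by
  simp only [gen]
  exact (map_mul Monoid.Coprod.inl _ _).symm.trans
    ((congrArg _ (mul_comm _ _)).trans (map_mul Monoid.Coprod.inl _ _))

theorem gen_comm_inr (i j : Fin 6) :
    gen (Sum.inr i) * gen (Sum.inr j) = gen (Sum.inr j) * gen (Sum.inr i) := by
  simp only [gen]
  exact (map_mul Monoid.Coprod.inr _ _).symm.trans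
    ((congrArg _ (mul_comm _ _)).trans (map_mul Monoid.Coprod.inr _ _))

theorem closure_gen : ∃ s : Fin 12 → GG, Subgroup.closure (range s) = ⊤ := by
  refine ⟨fun i => gen ((finSumFinEquiv (m := 6) (n := 6)).symm i), ?_⟩
  set H : Subgroup GG := Subgroup.closure
    (range fun i : Fin 12 => gen ((finSumFinEquiv (m := 6) (n := 6)).symm i)) with hH
  have hg : ∀ x, gen x ∈ H := by
    intro x
    apply Subgroup.subset_closure
    exact ⟨finSumFinEquiv x, by simp⟩
  have key : ∀ (φ : Multiplicative (Fin 6 → ℤ) →* GG),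
      (∀ i, φ (Multiplicative.ofAdd (Pi.single i 1)) ∈ H) → ∀ f, φ f ∈ H := by
    intro φ hφ f
    have h1 : f = ∏ i : Fin 6,
        (Multiplicative.ofAdd (Pi.single i (1 : ℤ) : Fin 6 → ℤ)) ^ (Multiplicative.toAdd f i) := by
      apply Multiplicative.toAdd.injective
      rw [toAdd_prod]
      funext k
      simp only [toAdd_zpow, toAdd_ofAdd, Finset.sum_apply, Pi.smul_apply, smul_eq_mul,
        Pi.single_apply]
      simp
    have h2 : f ∈ H.comap φ := by
      rw [h1]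
      exact Subgroup.prod_mem _ fun i _ => Subgroup.zpow_mem (H.comap φ) (hφ i) _
    exact h2
  rw [eq_top_iff, ← Monoid.Coprod.range_inl_sup_range_inr]
  refine sup_le ?_ ?_
  · rintro _ ⟨f, rfl⟩
    exact key Monoid.Coprod.inl (fun i => hg (Sum.inl i)) f
  · rintro _ ⟨f, rfl⟩
    exact key Monoid.Coprod.inr (fun i => hg (Sum.inr i)) f

/-- pairs `i < j` -/
abbrev PP : Type := {p : Fin 6 × Fin 6 // p.1 < p.2}

theorem card_PP : Fintype.card PP = 15 := by
  decide


/-- products of the classes of the first factor -/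
noncomputable def al (c : Sing X 1 → GG) (p : PP) : Co X 2 :=
  cup (show 1 + 1 = 2 from rfl) (cl c (cA p.1.1)) (cl c (cA p.1.2))

/-- products of the classes of the second factor -/
noncomputable def be (c : Sing X 1 → GG) (p : PP) : Co X 2 :=
  cup (show 1 + 1 = 2 from rfl) (cl c (cB p.1.1)) (cl c (cB p.1.2))

section label

variable {c : Sing X 1 → GG} {x₀ : X}

theorem al_cocycle
    (h1 : ∀ τ : Sing X 2, c (sface 1 1 τ) = c (sface 1 2 τ) * c (sface 1 0 τ)) (p : PP) :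
    al c p ∈ Cy X 2 :=
  cup_Cy _ (cl_cocycle h1 (cA_mul _)) (cl_cocycle h1 (cA_mul _))

theorem be_cocycle
    (h1 : ∀ τ : Sing X 2, c (sface 1 1 τ) = c (sface 1 2 τ) * c (sface 1 0 τ)) (p : PP) :
    be c p ∈ Cy X 2 :=
  cup_Cy _ (cl_cocycle h1 (cB_mul _)) (cl_cocycle h1 (cB_mul _))

theorem indep_sum (x : PP → F2) (i j : Fin 6) :
    ∑ p : PP, x p * ((((if p.1.1 = i then 1 else 0 : ℤ)) : F2) *
      (((if p.1.2 = j then 1 else 0 : ℤ)) : F2)) = if h : i < j then x ⟨(i, j), h⟩ else 0 := by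
  by_cases h : i < j
  · rw [dif_pos h, Finset.sum_eq_single (⟨(i, j), h⟩ : PP)]
    · simp
    · rintro ⟨⟨a, b⟩, hab⟩ _ hne
      by_cases h1 : a = i
      · by_cases h2 : b = j
        · subst h1
          subst h2
          exact absurd rfl hne
        · show x _ * ((((if a = i then 1 else 0 : ℤ)) : F2) * (((if b = j then 1 else 0 : ℤ)) : F2)) = 0
          rw [if_neg h2, Int.cast_zero, mul_zero, mul_zero]
      · show x _ * ((((if a = i then 1 else 0 : ℤ)) : F2) * (((if b = j then 1 else 0 : ℤ)) : F2)) = 0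
        rw [if_neg h1, Int.cast_zero, zero_mul, mul_zero]
    · intro hn
      exact absurd (Finset.mem_univ _) hn
  · rw [dif_neg h]
    refine Finset.sum_eq_zero ?_
    rintro ⟨⟨a, b⟩, hab⟩ _
    by_cases h1 : a = i
    · by_cases h2 : b = j
      · subst h1
        subst h2
        exact absurd hab h
      · show x _ * ((((if a = i then 1 else 0 : ℤ)) : F2) * (((if b = j then 1 else 0 : ℤ)) : F2)) = 0
        rw [if_neg h2, Int.cast_zero, mul_zero, mul_zero]
    · show x _ * ((((if a = i then 1 else 0 : ℤ)) : F2) * (((if b = j then 1 else 0 : ℤ)) : F2)) = 0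
      rw [if_neg h1, Int.cast_zero, zero_mul, mul_zero]

/-- the form on the group -/
def indep_xi (x y : PP → F2) (g g' : GG) : F2 :=
  ∑ p : PP, x p * (((cA p.1.1 g : ℤ) : F2) * ((cA p.1.2 g' : ℤ) : F2)) +
    ∑ p : PP, y p * (((cB p.1.1 g : ℤ) : F2) * ((cB p.1.2 g' : ℤ) : F2))

theorem indep_cA_one (i : Fin 6) : cA i 1 = 0 := by
  have h := cA_mul i 1 1
  rw [mul_one] at h
  omega

theorem indep_cB_one (i : Fin 6) : cB i 1 = 0 := by
  have h := cB_mul i 1 1
  rw [mul_one] at h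
  omega

/-- linear independence of the 30 products -/
theorem indep
    (h1 : ∀ τ : Sing X 2, c (sface 1 1 τ) = c (sface 1 2 τ) * c (sface 1 0 τ))
    (h2 : ∀ g : GG, ∃ γ : Path x₀ x₀, c (pathSx γ) = g)
    (h3 : ∀ γ γ' : Path x₀ x₀, c (pathSx γ) = c (pathSx γ') → γ.Homotopic γ')
    (x y : PP → F2) (h : ∑ p, x p • al c p + ∑ p, y p • be c p ∈ Bd X 2) : x = 0 ∧ y = 0 := by
  have hxi : (fun τ : Sing X 2 => indep_xi x y (c (sface 1 2 τ)) (c (sface 1 0 τ))) ∈ Bd X 2 := by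
    have e : (fun τ : Sing X 2 => indep_xi x y (c (sface 1 2 τ)) (c (sface 1 0 τ))) =
        ∑ p, x p • al c p + ∑ p, y p • be c p := by
      funext τ
      rw [Pi.add_apply, Finset.sum_apply, Finset.sum_apply]
      unfold indep_xi
      congr 1
      · refine Finset.sum_congr rfl fun p _ => ?_
        rw [Pi.smul_apply, al, cup_one_one]
        rfl
      · refine Finset.sum_congr rfl fun p _ => ?_
        rw [Pi.smul_apply, be, cup_one_one]
        rfl
    rw [e]
    exact h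
  have hz1 : ∀ g, indep_xi x y g 1 = 0 := by
    intro g
    unfold indep_xi
    rw [Finset.sum_eq_zero, Finset.sum_eq_zero, add_zero]
    · intro p _
      rw [indep_cB_one, Int.cast_zero, mul_zero, mul_zero]
    · intro p _
      rw [indep_cA_one, Int.cast_zero, mul_zero, mul_zero]
  have hz2 : ∀ g, indep_xi x y 1 g = 0 := by
    intro g
    unfold indep_xi
    rw [Finset.sum_eq_zero, Finset.sum_eq_zero, add_zero]
    · intro p _
      rw [indep_cB_one, Int.cast_zero, zero_mul, mul_zero]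
    · intro p _
      rw [indep_cA_one, Int.cast_zero, zero_mul, mul_zero]
  have hA : ∀ i j : Fin 6, indep_xi x y (gen (Sum.inl i)) (gen (Sum.inl j)) =
      if h : i < j then x ⟨(i, j), h⟩ else 0 := by
    intro i j
    rw [← indep_sum x i j]
    unfold indep_xi
    rw [Finset.sum_congr rfl (fun p _ => by rw [cA_inl, cA_inl]),
      Finset.sum_eq_zero (s := Finset.univ) (f := fun p : PP => y p *
        (((cB p.1.1 (gen (Sum.inl i)) : ℤ) : F2) * ((cB p.1.2 (gen (Sum.inl j)) : ℤ) : F2))),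
      add_zero]
    intro p _
    rw [cB_inl, Int.cast_zero, zero_mul, mul_zero]
  have hB : ∀ i j : Fin 6, indep_xi x y (gen (Sum.inr i)) (gen (Sum.inr j)) =
      if h : i < j then y ⟨(i, j), h⟩ else 0 := by
    intro i j
    rw [← indep_sum y i j]
    unfold indep_xi
    rw [Finset.sum_congr (f := fun p : PP => y p *
        (((cB p.1.1 (gen (Sum.inr i)) : ℤ) : F2) * ((cB p.1.2 (gen (Sum.inr j)) : ℤ) : F2)))
        rfl (fun p _ => by rw [cB_inr, cB_inr]),
      Finset.sum_eq_zero (s := Finset.univ) (f := fun p : PP => x p *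
        (((cA p.1.1 (gen (Sum.inr i)) : ℤ) : F2) * ((cA p.1.2 (gen (Sum.inr j)) : ℤ) : F2))),
      zero_add]
    intro p _
    rw [cA_inr, Int.cast_zero, zero_mul, mul_zero]
  constructor
  · funext p0
    obtain ⟨⟨i, j⟩, hij⟩ := p0
    have e := symm_of_exact h1 h2 h3 (indep_xi x y) hz1 hz2 hxi (gen_comm_inl i j)
    rw [hA, hA, dif_pos hij, dif_neg (not_lt.2 (le_of_lt hij))] at e
    exact e
  · funext p0
    obtain ⟨⟨i, j⟩, hij⟩ := p0
    have e := symm_of_exact h1 h2 h3 (indep_xi x y) hz1 hz2 hxi (gen_comm_inr i j)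
    rw [hB, hB, dif_pos hij, dif_neg (not_lt.2 (le_of_lt hij))] at e
    exact e

theorem form_aux_sq
    (h1 : ∀ τ : Sing X 2, c (sface 1 1 τ) = c (sface 1 2 τ) * c (sface 1 0 τ))
    {I : Co X 4 →ₗ[F2] F2} (hI : ∀ c : Co X 3, I (dl 3 c) = 0) {A B : GG → ℤ}
    (hA : ∀ g g', A (g * g') = A g + A g') (hB : ∀ g g', B (g * g') = B g + B g') :
    Q4 I (cl c A) (cl c B) (cl c A) (cl c B) = 0 := by
  rw [Q4_swap23 hI (cl_comm h1 hB hA) (cl_cocycle h1 hA) (cl_cocycle h1 hB)]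
  exact Q4_12 hI (cl_sq h1 hA) (cl_cocycle h1 hB) (cl_cocycle h1 hB)

theorem form_aux_swap
    (h1 : ∀ τ : Sing X 2, c (sface 1 1 τ) = c (sface 1 2 τ) * c (sface 1 0 τ))
    {I : Co X 4 →ₗ[F2] F2} (hI : ∀ c : Co X 3, I (dl 3 c) = 0) {A B A' B' : GG → ℤ}
    (hA : ∀ g g', A (g * g') = A g + A g') (hB : ∀ g g', B (g * g') = B g + B g')
    (hA' : ∀ g g', A' (g * g') = A' g + A' g') (hB' : ∀ g g', B' (g * g') = B' g + B' g') :
    Q4 I (cl c A) (cl c B) (cl c A') (cl c B') = Q4 I (cl c A') (cl c B') (cl c A) (cl c B) := by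
  rw [Q4_swap23 hI (cl_comm h1 hB hA') (cl_cocycle h1 hA) (cl_cocycle h1 hB'),
    Q4_swap12 hI (cl_comm h1 hA hA') (cl_cocycle h1 hB) (cl_cocycle h1 hB'),
    Q4_swap34 hI (cl_comm h1 hB hB') (cl_cocycle h1 hA') (cl_cocycle h1 hA),
    Q4_swap23 hI (cl_comm h1 hA hB') (cl_cocycle h1 hA') (cl_cocycle h1 hB)]

theorem form_aux_ab
    (h1 : ∀ τ : Sing X 2, c (sface 1 1 τ) = c (sface 1 2 τ) * c (sface 1 0 τ)) (j k : Fin 6) :
    cup (show 1 + 1 = 2 from rfl) (cl c (cA j)) (cl c (cB k)) ∈ Bd X 2 := by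
  obtain ⟨κ, hκ⟩ := exists_kappa (pr j) (pr k)
  exact cl_zero h1 κ hκ

theorem form_aux_ba
    (h1 : ∀ τ : Sing X 2, c (sface 1 1 τ) = c (sface 1 2 τ) * c (sface 1 0 τ)) (j k : Fin 6) :
    cup (show 1 + 1 = 2 from rfl) (cl c (cB k)) (cl c (cA j)) ∈ Bd X 2 := by
  have h2 := form_aux_ab h1 j k
  have h3 := cl_comm h1 (cA_mul j) (cB_mul k)
  exact (Submodule.add_mem_iff_right _ h2).1 h3

theorem form_al_al
    (h1 : ∀ τ : Sing X 2, c (sface 1 1 τ) = c (sface 1 2 τ) * c (sface 1 0 τ))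
    {I : Co X 4 →ₗ[F2] F2} (hI : ∀ c : Co X 3, I (dl 3 c) = 0) (p q : PP) :
    I (cup (show 2 + 2 = 4 from rfl) (al c p) (al c p)) = 0 ∧
      I (cup (show 2 + 2 = 4 from rfl) (al c p) (al c q)) =
        I (cup (show 2 + 2 = 4 from rfl) (al c q) (al c p)) := by
  exact ⟨form_aux_sq h1 hI (cA_mul _) (cA_mul _),
    form_aux_swap h1 hI (cA_mul _) (cA_mul _) (cA_mul _) (cA_mul _)⟩

theorem form_be_be
    (h1 : ∀ τ : Sing X 2, c (sface 1 1 τ) = c (sface 1 2 τ) * c (sface 1 0 τ))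
    {I : Co X 4 →ₗ[F2] F2} (hI : ∀ c : Co X 3, I (dl 3 c) = 0) (p q : PP) :
    I (cup (show 2 + 2 = 4 from rfl) (be c p) (be c p)) = 0 ∧
      I (cup (show 2 + 2 = 4 from rfl) (be c p) (be c q)) =
        I (cup (show 2 + 2 = 4 from rfl) (be c q) (be c p)) := by
  exact ⟨form_aux_sq h1 hI (cB_mul _) (cB_mul _),
    form_aux_swap h1 hI (cB_mul _) (cB_mul _) (cB_mul _) (cB_mul _)⟩

theorem form_al_be
    (h1 : ∀ τ : Sing X 2, c (sface 1 1 τ) = c (sface 1 2 τ) * c (sface 1 0 τ))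
    {I : Co X 4 →ₗ[F2] F2} (hI : ∀ c : Co X 3, I (dl 3 c) = 0) (p q : PP) :
    I (cup (show 2 + 2 = 4 from rfl) (al c p) (be c q)) = 0 ∧
      I (cup (show 2 + 2 = 4 from rfl) (be c p) (al c q)) = 0 := by
  constructor
  · exact Q4_23 hI (form_aux_ab h1 _ _) (cl_cocycle h1 (cA_mul _)) (cl_cocycle h1 (cB_mul _))
  · exact Q4_23 hI (form_aux_ba h1 _ _) (cl_cocycle h1 (cB_mul _)) (cl_cocycle h1 (cA_mul _))

end label

/-- the intersection form on cohomology of degree two -/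
theorem exists_form {I : Co X 4 →ₗ[F2] F2} (hI : ∀ c : Co X 3, I (dl 3 c) = 0)
    (hnd : ∀ a ∈ Cy X 2, (∀ b ∈ Cy X 2, I (cup (show 2 + 2 = 4 from rfl) a b) = 0) → a ∈ Bd X 2) :
    ∃ B : Hc X 2 →ₗ[F2] Hc X 2 →ₗ[F2] F2, Function.Injective B ∧
      ∀ a b : Cy X 2, B (Submodule.Quotient.mk a) (Submodule.Quotient.mk b) =
        I (cup (show 2 + 2 = 4 from rfl) a.1 b.1) := by
  obtain ⟨Φ, hΦ⟩ : ∃ Φ : Cy X 2 →ₗ[F2] Cy X 2 →ₗ[F2] F2, ∀ a b, Φ a b =
      I (cup (show 2 + 2 = 4 from rfl) a.1 b.1) :=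
    ⟨(LinearMap.compr₂ (cup (X := X) (show 2 + 2 = 4 from rfl)) I).compl₁₂
      (Cy X 2).subtype (Cy X 2).subtype, fun a b => rfl⟩
  have h1 : (Bd X 2).submoduleOf (Cy X 2) ≤ LinearMap.ker Φ.flip := by
    intro b hb
    rw [LinearMap.mem_ker]
    ext a
    rw [LinearMap.flip_apply, hΦ]
    exact Q4_aux_zero hI (cup_Bd_right _ a.2 hb)
  obtain ⟨Ψ, hΨ⟩ : ∃ Ψ : Hc X 2 →ₗ[F2] Cy X 2 →ₗ[F2] F2, ∀ a b,
      Ψ (Submodule.Quotient.mk b) a = Φ a b :=
    ⟨((Bd X 2).submoduleOf (Cy X 2)).liftQ Φ.flip h1, fun a b => rfl⟩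
  have h2 : (Bd X 2).submoduleOf (Cy X 2) ≤ LinearMap.ker Ψ.flip := by
    intro a ha
    rw [LinearMap.mem_ker]
    refine LinearMap.ext fun z => ?_
    obtain ⟨b, rfl⟩ := Submodule.Quotient.mk_surjective _ z
    rw [LinearMap.flip_apply, hΨ, hΦ]
    exact Q4_aux_zero hI (cup_Bd_left _ ha b.2)
  obtain ⟨B, hB⟩ : ∃ B : Hc X 2 →ₗ[F2] Hc X 2 →ₗ[F2] F2, ∀ a z,
      B (Submodule.Quotient.mk a) z = Ψ z a :=
    ⟨((Bd X 2).submoduleOf (Cy X 2)).liftQ Ψ.flip h2, fun a z => rfl⟩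
  refine ⟨B, ?_, fun a b => by rw [hB, hΨ, hΦ]⟩
  rw [injective_iff_map_eq_zero]
  intro z hz
  obtain ⟨a, rfl⟩ := Submodule.Quotient.mk_surjective _ z
  rw [Submodule.Quotient.mk_eq_zero]
  refine hnd a.1 a.2 fun b hb => ?_
  have h3 : B (Submodule.Quotient.mk a) (Submodule.Quotient.mk ⟨b, hb⟩) = 0 := by
    rw [hz, LinearMap.zero_apply]
  rw [hB, hΨ, hΦ] at h3
  exact h3

/-- the second Betti number mod 2 is at least 32 -/
theorem betti_two (c : Sing X 1 → GG) (x₀ : X)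
    (h1 : ∀ τ : Sing X 2, c (sface 1 1 τ) = c (sface 1 2 τ) * c (sface 1 0 τ))
    (h2 : ∀ g : GG, ∃ γ : Path x₀ x₀, c (pathSx γ) = g)
    (h3 : ∀ γ γ' : Path x₀ x₀, c (pathSx γ) = c (pathSx γ') → γ.Homotopic γ')
    {I : Co X 4 →ₗ[F2] F2} (hI : ∀ c : Co X 3, I (dl 3 c) = 0)
    (hnd : ∀ a ∈ Cy X 2, (∀ b ∈ Cy X 2, I (cup (show 2 + 2 = 4 from rfl) a b) = 0) → a ∈ Bd X 2)
    [Module.Finite F2 (Hc X 2)] : 32 ≤ Module.finrank F2 (Hc X 2) := by
  obtain ⟨B, hB, hBv⟩ := exists_form hI hnd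
  have hodd : Odd (Fintype.card PP) := by rw [card_PP]; decide
  obtain ⟨v, hv0, hv⟩ := odd_alt hodd
    (Matrix.of fun p q : PP => I (cup (show 2 + 2 = 4 from rfl) (al c p) (al c q)))
    (fun i => (form_al_al h1 hI i i).1) (fun i j => (form_al_al h1 hI i j).2)
  obtain ⟨w, hw0, hw⟩ := odd_alt hodd
    (Matrix.of fun p q : PP => I (cup (show 2 + 2 = 4 from rfl) (be c p) (be c q)))
    (fun i => (form_be_be h1 hI i i).1) (fun i j => (form_be_be h1 hI i j).2)
  have hA1 : ∀ q, I (cup (show 2 + 2 = 4 from rfl) (∑ p, v p • al c p) (al c q)) = 0 := by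
    intro q
    simp only [map_sum, LinearMap.sum_apply, map_smul, LinearMap.smul_apply, smul_eq_mul]
    exact congrFun hv q
  have hA2 : ∀ q, I (cup (show 2 + 2 = 4 from rfl) (∑ p, v p • al c p) (be c q)) = 0 := by
    intro q
    simp only [map_sum, LinearMap.sum_apply, map_smul, LinearMap.smul_apply, smul_eq_mul]
    exact Finset.sum_eq_zero fun p _ => by rw [(form_al_be h1 hI p q).1, mul_zero]
  have hB1 : ∀ q, I (cup (show 2 + 2 = 4 from rfl) (∑ p, w p • be c p) (al c q)) = 0 := by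
    intro q
    simp only [map_sum, LinearMap.sum_apply, map_smul, LinearMap.smul_apply, smul_eq_mul]
    exact Finset.sum_eq_zero fun p _ => by rw [(form_al_be h1 hI p q).2, mul_zero]
  have hB2 : ∀ q, I (cup (show 2 + 2 = 4 from rfl) (∑ p, w p • be c p) (be c q)) = 0 := by
    intro q
    simp only [map_sum, LinearMap.sum_apply, map_smul, LinearMap.smul_apply, smul_eq_mul]
    exact congrFun hw q
  let rep : ((PP → F2) × (PP → F2)) →ₗ[F2] Cy X 2 :=
    (Fintype.linearCombination F2 (fun p => (⟨al c p, al_cocycle h1 p⟩ : Cy X 2))).coprod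
      (Fintype.linearCombination F2 (fun p => (⟨be c p, be_cocycle h1 p⟩ : Cy X 2)))
  have hrep : ∀ x y : PP → F2, (rep (x, y) : Co X 2) = ∑ p, x p • al c p + ∑ p, y p • be c p := by
    intro x y
    simp only [rep, LinearMap.coprod_apply, Fintype.linearCombination_apply, Submodule.coe_add,
      Submodule.coe_sum, Submodule.coe_smul]
  let T : ((PP → F2) × (PP → F2)) →ₗ[F2] Hc X 2 :=
    (Submodule.mkQ ((Bd X 2).submoduleOf (Cy X 2))).comp rep
  have hTm : ∀ z, T z = Submodule.Quotient.mk (rep z) := fun z => rfl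
  have hTi : Function.Injective T := by
    rw [← LinearMap.ker_eq_bot, LinearMap.ker_eq_bot']
    rintro ⟨x, y⟩ hxy
    rw [hTm, Submodule.Quotient.mk_eq_zero] at hxy
    have h4 : (rep (x, y) : Co X 2) ∈ Bd X 2 := hxy
    rw [hrep] at h4
    obtain ⟨e1, e2⟩ := indep h1 h2 h3 x y h4
    rw [e1, e2]
    rfl
  let j : (F2 × F2) →ₗ[F2] ((PP → F2) × (PP → F2)) :=
    (LinearMap.toSpanSingleton F2 (PP → F2) v).prodMap (LinearMap.toSpanSingleton F2 (PP → F2) w)
  have hji : Function.Injective j := by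
    rw [← LinearMap.ker_eq_bot, LinearMap.ker_eq_bot']
    rintro ⟨s, t⟩ hst
    have e1 : s • v = 0 := congrArg Prod.fst hst
    have e2 : t • w = 0 := congrArg Prod.snd hst
    rw [Prod.mk_eq_zero]
    exact ⟨(smul_eq_zero.1 e1).resolve_right hv0, (smul_eq_zero.1 e2).resolve_right hw0⟩
  have hL : Module.finrank F2 (LinearMap.range T) = 30 := by
    rw [LinearMap.finrank_range_of_inj hTi, Module.finrank_prod, Module.finrank_fintype_fun_eq_card,
      card_PP]
  have hR : Module.finrank F2 (LinearMap.range (T.comp j)) = 2 := by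
    have hc : Function.Injective (T.comp j) := by
      rw [LinearMap.coe_comp]
      exact hTi.comp hji
    rw [LinearMap.finrank_range_of_inj hc, Module.finrank_prod, Module.finrank_self]
  have hmain := dim_le B hB (LinearMap.range T) (LinearMap.range (T.comp j)) (by
    rintro _ ⟨⟨s, t⟩, rfl⟩ _ ⟨⟨x, y⟩, rfl⟩
    show B (T (s • v, t • w)) (T (x, y)) = 0
    rw [hTm, hTm, hBv, hrep, hrep]
    have e1 : ∑ p, (s • v) p • al c p = s • ∑ p, v p • al c p := by
      rw [Finset.smul_sum]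
      exact Finset.sum_congr rfl fun p _ => by rw [Pi.smul_apply, smul_assoc]
    have e2 : ∑ p, (t • w) p • be c p = t • ∑ p, w p • be c p := by
      rw [Finset.smul_sum]
      exact Finset.sum_congr rfl fun p _ => by rw [Pi.smul_apply, smul_assoc]
    rw [e1, e2]
    simp only [map_add (cup (show 2 + 2 = 4 from rfl)), LinearMap.add_apply]
    generalize ∑ p, v p • al c p = P at hA1 hA2
    generalize ∑ p, w p • be c p = Q at hB1 hB2
    simp only [map_smul, LinearMap.smul_apply, map_add, map_sum, hA1, hA2, hB1, hB2, smul_zero,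
      Finset.sum_const_zero, add_zero])
  rw [hL, hR] at hmain
  exact hmain

theorem betti_symm_aux {n : ℕ} {I : Co X (n + 1) →ₗ[F2] F2} (hI : ∀ c : Co X n, I (dl n c) = 0)
    (hnd : ∀ (p q : ℕ) (h : p + q = n + 1) (a : Co X p), a ∈ Cy X p →
        (∀ b ∈ Cy X q, I (cup h a b) = 0) → a ∈ Bd X p)
    (hfin : ∀ p, Module.Finite F2 (Hc X p)) {p q : ℕ} (h : p + q = n + 1) :
    Module.finrank F2 (Hc X p) ≤ Module.finrank F2 (Hc X q) := by
  haveI := hfin p
  haveI := hfin q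
  set B : Cy X p →ₗ[F2] Cy X q →ₗ[F2] F2 := ((cup h).compr₂ I).domRestrict₁₂ (Cy X p) (Cy X q) with hB
  have hBa : ∀ a b, B a b = I (cup h a.1 b.1) := fun a b => rfl
  set Ψ : Hc X q →ₗ[F2] Cy X p →ₗ[F2] F2 := Submodule.liftQ ((Bd X q).submoduleOf (Cy X q)) B.flip (by
    intro b hb
    rw [LinearMap.mem_ker]
    ext a
    rw [LinearMap.flip_apply, hBa, LinearMap.zero_apply]
    have h1 : cup h a.1 b.1 ∈ Bd X (n + 1) := cup_Bd_right h a.2 hb
    obtain ⟨c, hc⟩ := h1
    rw [← hc]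
    exact hI c) with hΨ
  set Φ : Cy X p →ₗ[F2] Hc X q →ₗ[F2] F2 := Ψ.flip with hΦ
  have hker : LinearMap.ker Φ ≤ (Bd X p).submoduleOf (Cy X p) := by
    intro a ha
    rw [LinearMap.mem_ker] at ha
    apply hnd p q h a.1 a.2
    intro b hb
    have h1 := LinearMap.congr_fun ha (Submodule.Quotient.mk ⟨b, hb⟩)
    exact h1
  have e1 : Module.finrank F2 (Hc X p) ≤ Module.finrank F2 (Cy X p ⧸ LinearMap.ker Φ) := by
    haveI : Module.Finite F2 (Cy X p ⧸ LinearMap.ker Φ) :=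
      Module.Finite.equiv (Φ.quotKerEquivRange).symm
    exact LinearMap.finrank_le_finrank_of_surjective (f := Submodule.factor hker) (Submodule.factor_surjective hker)
  have e2 : Module.finrank F2 (Cy X p ⧸ LinearMap.ker Φ) = Module.finrank F2 (LinearMap.range Φ) :=
    LinearEquiv.finrank_eq Φ.quotKerEquivRange
  have e3 : Module.finrank F2 (LinearMap.range Φ) ≤ Module.finrank F2 (Hc X q →ₗ[F2] F2) :=
    Submodule.finrank_le _
  have e4 : Module.finrank F2 (Hc X q →ₗ[F2] F2) = Module.finrank F2 (Hc X q) :=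
    Subspace.dual_finrank_eq
  omega

/-- the Betti numbers are symmetric -/
theorem betti_symm {n : ℕ} {I : Co X (n + 1) →ₗ[F2] F2} (hI : ∀ c : Co X n, I (dl n c) = 0)
    (hnd : ∀ (p q : ℕ) (h : p + q = n + 1) (a : Co X p), a ∈ Cy X p →
        (∀ b ∈ Cy X q, I (cup h a b) = 0) → a ∈ Bd X p)
    (hfin : ∀ p, Module.Finite F2 (Hc X p)) {p q : ℕ} (h : p + q = n + 1) :
    Module.finrank F2 (Hc X p) = Module.finrank F2 (Hc X q) :=
  le_antisymm (betti_symm_aux hI hnd hfin h)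
    (betti_symm_aux hI hnd hfin (show q + p = n + 1 by rw [add_comm]; exact h))

theorem betti_zero [Nonempty X] [Module.Finite F2 (Hc X 0)] : 1 ≤ Module.finrank F2 (Hc X 0) := by
  have hone : (fun _ => 1 : Co X 0) ∈ Cy X 0 := by
    show dl 0 (fun _ => 1) = 0
    funext σ
    rw [dl_apply]
    simp only [Finset.sum_const, Finset.card_univ, Fintype.card_fin, Pi.zero_apply]
    decide
  have hne : (Submodule.Quotient.mk ⟨_, hone⟩ : Hc X 0) ≠ 0 := by
    intro h0
    rw [Submodule.Quotient.mk_eq_zero] at h0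
    have h1 : (fun _ => 1 : Co X 0) ∈ (⊥ : Submodule F2 (Co X 0)) := h0
    rw [Submodule.mem_bot] at h1
    have h2 := congrFun h1 (ContinuousMap.const _ (Classical.arbitrary X))
    exact one_ne_zero h2
  haveI : Nontrivial (Hc X 0) := ⟨⟨_, _, hne⟩⟩
  exact Module.finrank_pos

/-- the Euler characteristic, computed with cohomology mod 2 -/
noncomputable def euler (X : Type u) [TopologicalSpace X] : ℤ :=
  ∑ᶠ p : ℕ, (-1 : ℤ) ^ p * (Module.finrank F2 (Hc X p) : ℤ)


theorem main (X : Type u) [TopologicalSpace X] [CompactSpace X] [T2Space X] [ConnectedSpace X]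
    [ChartedSpace (EuclideanSpace ℝ (Fin 4)) X] (x₀ : X) (e : FundamentalGroup X x₀ ≃* GG) :
    10 ≤ euler X := by
  obtain ⟨I, hI, hnd, hvan, hfin⟩ := poincare X 3
  have : LocallyPathConnectedSpace X :=
    ChartedSpace.locallyPathConnectedSpace (EuclideanSpace ℝ (Fin 4)) X
  have : PathConnectedSpace X := pathConnectedSpace_iff_connectedSpace.2 inferInstance
  obtain ⟨c, h1, h2, h3⟩ := exists_label x₀ e
  obtain ⟨s, hs⟩ := closure_gen
  have := hfin 2
  have := hfin 0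
  have b1 : Module.finrank F2 (Hc X 1) ≤ 12 := betti_one_le h1 h2 h3 12 s hs
  have b2 : 32 ≤ Module.finrank F2 (Hc X 2) :=
    betti_two c x₀ h1 h2 h3 hI (fun a ha h => hnd 2 2 rfl a ha h)
  have : Nonempty X := ⟨x₀⟩
  have b0 : 1 ≤ Module.finrank F2 (Hc X 0) := betti_zero
  have b3 : Module.finrank F2 (Hc X 1) = Module.finrank F2 (Hc X 3) :=
    betti_symm hI hnd hfin (show 1 + 3 = 4 from rfl)
  have b4 : Module.finrank F2 (Hc X 0) = Module.finrank F2 (Hc X 4) :=
    betti_symm hI hnd hfin (show 0 + 4 = 4 from rfl)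
  have hv : ∀ p, 4 < p → Module.finrank F2 (Hc X p) = 0 := by
    intro p hp
    have h := hvan p hp
    have hs : ∀ x : Hc X p, x = 0 := by
      intro x
      obtain ⟨a, rfl⟩ := Submodule.Quotient.mk_surjective _ x
      rw [Submodule.Quotient.mk_eq_zero]
      exact (h ▸ a.2 : (a : Co X p) ∈ Bd X p)
    have : Subsingleton (Hc X p) := ⟨fun x y => by rw [hs x, hs y]⟩
    exact Module.finrank_zero_of_subsingleton
  have hsum : euler X = ∑ p ∈ Finset.range 5, (-1 : ℤ) ^ p * (Module.finrank F2 (Hc X p) : ℤ) := by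
    apply finsum_eq_sum_of_support_subset
    intro p hp
    rw [Function.mem_support] at hp
    rw [Finset.coe_range, mem_Iio]
    by_contra hlt
    apply hp
    rw [hv p (by omega), Nat.cast_zero, mul_zero]
  rw [hsum]
  simp only [Finset.sum_range_succ, Finset.sum_range_zero]
  norm_num
  omega

end Pool.Agent.Helper158.PD
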