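import Pool.Agent.Helper158.PD.Abs

/-! Cochain complexes with supports and their duals. -/

set_option autoImplicit false

namespace Pool.Agent.Helper158.PD

open Set Topology

universe u v

/-- coefficients mod 2 -/
abbrev F2 := ZMod 2

/-- A graded cochain complex of functions on simplices with supports in `X`. -/
structure CC (X : Type u) [TopologicalSpace X] where
  S : ℕ → Type u
  rg : ∀ k, S k → Set X
  v0 : ∀ k, S k → X
  v0_mem : ∀ k s, v0 k s ∈ rg k s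
  dl : ∀ k, (S k → F2) →ₗ[F2] (S (k + 1) → F2)
  dd : ∀ k c, dl (k + 1) (dl k c) = 0
  loc : ∀ k (c : S k → F2) (U : Set X), (∀ s, rg k s ⊆ U → c s = 0) →
    ∀ s, rg (k + 1) s ⊆ U → dl k c s = 0

namespace CC

variable {X : Type u} [TopologicalSpace X] (C : CC X)

/-- cochains which vanish on all small simplices near every point of `A` -/
def N (k : ℕ) (A : Set X) : Submodule F2 (C.S k → F2) where
  carrier := {c | ∀ x ∈ A, ∃ U, IsOpen U ∧ x ∈ U ∧ ∀ s, C.rg k s ⊆ U → c s = 0}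
  zero_mem' := fun x _ => ⟨univ, isOpen_univ, mem_univ _, fun _ _ => rfl⟩
  add_mem' := by
    intro a b ha hb x hx
    obtain ⟨U, hU, hxU, h1⟩ := ha x hx
    obtain ⟨V, hV, hxV, h2⟩ := hb x hx
    refine ⟨U ∩ V, hU.inter hV, ⟨hxU, hxV⟩, fun s hs => ?_⟩
    rw [Pi.add_apply, h1 s (hs.trans inter_subset_left), h2 s (hs.trans inter_subset_right),
      add_zero]
  smul_mem' := by
    intro r a ha x hx
    obtain ⟨U, hU, hxU, h1⟩ := ha x hx
    refine ⟨U, hU, hxU, fun s hs => ?_⟩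
    rw [Pi.smul_apply, h1 s hs, smul_zero]

theorem mem_N {k : ℕ} {A : Set X} {c : C.S k → F2} : c ∈ C.N k A ↔
    ∀ x ∈ A, ∃ U, IsOpen U ∧ x ∈ U ∧ ∀ s, C.rg k s ⊆ U → c s = 0 := Iff.rfl

theorem N_mono {k : ℕ} {A B : Set X} (h : A ⊆ B) : C.N k B ≤ C.N k A :=
  fun _ hc x hx => hc x (h hx)

theorem N_empty (k : ℕ) (c : C.S k → F2) : c ∈ C.N k ∅ := fun x hx => absurd hx (notMem_empty x)

theorem N_union {k : ℕ} {A B : Set X} {c : C.S k → F2} (h1 : c ∈ C.N k A) (h2 : c ∈ C.N k B) :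
    c ∈ C.N k (A ∪ B) := by
  rintro x (hx | hx)
  · exact h1 x hx
  · exact h2 x hx

theorem dl_N {k : ℕ} {A : Set X} {c : C.S k → F2} (h : c ∈ C.N k A) :
    C.dl k c ∈ C.N (k + 1) A := by
  intro x hx
  obtain ⟨U, hU, hxU, h1⟩ := h x hx
  exact ⟨U, hU, hxU, C.loc k c U h1⟩

theorem N_nhd {k : ℕ} {A : Set X} {c : C.S k → F2} (h : c ∈ C.N k A) :
    ∃ U, IsOpen U ∧ A ⊆ U ∧ c ∈ C.N k U := by
  refine ⟨⋃ (V : Set X) (_ : IsOpen V ∧ ∀ s, C.rg k s ⊆ V → c s = 0), V, ?_, ?_, ?_⟩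
  · exact isOpen_iUnion fun V => isOpen_iUnion fun hV => hV.1
  · intro x hx
    obtain ⟨U, hU, hxU, h1⟩ := h x hx
    simp only [mem_iUnion]
    exact ⟨U, ⟨hU, h1⟩, hxU⟩
  · intro x hx
    simp only [mem_iUnion] at hx
    obtain ⟨V, ⟨hV, h1⟩, hxV⟩ := hx
    exact ⟨V, hV, hxV, h1⟩

/-- splitting of a cochain which is locally zero on `A ∩ B` -/
theorem N_split [CompletelyNormalSpace X] {k : ℕ} {A B : Set X}
    (h1 : Disjoint (closure (A \ B)) (B \ A)) (h2 : Disjoint (A \ B) (closure (B \ A)))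
    {c : C.S k → F2} (hc : c ∈ C.N k (A ∩ B)) :
    ∃ c₁ ∈ C.N k A, ∃ c₂ ∈ C.N k B, c = c₁ + c₂ := by
  classical
  obtain ⟨G, H, hG, hH, hAG, hBH, hd⟩ := separatedNhds_iff_disjoint.mpr
    (CompletelyNormalSpace.completely_normal h1 h2)
  refine ⟨fun s => if C.v0 k s ∈ H then c s else 0, ?_,
    fun s => if C.v0 k s ∈ H then 0 else c s, ?_, ?_⟩
  · intro x hx
    by_cases hxB : x ∈ B
    · obtain ⟨U, hU, hxU, h⟩ := hc x ⟨hx, hxB⟩
      refine ⟨U, hU, hxU, fun s hs => ?_⟩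
      change (if C.v0 k s ∈ H then c s else 0) = 0
      rw [h s hs, ite_self]
    · refine ⟨G, hG, hAG ⟨hx, hxB⟩, fun s hs => ?_⟩
      have h3 : C.v0 k s ∉ H := fun h4 => disjoint_left.mp hd (hs (C.v0_mem k s)) h4
      change (if C.v0 k s ∈ H then c s else 0) = 0
      rw [if_neg h3]
  · intro x hx
    by_cases hxA : x ∈ A
    · obtain ⟨U, hU, hxU, h⟩ := hc x ⟨hxA, hx⟩
      refine ⟨U, hU, hxU, fun s hs => ?_⟩
      change (if C.v0 k s ∈ H then 0 else c s) = 0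
      rw [h s hs, ite_self]
    · refine ⟨H, hH, hBH ⟨hx, hxA⟩, fun s hs => ?_⟩
      have h3 : C.v0 k s ∈ H := hs (C.v0_mem k s)
      change (if C.v0 k s ∈ H then 0 else c s) = 0
      rw [if_pos h3]
  · funext s
    change c s = (if C.v0 k s ∈ H then c s else 0) + (if C.v0 k s ∈ H then 0 else c s)
    by_cases h3 : C.v0 k s ∈ H
    · rw [if_pos h3, if_pos h3, add_zero]
    · rw [if_neg h3, if_neg h3, zero_add]

theorem N_inter_closed [CompletelyNormalSpace X] {k : ℕ} {A B : Set X} (hA : IsClosed A)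
    (hB : IsClosed B) {c : C.S k → F2} (hc : c ∈ C.N k (A ∩ B)) :
    ∃ c₁ ∈ C.N k A, ∃ c₂ ∈ C.N k B, c = c₁ + c₂ := by
  apply C.N_split _ _ hc
  · have h : closure (A \ B) ⊆ A := closure_minimal sdiff_subset hA
    exact Set.disjoint_left.2 fun x hx hx' => hx'.2 (h hx)
  · have h : closure (B \ A) ⊆ B := closure_minimal sdiff_subset hB
    exact Set.disjoint_left.2 fun x hx hx' => hx.2 (h hx')

/-- functionals which kill all locally zero cochains -/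
def D (k : ℕ) : Submodule F2 ((C.S k → F2) →ₗ[F2] F2) where
  carrier := {φ | ∀ c ∈ C.N k univ, φ c = 0}
  zero_mem' := fun _ _ => rfl
  add_mem' := by
    intro a b ha hb c hc
    rw [LinearMap.add_apply, ha c hc, hb c hc, add_zero]
  smul_mem' := by
    intro r a ha c hc
    rw [LinearMap.smul_apply, ha c hc, smul_zero]

/-- the boundary of a functional -/
def bd (k : ℕ) : C.D (k + 1) →ₗ[F2] C.D k where
  toFun φ := ⟨φ.1.comp (C.dl k), fun c hc => φ.2 _ (C.dl_N hc)⟩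
  map_add' _ _ := rfl
  map_smul' _ _ := rfl

theorem bd_apply (k : ℕ) (φ : C.D (k + 1)) (c : C.S k → F2) : (C.bd k φ).1 c = φ.1 (C.dl k c) :=
  rfl

/-- functionals which vanish near `A`: they kill all cochains with support in some neighbourhood
of `A` -/
def Z (k : ℕ) (A : Set X) : Submodule F2 (C.D k) where
  carrier := {φ | ∃ U, IsOpen U ∧ A ⊆ U ∧ ∀ c ∈ C.N k Uᶜ, φ.1 c = 0}
  zero_mem' := ⟨univ, isOpen_univ, subset_univ _, fun _ _ => rfl⟩
  add_mem' := by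
    rintro a b ⟨U, hU, hAU, h1⟩ ⟨V, hV, hAV, h2⟩
    refine ⟨U ∩ V, hU.inter hV, subset_inter hAU hAV, fun c hc => ?_⟩
    have e1 : c ∈ C.N k Uᶜ := C.N_mono (compl_subset_compl.2 inter_subset_left) hc
    have e2 : c ∈ C.N k Vᶜ := C.N_mono (compl_subset_compl.2 inter_subset_right) hc
    change a.1 c + b.1 c = 0
    rw [h1 c e1, h2 c e2, add_zero]
  smul_mem' := by
    rintro r a ⟨U, hU, hAU, h1⟩
    refine ⟨U, hU, hAU, fun c hc => ?_⟩
    change r • a.1 c = 0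
    rw [h1 c hc, smul_zero]

theorem mem_Z {k : ℕ} {A : Set X} {φ : C.D k} : φ ∈ C.Z k A ↔
    ∃ U, IsOpen U ∧ A ⊆ U ∧ ∀ c ∈ C.N k Uᶜ, φ.1 c = 0 := Iff.rfl

theorem Z_univ {k : ℕ} {φ : C.D k} (h : φ ∈ C.Z k univ) : φ = 0 := by
  obtain ⟨U, _, hU, h1⟩ := h
  apply Subtype.ext
  apply LinearMap.ext
  intro c
  apply h1
  rw [eq_univ_of_univ_subset hU, compl_univ]
  exact C.N_empty k c

theorem Z_union [CompletelyNormalSpace X] {k : ℕ} {A B : Set X} {φ : C.D k}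
    (h1 : φ ∈ C.Z k A) (h2 : φ ∈ C.Z k B) : φ ∈ C.Z k (A ∪ B) := by
  obtain ⟨U, hU, hAU, h1⟩ := h1
  obtain ⟨V, hV, hBV, h2⟩ := h2
  refine ⟨U ∪ V, hU.union hV, union_subset_union hAU hBV, fun c hc => ?_⟩
  rw [compl_union] at hc
  obtain ⟨c1, hc1, c2, hc2, rfl⟩ := C.N_inter_closed hU.isClosed_compl hV.isClosed_compl hc
  rw [map_add, h1 c1 hc1, h2 c2 hc2, add_zero]

theorem j24205_ext {M : Type u} [AddCommGroup M] [Module F2 M] (P R : Submodule F2 M)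
    (φ : M →ₗ[F2] F2) (h : ∀ c ∈ P, c ∈ R → φ c = 0) :
    ∃ ψ : M →ₗ[F2] F2, (∀ c ∈ P, ψ c = 0) ∧ ∀ c ∈ R, ψ c = φ c := by
  let f : M →ₗ.[F2] F2 := ⟨P, 0⟩
  let g : M →ₗ.[F2] F2 := ⟨R, φ.comp R.subtype⟩
  have hfg : ∀ (x : f.domain) (y : g.domain), (x : M) = y → f x = g y := by
    intro x y hxy
    have h1 : φ (y : M) = 0 := h _ (by
      rw [← hxy]
      exact x.2) y.2
    show (0 : F2) = φ (y : M)
    rw [h1]
  obtain ⟨ψ, hψ⟩ := LinearMap.exists_extend (f.sup g hfg).toFun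
  have hψ' : ∀ x : (f.sup g hfg).domain, ψ (x : M) = (f.sup g hfg) x := by
    intro x
    have := congrArg (fun l => l x) hψ
    exact this
  refine ⟨ψ, fun c hc => ?_, fun c hc => ?_⟩
  · have h1 := LinearPMap.left_le_sup f g hfg
    have hcm : c ∈ (f.sup g hfg).domain := h1.1 hc
    have h2 := h1.2 (x := ⟨c, hc⟩) (y := ⟨c, hcm⟩) rfl
    rw [hψ' ⟨c, hcm⟩, ← h2]
    rfl
  · have h1 := LinearPMap.right_le_sup f g hfg
    have hcm : c ∈ (f.sup g hfg).domain := h1.1 hc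
    have h2 := h1.2 (x := ⟨c, hc⟩) (y := ⟨c, hcm⟩) rfl
    rw [hψ' ⟨c, hcm⟩, ← h2]
    rfl

theorem Z_inter [T4Space X] {k : ℕ} {A B : Set X} (hA : IsClosed A)
    (hB : IsClosed B) {φ : C.D k} (h : φ ∈ C.Z k (A ∩ B)) :
    ∃ φ₁ ∈ C.Z k A, ∃ φ₂ ∈ C.Z k B, φ = φ₁ + φ₂ := by
  obtain ⟨W, hW, hABW, hφ⟩ := h
  have hBW : IsClosed (B \ W) := hB.sdiff hW
  have hdisj : Disjoint A (B \ W) := by
    rw [Set.disjoint_left]
    rintro x hxA ⟨hxB, hxW⟩
    exact hxW (hABW ⟨hxA, hxB⟩)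
  obtain ⟨U, V1, hU, hV1, hAU, hBV1, hUV⟩ := normal_separation hA hBW hdisj
  have hV : IsOpen (V1 ∪ W) := hV1.union hW
  have hBV : B ⊆ V1 ∪ W := by
    intro x hx
    by_cases hxW : x ∈ W
    · exact Or.inr hxW
    · exact Or.inl (hBV1 ⟨hx, hxW⟩)
  have hsub : Wᶜ ⊆ Uᶜ ∪ (V1 ∪ W)ᶜ := by
    intro x hx
    by_cases hxU : x ∈ U
    · right
      rintro (h1 | h1)
      · exact (Set.disjoint_left.1 hUV) hxU h1
      · exact hx h1
    · exact Or.inl hxU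
  obtain ⟨ψ, hψ1, hψ2⟩ := j24205_ext (C.N k Uᶜ) (C.N k (V1 ∪ W)ᶜ) φ.1 (fun c h1 h2 =>
    hφ c (C.N_mono hsub (C.N_union h1 h2)))
  have hψD : ψ ∈ C.D k := fun c hc => hψ1 c (C.N_mono (subset_univ _) hc)
  refine ⟨⟨ψ, hψD⟩, ⟨U, hU, hAU, hψ1⟩, φ - ⟨ψ, hψD⟩, ⟨V1 ∪ W, hV, hBV, fun c hc => ?_⟩, ?_⟩
  · show φ.1 c - ψ c = 0
    rw [hψ2 c hc, sub_self]
  · abel

/-- the dual complex -/
def dual [CompletelyNormalSpace X] [T4Space X] : HC X where
  T k := C.D k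
  d k := (C.bd k).toAddMonoidHom
  Z k A := (C.Z k A).toAddSubgroup
  d_Z := by
    rintro k A φ ⟨U, hU, hAU, h⟩
    exact ⟨U, hU, hAU, fun c hc => h _ (C.dl_N hc)⟩
  dd := by
    intro k φ
    apply Subtype.ext
    apply LinearMap.ext
    intro c
    change φ.1 (C.dl (k + 1) (C.dl k c)) = 0
    rw [C.dd, map_zero]
  mono := by
    rintro k A B hAB φ ⟨U, hU, hBU, h⟩
    exact ⟨U, hU, hAB.trans hBU, h⟩
  union := fun k A B _ _ φ h1 h2 => C.Z_union h1 h2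
  inter := fun k A B hA hB φ h => C.Z_inter hA hB h
  nhd := by
    rintro k A _ φ ⟨U, hU, hAU, h⟩
    exact ⟨U, hU, hAU, fun B hB => ⟨U, hU, hB, h⟩⟩
  empty := by
    intro k φ
    refine ⟨∅, isOpen_empty, subset_rfl, fun c hc => φ.2 c ?_⟩
    rwa [compl_empty] at hc

/-- a functional which kills the cocycles with support in `V` is a boundary near `V` -/
theorem ext_bd {k : ℕ} {V : Set X} (φ : C.D k)
    (h : ∀ b ∈ C.N k Vᶜ, C.dl k b ∈ C.N (k + 1) univ → φ.1 b = 0) :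
    ∃ ψ : C.D (k + 1), ∀ c ∈ C.N k Vᶜ, (φ - C.bd k ψ).1 c = 0 := by
  let g : (C.N k Vᶜ) →ₗ[F2] ((C.S (k + 1) → F2) ⧸ (C.N (k + 1) univ)) :=
    ((C.N (k + 1) univ).mkQ.comp (C.dl k)).comp (C.N k Vᶜ).subtype
  let f : (C.N k Vᶜ) →ₗ[F2] F2 := φ.1.comp (C.N k Vᶜ).subtype
  have hker : LinearMap.ker g ≤ LinearMap.ker f := by
    intro b hb
    rw [LinearMap.mem_ker] at hb ⊢
    have h1 : (C.N (k + 1) univ).mkQ (C.dl k (b : C.S k → F2)) = 0 := hb
    rw [Submodule.mkQ_apply, Submodule.Quotient.mk_eq_zero] at h1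
    exact h b b.2 h1
  let ψ1 : LinearMap.range g →ₗ[F2] F2 :=
    ((LinearMap.ker g).liftQ f hker).comp (g.quotKerEquivRange.symm : _ →ₗ[F2] _)
  obtain ⟨ψ0, hψ0⟩ := LinearMap.exists_extend ψ1
  have hkey : ∀ b : C.N k Vᶜ, ψ0 (g b) = f b := by
    intro b
    have h1 := LinearMap.congr_fun hψ0 ⟨g b, LinearMap.mem_range_self g b⟩
    have h2 : g.quotKerEquivRange.symm ⟨g b, LinearMap.mem_range_self g b⟩
        = (LinearMap.ker g).mkQ b := by
      rw [LinearEquiv.symm_apply_eq]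
      rfl
    have h3 : ψ1 ⟨g b, LinearMap.mem_range_self g b⟩ = f b := by
      change (LinearMap.ker g).liftQ f hker
        (g.quotKerEquivRange.symm ⟨g b, LinearMap.mem_range_self g b⟩) = f b
      rw [h2]
      rfl
    rw [h3] at h1
    exact h1
  refine ⟨⟨ψ0.comp (C.N (k + 1) univ).mkQ, ?_⟩, ?_⟩
  · intro c hc
    have h1 : (C.N (k + 1) univ).mkQ c = 0 := by
      rw [Submodule.mkQ_apply, Submodule.Quotient.mk_eq_zero]
      exact hc
    rw [LinearMap.comp_apply, h1, map_zero]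
  · intro c hc
    have h1 := hkey ⟨c, hc⟩
    change φ.1 c - ψ0 ((C.N (k + 1) univ).mkQ (C.dl k c)) = 0
    rw [sub_eq_zero]
    exact h1.symm

end CC

end Pool.Agent.Helper158.PD
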