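import Pool.Agent.Helper158.PD.Sg

/-! Relative cohomology of pairs in terms of supports. -/

set_option autoImplicit false
set_option linter.unusedVariables false


namespace Pool.Agent.Helper158.PD

open Set Topology

universe u v

variable {X : Type u} [TopologicalSpace X]

/-- total cochains which vanish near `A` -/
noncomputable abbrev NT (A : Set X) : Submodule F2 (TS X → F2) := (Tot X).N 0 A

/-- the pair `(K, L)` has trivial cohomology -/
def RAcy (K L : Set X) : Prop :=
  ∀ b ∈ NT L, tdl b ∈ NT K → ∃ b' ∈ NT L, b - tdl b' ∈ NT K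

/-- the cohomology of the pair `(K, L)` is one-dimensional, generated by the class of `a` in
degree `p` -/
def RSph (K L : Set X) (p : ℕ) (a : Co X p) : Prop :=
  inc p a ∈ NT L ∧ tdl (inc p a) ∈ NT K ∧ (∀ b' ∈ NT L, inc p a - tdl b' ∉ NT K) ∧
    ∀ b ∈ NT L, tdl b ∈ NT K → ∃ r : F2, ∃ b' ∈ NT L, b - r • inc p a - tdl b' ∈ NT K

theorem tdl_NT {A : Set X} {b : TS X → F2} (h : b ∈ NT A) : tdl b ∈ NT A :=
  (Tot X).dl_N (k := 0) h

theorem racy_exc [CompletelyNormalSpace X] {K L : Set X} (hK : IsClosed K) (hL : IsClosed L)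
    (h : RAcy K (K ∩ L)) : RAcy (K ∪ L) L := by
  intro b hb hd
  obtain ⟨b', hb', h1⟩ := h b ((Tot X).N_mono inter_subset_right hb)
    ((Tot X).N_mono subset_union_left hd)
  obtain ⟨b1, hb1, b2, hb2, rfl⟩ := (Tot X).N_inter_closed hK hL hb'
  refine ⟨b2, hb2, (Tot X).N_union ?_ ?_⟩
  · have e : b - tdl b2 = (b - tdl (b1 + b2)) + tdl b1 := by
      rw [map_add]
      abel
    rw [e]
    exact Submodule.add_mem _ h1 (tdl_NT hb1)
  · exact Submodule.sub_mem _ hb (tdl_NT hb2)

theorem rsph_exc [CompletelyNormalSpace X] {K L : Set X} (hK : IsClosed K) (hL : IsClosed L)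
    {p : ℕ} {a : Co X p} (h : RSph K (K ∩ L) p a) : ∃ a' : Co X p, RSph (K ∪ L) L p a' := by
  obtain ⟨h1, h2, h3, h4⟩ := h
  have ha : a ∈ (Gr X).N p (K ∩ L) := by
    have := cp_mem_N (p := p) h1
    rwa [cp_inc] at this
  obtain ⟨a1, ha1, a2, ha2, rfl⟩ := (Gr X).N_inter_closed hK hL ha
  have i1 : inc p a1 ∈ NT K := inc_mem_N ha1
  have i2 : inc p a2 ∈ NT L := inc_mem_N ha2
  rw [map_add] at h1 h2
  simp only [map_add] at h3 h4
  refine ⟨a2, i2, (Tot X).N_union ?_ (tdl_NT i2), ?_, ?_⟩
  · have e : tdl (inc p a2) = tdl (inc p a1 + inc p a2) - tdl (inc p a1) := by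
      rw [map_add]
      abel
    rw [e]
    exact Submodule.sub_mem _ h2 (tdl_NT i1)
  · intro b' hb' hc
    apply h3 b' ((Tot X).N_mono inter_subset_right hb')
    have e : inc p a1 + inc p a2 - tdl b' = inc p a1 + (inc p a2 - tdl b') := by abel
    rw [e]
    exact Submodule.add_mem _ i1 ((Tot X).N_mono subset_union_left hc)
  · intro b hb hd
    obtain ⟨r, b', hb', h5⟩ := h4 b ((Tot X).N_mono inter_subset_right hb)
      ((Tot X).N_mono subset_union_left hd)
    obtain ⟨b1, hb1, b2, hb2, rfl⟩ := (Tot X).N_inter_closed hK hL hb'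
    refine ⟨r, b2, hb2, (Tot X).N_union ?_ ?_⟩
    · have e : b - r • inc p a2 - tdl b2 =
          (b - r • (inc p a1 + inc p a2) - tdl (b1 + b2)) + r • inc p a1 + tdl b1 := by
        rw [map_add, smul_add]
        abel
      rw [e]
      exact Submodule.add_mem _ (Submodule.add_mem _ (by simpa only [map_add] using h5)
        (Submodule.smul_mem _ _ i1)) (tdl_NT hb1)
    · exact Submodule.sub_mem _ (Submodule.sub_mem _ hb (Submodule.smul_mem _ _ i2)) (tdl_NT hb2)

theorem racy_triple {K L1 L2 : Set X} (h1 : L1 ⊆ L2) (h2 : L2 ⊆ K) (hK : RAcy K L1)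
    (hL : RAcy L2 L1) : RAcy K L2 := by
  intro b hb hdb
  obtain ⟨c, hc, hν⟩ := hK b ((Tot X).N_mono h1 hb) hdb
  have htc : tdl c ∈ NT L2 := by
    have h3 := sub_mem hb ((Tot X).N_mono h2 hν)
    rwa [sub_sub_cancel] at h3
  obtain ⟨e, he, hν2⟩ := hL c hc htc
  refine ⟨c - tdl e, hν2, ?_⟩
  rw [map_sub, tdl_tdl, sub_zero]
  exact hν

theorem rsph_conn {K L1 L2 : Set X} (h1 : L1 ⊆ L2) (h2 : L2 ⊆ K) (hK : RAcy K L1)
    {p : ℕ} {a : Co X p} (hL : RSph L2 L1 p a) : RSph K L2 (p + 1) (dl p a) := by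
  obtain ⟨ha, hda, hne, hsp⟩ := hL
  refine ⟨?_, ?_, ?_, ?_⟩
  · rw [← tdl_inc]; exact hda
  · rw [← tdl_inc, tdl_tdl]; exact zero_mem _
  · intro b' hb' hmem
    rw [← tdl_inc, ← map_sub] at hmem
    obtain ⟨c, hc, hν⟩ := hK _ (sub_mem ha ((Tot X).N_mono h1 hb')) hmem
    apply hne c hc
    have h3 := add_mem ((Tot X).N_mono h2 hν) hb'
    have e : inc p a - b' - tdl c + b' = inc p a - tdl c := by abel
    rwa [e] at h3
  · intro b hb hdb
    obtain ⟨c, hc, hν⟩ := hK b ((Tot X).N_mono h1 hb) hdb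
    have htc : tdl c ∈ NT L2 := by
      have h3 := sub_mem hb ((Tot X).N_mono h2 hν)
      rwa [sub_sub_cancel] at h3
    obtain ⟨r, e, he, hν2⟩ := hsp c hc htc
    refine ⟨r, c - r • inc p a - tdl e, hν2, ?_⟩
    rw [map_sub, map_sub, tdl_tdl, sub_zero, map_smul, tdl_inc]
    have e : b - r • inc (p + 1) (dl p a) - (tdl c - r • inc (p + 1) (dl p a)) = b - tdl c := by
      abel
    rw [e]
    exact hν

/-- a generator for a smaller open set is a generator for a larger one -/
theorem rsph_shrink {V V' : Set X} (hV : V' ⊆ V) (h : RAcy V'ᶜ Vᶜ) {p : ℕ} {a w : Co X p}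
    (h1 : RSph univ Vᶜ p a) (h2 : RSph univ V'ᶜ p w) : RSph univ Vᶜ p w := by
  have hle : (NT V'ᶜ : Submodule F2 (TS X → F2)) ≤ NT Vᶜ :=
    (Tot X).N_mono (compl_subset_compl.2 hV)
  have hu : (NT univ : Submodule F2 (TS X → F2)) ≤ NT V'ᶜ := (Tot X).N_mono (subset_univ _)
  have h3 : ∀ b' ∈ NT Vᶜ, inc p w - tdl b' ∉ NT univ := by
    intro b' hb' hmem
    have e1 : tdl b' ∈ NT V'ᶜ := by
      have := Submodule.sub_mem _ h2.1 (hu hmem)
      rwa [sub_sub_cancel] at this
    obtain ⟨e, he, hν⟩ := h b' hb' e1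
    apply h2.2.2.1 (b' - tdl e) hν
    rw [map_sub, tdl_tdl, sub_zero]
    exact hmem
  refine ⟨hle h2.1, h2.2.1, h3, ?_⟩
  intro b hb htb
  obtain ⟨r, b1, hb1, h4⟩ := h1.2.2.2 b hb htb
  obtain ⟨r', b2, hb2, h5⟩ := h1.2.2.2 (inc p w) (hle h2.1) h2.2.1
  have hr' : r' = 0 ∨ r' = 1 := by
    revert r'
    intro r' _
    fin_cases r'
    · left; rfl
    · right; rfl
  rcases hr' with rfl | rfl
  · exfalso
    rw [zero_smul, sub_zero] at h5
    exact h3 b2 hb2 h5
  · refine ⟨r, b1 - r • b2, Submodule.sub_mem _ hb1 (Submodule.smul_mem _ _ hb2), ?_⟩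
    have e2 := Submodule.sub_mem _ h4 (Submodule.smul_mem _ r h5)
    have e3 : b - r • inc p w - tdl (b1 - r • b2) =
        b - r • inc p a - tdl b1 - r • (inc p w - (1:F2) • inc p a - tdl b2) := by
      rw [map_sub, map_smul]
      module
    rw [e3]
    exact e2

/-- comparison through an intermediate open set -/
theorem rsph_between {V V' V'' : Set X} (hV : V' ⊆ V) (hV' : V'' ⊆ V') {p : ℕ} {a w w' w'' : Co X p}
    (h1 : RSph univ Vᶜ p a) (h2 : RSph univ V'ᶜ p w') (h3 : RSph univ V''ᶜ p w'')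
    (h4 : RSph univ Vᶜ p w'') : RSph univ Vᶜ p w' := by
  have hle : (NT V'ᶜ : Submodule F2 (TS X → F2)) ≤ NT Vᶜ :=
    (Tot X).N_mono (compl_subset_compl.2 hV)
  have hle' : (NT V''ᶜ : Submodule F2 (TS X → F2)) ≤ NT V'ᶜ :=
    (Tot X).N_mono (compl_subset_compl.2 hV')
  obtain ⟨r0, b', hb', h5⟩ := h2.2.2.2 (inc p w'') (hle' h3.1) h3.2.1
  have hr0 : r0 = 0 ∨ r0 = 1 := by
    revert r0
    intro r0 _
    fin_cases r0
    · left; rfl
    · right; rfl
  rcases hr0 with rfl | rfl
  · exfalso
    rw [zero_smul, sub_zero] at h5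
    exact h4.2.2.1 b' (hle hb') h5
  · refine ⟨hle h2.1, h2.2.1, ?_, ?_⟩
    · intro c hc hmem
      apply h4.2.2.1 (b' + c) (Submodule.add_mem _ (hle hb') hc)
      have e1 := Submodule.add_mem _ h5 hmem
      have e2 : inc p w'' - tdl (b' + c) =
          inc p w'' - (1:F2) • inc p w' - tdl b' + (inc p w' - tdl c) := by
        rw [map_add]
        module
      rw [e2]
      exact e1
    · intro b hb htb
      obtain ⟨r, c, hc, h6⟩ := h4.2.2.2 b hb htb
      refine ⟨r, c + r • b', Submodule.add_mem _ hc (Submodule.smul_mem _ _ (hle hb')), ?_⟩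
      have e1 := Submodule.add_mem _ h6 (Submodule.smul_mem _ r h5)
      have e2 : b - r • inc p w' - tdl (c + r • b') =
          b - r • inc p w'' - tdl c + r • (inc p w'' - (1:F2) • inc p w' - tdl b') := by
        rw [map_add, map_smul]
        module
      rw [e2]
      exact e1

/-- the constant cochain `1` -/
noncomputable def one : TS X → F2 := inc 0 (fun _ => 1)

theorem tdl_one : tdl (one : TS X → F2) = 0 := by
  rw [one, tdl_inc]
  have : dl 0 (fun _ => 1 : Co X 0) = 0 := by
    funext σ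
    rw [dl_apply]
    change (∑ i : Fin 2, (1 : F2)) = 0
    decide
  rw [this, map_zero]

/-- the cohomology of `K` is that of a point -/
def CAcy (K : Set X) : Prop :=
  ∀ a : TS X → F2, tdl a ∈ NT K → ∃ r : F2, ∃ a' : TS X → F2, a - r • one - tdl a' ∈ NT K

/-- a total cochain vanishing near a point vanishes on the constant simplex -/
theorem eval_zero_24584 {K : Set X} {c : TS X → F2} (hc : c ∈ NT K) {x : X} (hx : x ∈ K) :
    c ⟨0, ContinuousMap.const _ x⟩ = 0 := by
  obtain ⟨U, _, hxU, h1⟩ := hc x hx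
  apply h1
  rintro _ ⟨y, rfl⟩
  exact hxU

theorem one_eval_24584 (x : X) :
    (one : TS X → F2) ⟨0, ContinuousMap.const _ x⟩ = 1 :=
  congrFun (cp_inc (X := X) 0 (fun _ => 1)) (ContinuousMap.const _ x)

theorem tdl_eval_24584 (c : TS X → F2) (x : X) :
    (tdl c) ⟨0, ContinuousMap.const _ x⟩ = 0 :=
  congrFun (cp_tdl_zero c) (ContinuousMap.const _ x)

/-- a nonempty set with the cohomology of a point -/
theorem rsph_of_cacy {K : Set X} (hne : K.Nonempty) (h : CAcy K) :
    RSph K ∅ 0 (fun _ => 1) := by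
  refine ⟨(Tot X).N_empty 0 _, ?_, ?_, ?_⟩
  · have h1 : tdl (inc 0 (fun _ => 1 : Co X 0)) = 0 := tdl_one
    rw [h1]
    exact Submodule.zero_mem _
  · intro b' _ hb
    obtain ⟨x, hx⟩ := hne
    have h1 := eval_zero_24584 hb hx
    have h2 := one_eval_24584 x
    have h3 := tdl_eval_24584 b' x
    rw [Pi.sub_apply] at h1
    have h4 : (inc 0 (fun _ => 1 : Co X 0)) ⟨0, ContinuousMap.const _ x⟩ = 1 := h2
    rw [h4, h3, sub_zero] at h1
    exact one_ne_zero h1
  · intro b _ hb
    obtain ⟨r, a', ha⟩ := h b hb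
    exact ⟨r, a', (Tot X).N_empty 0 _, ha⟩

theorem racy_of_cacy {K L : Set X} (hL : L ⊆ K) (hne : L.Nonempty) (h1 : CAcy K) (h2 : CAcy L) :
    RAcy K L := by
  intro b hb hdb
  obtain ⟨r, a', ha⟩ := h1 b hdb
  have haL : b - r • one - tdl a' ∈ NT L := (Tot X).N_mono hL ha
  have hr : r = 0 := by
    obtain ⟨x, hx⟩ := hne
    have e1 := eval_zero_24584 haL hx
    have e2 := eval_zero_24584 hb hx
    rw [Pi.sub_apply, Pi.sub_apply, Pi.smul_apply, e2, one_eval_24584, tdl_eval_24584,
      smul_eq_mul, mul_one, sub_zero, zero_sub, neg_eq_zero] at e1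
    exact e1
  rw [hr, zero_smul, sub_zero] at ha haL
  have hda : tdl a' ∈ NT L := by
    have h3 := Submodule.sub_mem _ hb haL
    rwa [sub_sub_cancel] at h3
  obtain ⟨r', a'', ha''⟩ := h2 a' hda
  refine ⟨a' - r' • one - tdl a'', ha'', ?_⟩
  have h4 : tdl (a' - r' • one - tdl a'') = tdl a' := by
    rw [map_sub, map_sub, map_smul, tdl_one, tdl_tdl, smul_zero, sub_zero, sub_zero]
  rw [h4]
  exact ha

/-- the part of `X` with coordinates in `A` -/
def BX {n : ℕ} (e : OpenPartialHomeomorph X (Fin n → ℝ)) (A : Set (Fin n → ℝ)) : Set X :=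
  e.source ∩ e ⁻¹' A

/-- union of facets of a box -/
def Lf {n : ℕ} (l u : Fin n → ℝ) (J : Finset (Fin n × Bool)) : Set (Fin n → ℝ) :=
  {y | y ∈ Icc l u ∧ ∃ q ∈ J, y q.1 = if q.2 then u q.1 else l q.1}

theorem BX_mono {n : ℕ} (e : OpenPartialHomeomorph X (Fin n → ℝ)) {A B : Set (Fin n → ℝ)}
    (h : A ⊆ B) : BX e A ⊆ BX e B := fun _ hx => ⟨hx.1, h hx.2⟩

theorem BX_compact {n : ℕ} (e : OpenPartialHomeomorph X (Fin n → ℝ)) {A : Set (Fin n → ℝ)}
    (hA : IsCompact A) (h : A ⊆ e.target) : IsCompact (BX e A) := by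
  have h1 : BX e A = e.symm '' A := (e.symm_image_eq_source_inter_preimage h).symm
  rw [h1]
  exact hA.image_of_continuousOn (e.continuousOn_symm.mono h)

theorem BX_open {n : ℕ} (e : OpenPartialHomeomorph X (Fin n → ℝ)) {A : Set (Fin n → ℝ)}
    (hA : IsOpen A) : IsOpen (BX e A) :=
  e.continuousOn.isOpen_inter_preimage e.open_source hA

set_option linter.unusedVariables false




/-! Abstract complexes with supports and the bootstrap principle on compact spaces. -/


/-- extension of germs of cocycles (small simplices) -/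
theorem ss_ext {B : Set X} (hB : IsOpen B) (a : TS X → F2) (ha : tdl a ∈ NT B) :
    ∃ a' : TS X → F2, (∀ s : TS X, range s.2 ⊆ B → tdl a' s = 0) ∧ a' - a ∈ NT B := by
  classical
  let ι : C(B, X) := ⟨Subtype.val, continuous_subtype_val⟩
  let 𝒞 : Set (Set B) := {U | IsOpen U ∧ ∀ (p : ℕ) (τ : Pool.Agent.Helper922.HB.Sc.Sing B p), range τ ⊆ U →
    tdl a ⟨p, ι.comp τ⟩ = 0}
  have hopen : ∀ C ∈ 𝒞, IsOpen C := fun C h => h.1
  have hmem : ∀ U : Set X, IsOpen U → (∀ s : TS X, range s.2 ⊆ U → tdl a s = 0) →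
      (Subtype.val ⁻¹' U : Set B) ∈ 𝒞 := by
    intro U hU h1
    refine ⟨hU.preimage continuous_subtype_val, fun p τ hτ => h1 ⟨p, ι.comp τ⟩ ?_⟩
    rintro _ ⟨x, rfl⟩
    exact hτ ⟨x, rfl⟩
  have hcov : ∀ x : B, ∃ C ∈ 𝒞, x ∈ C := by
    intro x
    obtain ⟨U, hU, hxU, h1⟩ := ha x x.2
    exact ⟨_, hmem U hU h1, hxU⟩
  let aB : ∀ p, Pool.Agent.Helper922.HB.Sc.Sing B p → F2 := fun p τ => a ⟨p, ι.comp τ⟩
  let bB : ∀ p, Pool.Agent.Helper922.HB.Sc.Sing B p → F2 := fun p τ => Pool.Agent.Helper922.HB.Sc.evc (aB p)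
    (Pool.Agent.Helper922.HB.Sc.rho 𝒞 p (Finsupp.single τ 1))
  have key : ∀ p (τ : Pool.Agent.Helper922.HB.Sc.Sing B (p + 1)), dl p (bB p) τ = 0 := by
    intro p τ
    change Pool.Agent.Helper922.HB.Sc.altd F2 (Pool.Agent.Helper922.HB.Sc.sface (X := B)) p (bB p) τ = 0
    rw [Pool.Agent.Helper922.HB.Sc.altd_eq_ev]
    have h1 : Finsupp.linearCombination ℤ (bB p) =
        (Pool.Agent.Helper922.HB.Sc.evc (aB p)).comp (Pool.Agent.Helper922.HB.Sc.rho 𝒞 p) := by
      apply Finsupp.lhom_ext'
      intro σ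
      apply LinearMap.ext_ring
      simp only [LinearMap.comp_apply, Finsupp.lsingle_apply, Finsupp.linearCombination_single,
        one_smul]
      rfl
    rw [h1, LinearMap.comp_apply, ← Pool.Agent.Helper922.HB.Sc.sbd_rho,
      ← Pool.Agent.Helper922.HB.Sc.ev_altd]
    have h2 := Pool.Agent.Helper922.HB.Sc.evc_congr
      (Pool.Agent.Helper922.HB.Sc.smallSet 𝒞 (p + 1)) (Pool.Agent.Helper922.HB.Sc.altd F2 (Pool.Agent.Helper922.HB.Sc.sface (X := B)) p (aB p)) 0 (by
        rintro σ ⟨C, hC, hσ⟩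
        exact hC.2 (p + 1) σ hσ) _
        (Pool.Agent.Helper922.HB.Sc.rho_small 𝒞 hopen hcov (p + 1) (Finsupp.single τ 1))
    refine h2.trans ?_
    simp [Pool.Agent.Helper922.HB.Sc.evc]
  let cores : ∀ (p : ℕ) (σ : Pool.Agent.Helper922.HB.Sc.Sing X p), range σ ⊆ B → Pool.Agent.Helper922.HB.Sc.Sing B p := fun p σ h =>
    ⟨fun x => ⟨σ x, h ⟨x, rfl⟩⟩, Continuous.subtype_mk σ.continuous _⟩
  refine ⟨fun s => if h : range s.2 ⊆ B then bB s.1 (cores s.1 s.2 h) else 0, ?_, ?_⟩
  · rintro ⟨p, σ⟩ hσ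
    cases p with
    | zero => rfl
    | succ p =>
      change dl p (cp p _) σ = 0
      rw [dl_apply]
      have h3 := key p (cores (p + 1) σ hσ)
      rw [dl_apply] at h3
      refine Eq.trans (Finset.sum_congr rfl fun i _ => ?_) h3
      have h4 : range (Pool.Agent.Helper922.HB.Sc.sface p i σ) ⊆ B := (range_sface p i σ).trans hσ
      change (if h : range (Pool.Agent.Helper922.HB.Sc.sface p i σ) ⊆ B then bB p (cores p (Pool.Agent.Helper922.HB.Sc.sface p i σ) h) else 0) = _
      rw [dif_pos h4]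
      rfl
  · intro x hx
    obtain ⟨U, hU, hxU, h1⟩ := ha x hx
    refine ⟨U ∩ B, hU.inter hB, ⟨hxU, hx⟩, ?_⟩
    rintro ⟨p, σ⟩ hs
    have hsB : range σ ⊆ B := hs.trans inter_subset_right
    have hsU : range σ ⊆ U := hs.trans inter_subset_left
    change (if h : range σ ⊆ B then bB p (cores p σ h) else 0) - a ⟨p, σ⟩ = 0
    rw [dif_pos hsB]
    have h5 : cores p σ hsB ∈ Pool.Agent.Helper922.HB.Sc.smallSet 𝒞 p := by
      refine ⟨_, hmem U hU h1, ?_⟩
      rintro _ ⟨y, rfl⟩
      exact hsU ⟨y, rfl⟩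
    change Pool.Agent.Helper922.HB.Sc.evc (aB p)
      (Pool.Agent.Helper922.HB.Sc.rho 𝒞 p (Finsupp.single (cores p σ hsB) 1)) - a ⟨p, σ⟩ = 0
    rw [Pool.Agent.Helper922.HB.Sc.rho_id 𝒞 p _
      (Pool.Agent.Helper922.HB.Sc.single_mem_supported' h5),
      Pool.Agent.Helper922.HB.Sc.evc_single]
    exact sub_self _

set_option linter.unusedVariables false




/-! Abstract complexes with supports and the bootstrap principle on compact spaces. -/


/-- locally zero cocycles are coboundaries of locally zero cochains (small simplices) -/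
theorem nt_univ_acyclic (b : TS X → F2) (hb : b ∈ NT univ) (h : tdl b = 0) :
    ∃ b' ∈ NT (univ : Set X), b = tdl b' := by
  classical
  set CC' : Set (Set X) := {U | IsOpen U ∧ ∀ s : TS X, range s.2 ⊆ U → b s = 0} with hCC
  have hopen : ∀ C ∈ CC', IsOpen C := fun C hC => hC.1
  have hcov : ∀ x : X, ∃ C ∈ CC', x ∈ C := by
    intro x
    obtain ⟨U, hU, hxU, h1⟩ := hb x (mem_univ x)
    exact ⟨U, ⟨hU, h1⟩, hxU⟩
  refine ⟨fun s => Pool.Agent.Helper922.HB.Sc.evc (cp (s.1 + 1) b)
    (Pool.Agent.Helper922.HB.Sc.DD CC' s.1 (Finsupp.single s.2 1)), ?_, ?_⟩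
  · intro x _
    obtain ⟨U, hU, hxU, h1⟩ := hb x (mem_univ x)
    refine ⟨U, hU, hxU, ?_⟩
    rintro ⟨p, σ⟩ hσ
    have hs : σ ∈ Pool.Agent.Helper922.HB.Sc.smallSet CC' p := ⟨U, ⟨hU, h1⟩, hσ⟩
    show Pool.Agent.Helper922.HB.Sc.evc (cp (p + 1) b)
      (Pool.Agent.Helper922.HB.Sc.DD CC' p (Finsupp.single σ 1)) = 0
    rw [Pool.Agent.Helper922.HB.Sc.DD_single, Pool.Agent.Helper922.HB.Sc.mm_small CC' σ hs,
      Finset.range_zero, Finset.sum_empty, map_zero]
  · funext ⟨p, σ⟩
    cases p with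
    | zero =>
      obtain ⟨C, hC, hx⟩ := hcov (σ (Pool.Agent.Helper922.HB.Sc.vert 0 0))
      refine hC.2 ⟨0, σ⟩ ?_
      rintro _ ⟨x, rfl⟩
      have : x = Pool.Agent.Helper922.HB.Sc.vert 0 0 :=
        Subsingleton.elim (α := stdSimplex ℝ (Fin 1)) _ _
      rw [this]
      exact hx
    | succ p =>
      have h1 : Finsupp.linearCombination ℤ (fun τ : Pool.Agent.Helper922.HB.Sc.Sing X p =>
          Pool.Agent.Helper922.HB.Sc.evc (cp (p + 1) b)
            (Pool.Agent.Helper922.HB.Sc.DD CC' p (Finsupp.single τ 1))) =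
          (Pool.Agent.Helper922.HB.Sc.evc (cp (p + 1) b)).comp
            (Pool.Agent.Helper922.HB.Sc.DD CC' p) := by
        apply Finsupp.lhom_ext'
        intro τ
        apply LinearMap.ext_ring
        simp only [LinearMap.comp_apply, Finsupp.lsingle_apply, Finsupp.linearCombination_single,
          one_smul]
      have h2 : b ⟨p + 1, σ⟩ = Pool.Agent.Helper922.HB.Sc.evc (cp (p + 1) b)
            (Pool.Agent.Helper922.HB.Sc.rho CC' (p + 1) (Finsupp.single σ 1)) +
          Pool.Agent.Helper922.HB.Sc.evc (cp (p + 1) b)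
            (Pool.Agent.Helper922.HB.Sc.sbd X (p + 1)
              (Pool.Agent.Helper922.HB.Sc.DD CC' (p + 1) (Finsupp.single σ 1))) +
          Pool.Agent.Helper922.HB.Sc.evc (cp (p + 1) b)
            (Pool.Agent.Helper922.HB.Sc.DD CC' p
              (Pool.Agent.Helper922.HB.Sc.sbd X p (Finsupp.single σ 1))) := by
        rw [Pool.Agent.Helper922.HB.Sc.rho_succ, map_sub, map_sub,
          Pool.Agent.Helper922.HB.Sc.evc_single]
        show b ⟨p + 1, σ⟩ = b ⟨p + 1, σ⟩ - _ - _ + _ + _
        ring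
      have h3 : Pool.Agent.Helper922.HB.Sc.evc (cp (p + 1) b)
            (Pool.Agent.Helper922.HB.Sc.sbd X (p + 1)
              (Pool.Agent.Helper922.HB.Sc.DD CC' (p + 1) (Finsupp.single σ 1))) = 0 := by
        rw [← Pool.Agent.Helper922.HB.Sc.ev_altd]
        have h4 : Pool.Agent.Helper922.HB.Sc.altd F2
            (Pool.Agent.Helper922.HB.Sc.sface (X := X)) (p + 1) (cp (p + 1) b) = 0 := by
          have h5 := cp_tdl_succ (p + 1) b
          rw [h, map_zero] at h5
          exact h5.symm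
        rw [h4]
        simp
      have h4 : Pool.Agent.Helper922.HB.Sc.evc (cp (p + 1) b)
            (Pool.Agent.Helper922.HB.Sc.rho CC' (p + 1) (Finsupp.single σ 1)) = 0 := by
        have h5 := Pool.Agent.Helper922.HB.Sc.evc_congr
          (Pool.Agent.Helper922.HB.Sc.smallSet CC' (p + 1)) (cp (p + 1) b) 0 (by
            rintro τ ⟨C, hC, hτ⟩
            exact hC.2 ⟨p + 1, τ⟩ hτ) _
          (Pool.Agent.Helper922.HB.Sc.rho_small CC' hopen hcov (p + 1) (Finsupp.single σ 1))
        refine h5.trans ?_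
        simp [Pool.Agent.Helper922.HB.Sc.evc]
      rw [h2, h3, h4, zero_add, zero_add]
      have h6 := Pool.Agent.Helper922.HB.Sc.altd_eq_ev (k := F2)
        (Pool.Agent.Helper922.HB.Sc.sface (X := X)) p
        (fun τ : Pool.Agent.Helper922.HB.Sc.Sing X p =>
          Pool.Agent.Helper922.HB.Sc.evc (cp (p + 1) b)
            (Pool.Agent.Helper922.HB.Sc.DD CC' p (Finsupp.single τ 1))) σ
      rw [h1, LinearMap.comp_apply] at h6
      exact h6.symm

theorem jc_map_apply {ι κ : Type} [Fintype ι] [Fintype κ] (f : ι → κ)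
    (hf : Function.Injective f) (s : stdSimplex ℝ ι) (x : ι) : stdSimplex.map f s (f x) = s x := by
  classical
  rw [stdSimplex.map_coe, FunOnFinite.linearMap_apply_apply]
  refine Finset.sum_eq_single_of_mem x (by simp) ?_
  intro y hy hne
  exact absurd (hf (by simpa using hy)) hne

theorem jc_map_zero {ι κ : Type} [Fintype ι] [Fintype κ] (f : ι → κ)
    (s : stdSimplex ℝ ι) (y : κ) (hy : ∀ x, f x ≠ y) : stdSimplex.map f s y = 0 := by
  classical
  rw [stdSimplex.map_coe, FunOnFinite.linearMap_apply_apply]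
  refine Finset.sum_eq_zero ?_
  intro x hx
  exact absurd (by simpa using hx) (hy x)

/-- normalised tail -/
noncomputable def jc_nt {p : ℕ} (t : stdSimplex ℝ (Fin (p + 2))) (h : t 0 ≠ 1) :
    stdSimplex ℝ (Fin (p + 1)) :=
  ⟨fun j => t j.succ / (1 - t 0), by
    have h1 : t 0 ≤ 1 := stdSimplex.le_one t 0
    have h2 : 0 < 1 - t 0 := by
      have : t 0 < 1 := lt_of_le_of_ne h1 h
      linarith
    refine ⟨fun j => div_nonneg (stdSimplex.zero_le t _) h2.le, ?_⟩
    rw [← Finset.sum_div]
    have h3 : ∑ j : Fin (p + 1), t j.succ = 1 - t 0 := by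
      have := stdSimplex.sum_eq_one t
      rw [Fin.sum_univ_succ] at this
      linarith
    rw [h3, div_self h2.ne']⟩

theorem jc_nt_apply {p : ℕ} (t : stdSimplex ℝ (Fin (p + 2))) (h : t 0 ≠ 1) (j : Fin (p + 1)) :
    jc_nt t h j = t j.succ / (1 - t 0) := rfl

open Classical in
/-- the cone in the chart -/
noncomputable def jc_G {p n : ℕ} (φ : C(stdSimplex ℝ (Fin (p + 1)), Fin n → ℝ)) (y : Fin n → ℝ)
    (t : stdSimplex ℝ (Fin (p + 2))) : Fin n → ℝ :=
  if h : t 0 = 1 then y else t 0 • y + (1 - t 0) • φ (jc_nt t h)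

theorem jc_G_one {p n : ℕ} (φ : C(stdSimplex ℝ (Fin (p + 1)), Fin n → ℝ)) (y : Fin n → ℝ)
    (t : stdSimplex ℝ (Fin (p + 2))) (h : t 0 = 1) : jc_G φ y t = y := by
  unfold jc_G
  rw [dif_pos h]

theorem jc_G_ne {p n : ℕ} (φ : C(stdSimplex ℝ (Fin (p + 1)), Fin n → ℝ)) (y : Fin n → ℝ)
    (t : stdSimplex ℝ (Fin (p + 2))) (h : t 0 ≠ 1) :
    jc_G φ y t = t 0 • y + (1 - t 0) • φ (jc_nt t h) := by
  unfold jc_G
  rw [dif_neg h]

theorem jc_G_cont {p n : ℕ} (φ : C(stdSimplex ℝ (Fin (p + 1)), Fin n → ℝ)) (y : Fin n → ℝ) :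
    Continuous (jc_G φ y) := by
  have ht0 : Continuous (fun t : stdSimplex ℝ (Fin (p + 2)) => t 0) :=
    (continuous_apply (0 : Fin (p + 2))).comp continuous_subtype_val
  rw [continuous_iff_continuousAt]
  intro t
  by_cases h : t 0 = 1
  · obtain ⟨M, hM⟩ := (isCompact_range (φ.continuous.sub
      (continuous_const (y := y))).norm).bddAbove
    have hM' : ∀ x, ‖φ x - y‖ ≤ M := fun x => hM ⟨x, rfl⟩
    have key : ∀ s, ‖jc_G φ y s - y‖ ≤ (1 - s 0) * M := by
      intro s
      by_cases hs : s 0 = 1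
      · rw [jc_G_one φ y s hs, hs, sub_self, sub_self, zero_mul, norm_zero]
      · rw [jc_G_ne φ y s hs]
        have e : s 0 • y + (1 - s 0) • φ (jc_nt s hs) - y = (1 - s 0) • (φ (jc_nt s hs) - y) := by
          module
        have h1 : 0 ≤ 1 - s 0 := by
          have := stdSimplex.le_one s 0
          linarith
        rw [e, norm_smul, Real.norm_eq_abs, abs_of_nonneg h1]
        exact mul_le_mul_of_nonneg_left (hM' _) h1
    have h2 : Filter.Tendsto (fun s : stdSimplex ℝ (Fin (p + 2)) => (1 - s 0) * M) (𝓝 t) (𝓝 0) := by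
      have h3 : Continuous (fun s : stdSimplex ℝ (Fin (p + 2)) => (1 - s 0) * M) :=
        (continuous_const.sub ht0).mul continuous_const
      have h4 := h3.tendsto t
      rwa [h, sub_self, zero_mul] at h4
    change Filter.Tendsto (jc_G φ y) (𝓝 t) (𝓝 (jc_G φ y t))
    rw [jc_G_one φ y t h, tendsto_iff_norm_sub_tendsto_zero]
    exact squeeze_zero (fun _ => norm_nonneg _) key h2
  · have hU : IsOpen {s : stdSimplex ℝ (Fin (p + 2)) | s 0 ≠ 1} :=
      isOpen_ne_fun ht0 continuous_const
    refine ContinuousOn.continuousAt (s := {s : stdSimplex ℝ (Fin (p + 2)) | s 0 ≠ 1}) ?_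
      (hU.mem_nhds h)
    rw [continuousOn_iff_continuous_domRestrict]
    have e : Set.domRestrict {s : stdSimplex ℝ (Fin (p + 2)) | s 0 ≠ 1} (jc_G φ y) =
        fun s => s.1 0 • y + (1 - s.1 0) • φ (jc_nt s.1 s.2) := by
      funext s
      exact jc_G_ne φ y s.1 s.2
    rw [e]
    have h0 : Continuous (fun s : {s : stdSimplex ℝ (Fin (p + 2)) | s 0 ≠ 1} => s.1 0) :=
      ht0.comp continuous_subtype_val
    have hn : Continuous (fun s : {s : stdSimplex ℝ (Fin (p + 2)) | s 0 ≠ 1} => jc_nt s.1 s.2) := by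
      refine Continuous.subtype_mk (continuous_pi fun j => ?_) _
      refine Continuous.div ?_ (continuous_const.sub h0) ?_
      · exact ((continuous_apply j.succ).comp continuous_subtype_val).comp continuous_subtype_val
      · intro s hs
        exact s.2 (sub_eq_zero.1 hs).symm
    exact (h0.smul continuous_const).add ((continuous_const.sub h0).smul (φ.continuous.comp hn))

theorem jc_G_mem {p n : ℕ} (φ : C(stdSimplex ℝ (Fin (p + 1)), Fin n → ℝ)) {y : Fin n → ℝ}
    {A : Set (Fin n → ℝ)} (hc : Convex ℝ A) (hy : y ∈ A) (hφ : ∀ x, φ x ∈ A)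
    (t : stdSimplex ℝ (Fin (p + 2))) : jc_G φ y t ∈ A := by
  by_cases h : t 0 = 1
  · rwa [jc_G_one φ y t h]
  · rw [jc_G_ne φ y t h]
    have h1 := stdSimplex.le_one t 0
    exact hc hy (hφ _) (stdSimplex.zero_le t 0) (by linarith) (by ring)

/-- the simplex in the chart -/
noncomputable def jc_phi {p n : ℕ} (e : OpenPartialHomeomorph X (Fin n → ℝ))
    {A : Set (Fin n → ℝ)} (σ : Pool.Agent.Helper922.HB.Sc.Sing X p) (hσ : range σ ⊆ BX e A) :
    C(stdSimplex ℝ (Fin (p + 1)), Fin n → ℝ) :=
  ⟨fun x => e (σ x), e.continuousOn.comp_continuous σ.continuous fun x => (hσ ⟨x, rfl⟩).1⟩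

theorem jc_phi_mem {p n : ℕ} (e : OpenPartialHomeomorph X (Fin n → ℝ))
    {A : Set (Fin n → ℝ)} (σ : Pool.Agent.Helper922.HB.Sc.Sing X p) (hσ : range σ ⊆ BX e A)
    (x : stdSimplex ℝ (Fin (p + 1))) : jc_phi e σ hσ x ∈ A := (hσ ⟨x, rfl⟩).2

/-- the cone of a simplex -/
noncomputable def jc_cone {p n : ℕ} (e : OpenPartialHomeomorph X (Fin n → ℝ))
    {A : Set (Fin n → ℝ)} (hc : Convex ℝ A) (h : A ⊆ e.target) {y : Fin n → ℝ} (hy : y ∈ A)
    (σ : Pool.Agent.Helper922.HB.Sc.Sing X p) (hσ : range σ ⊆ BX e A) : Pool.Agent.Helper922.HB.Sc.Sing X (p + 1) :=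
  ⟨fun t => e.symm (jc_G (jc_phi e σ hσ) y t),
    e.continuousOn_symm.comp_continuous (jc_G_cont _ _) fun t =>
      h (jc_G_mem _ hc hy (jc_phi_mem e σ hσ) t)⟩

theorem jc_cone_apply {p n : ℕ} (e : OpenPartialHomeomorph X (Fin n → ℝ))
    {A : Set (Fin n → ℝ)} (hc : Convex ℝ A) (h : A ⊆ e.target) {y : Fin n → ℝ} (hy : y ∈ A)
    (σ : Pool.Agent.Helper922.HB.Sc.Sing X p) (hσ : range σ ⊆ BX e A) (t : stdSimplex ℝ (Fin (p + 2))) :
    jc_cone e hc h hy σ hσ t = e.symm (jc_G (jc_phi e σ hσ) y t) := rfl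

theorem jc_cone_range {p n : ℕ} (e : OpenPartialHomeomorph X (Fin n → ℝ))
    {A : Set (Fin n → ℝ)} (hc : Convex ℝ A) (h : A ⊆ e.target) {y : Fin n → ℝ} (hy : y ∈ A)
    (σ : Pool.Agent.Helper922.HB.Sc.Sing X p) (hσ : range σ ⊆ BX e A) : range (jc_cone e hc h hy σ hσ) ⊆ BX e A := by
  rintro _ ⟨t, rfl⟩
  have h1 := jc_G_mem (jc_phi e σ hσ) hc hy (jc_phi_mem e σ hσ) t
  refine ⟨e.map_target (h h1), ?_⟩
  change e (e.symm (jc_G (jc_phi e σ hσ) y t)) ∈ A
  rw [e.right_inv (h h1)]
  exact h1

theorem jc_face0 {p n : ℕ} (e : OpenPartialHomeomorph X (Fin n → ℝ))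
    {A : Set (Fin n → ℝ)} (hc : Convex ℝ A) (h : A ⊆ e.target) {y : Fin n → ℝ} (hy : y ∈ A)
    (σ : Pool.Agent.Helper922.HB.Sc.Sing X p) (hσ : range σ ⊆ BX e A) : Pool.Agent.Helper922.HB.Sc.sface p 0 (jc_cone e hc h hy σ hσ) = σ := by
  refine ContinuousMap.ext fun x => ?_
  change e.symm (jc_G (jc_phi e σ hσ) y (stdSimplex.map (0 : Fin (p + 2)).succAbove x)) = σ x
  have h0 : stdSimplex.map (0 : Fin (p + 2)).succAbove x 0 = 0 :=
    jc_map_zero _ _ _ fun j => Fin.succAbove_ne 0 j
  have h1 : stdSimplex.map (0 : Fin (p + 2)).succAbove x 0 ≠ 1 := by rw [h0]; exact zero_ne_one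
  have h2 : jc_nt (stdSimplex.map (0 : Fin (p + 2)).succAbove x) h1 = x := by
    apply stdSimplex.ext
    funext j
    rw [jc_nt_apply, h0, sub_zero, div_one, ← Fin.succAbove_zero_apply]
    exact jc_map_apply _ Fin.succAbove_right_injective x j
  rw [jc_G_ne _ _ _ h1, h0, h2, zero_smul, zero_add, sub_zero, one_smul]
  exact e.left_inv (hσ ⟨x, rfl⟩).1

theorem jc_face_succ {p n : ℕ} (e : OpenPartialHomeomorph X (Fin n → ℝ))
    {A : Set (Fin n → ℝ)} (hc : Convex ℝ A) (h : A ⊆ e.target) {y : Fin n → ℝ} (hy : y ∈ A)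
    (σ : Pool.Agent.Helper922.HB.Sc.Sing X (p + 1)) (hσ : range σ ⊆ BX e A) (i : Fin (p + 2))
    (hσ' : range (Pool.Agent.Helper922.HB.Sc.sface p i σ) ⊆ BX e A) :
    Pool.Agent.Helper922.HB.Sc.sface (p + 1) i.succ (jc_cone e hc h hy σ hσ) = jc_cone e hc h hy (Pool.Agent.Helper922.HB.Sc.sface p i σ) hσ' := by
  refine ContinuousMap.ext fun x => ?_
  change e.symm (jc_G (jc_phi e σ hσ) y (stdSimplex.map i.succ.succAbove x)) =
    e.symm (jc_G (jc_phi e (Pool.Agent.Helper922.HB.Sc.sface p i σ) hσ') y x)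
  congr 1
  have h0 : stdSimplex.map i.succ.succAbove x 0 = x 0 := by
    have h1 := jc_map_apply i.succ.succAbove Fin.succAbove_right_injective x 0
    rwa [Fin.succ_succAbove_zero] at h1
  by_cases hx : x 0 = 1
  · rw [jc_G_one _ _ _ hx, jc_G_one _ _ _ (h0.trans hx)]
  · have hx' : stdSimplex.map i.succ.succAbove x 0 ≠ 1 := by rwa [h0]
    rw [jc_G_ne _ _ _ hx, jc_G_ne _ _ _ hx', h0]
    have h2 : jc_nt (stdSimplex.map i.succ.succAbove x) hx' =
        stdSimplex.map i.succAbove (jc_nt x hx) := by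
      apply stdSimplex.ext
      funext j
      rw [jc_nt_apply, h0]
      rcases Fin.eq_self_or_eq_succAbove i j with rfl | ⟨k, rfl⟩
      · rw [jc_map_zero j.succ.succAbove x _ (fun k => Fin.succAbove_ne _ k), zero_div]
        exact (jc_map_zero j.succAbove _ _ (fun k => Fin.succAbove_ne _ k)).symm
      · have h3 := jc_map_apply i.succ.succAbove Fin.succAbove_right_injective x k.succ
        rw [Fin.succ_succAbove_succ] at h3
        rw [h3]
        exact (jc_map_apply i.succAbove Fin.succAbove_right_injective (jc_nt x hx) k).symm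
    rw [h2]
    rfl

theorem jc_face_last {n : ℕ} (e : OpenPartialHomeomorph X (Fin n → ℝ))
    {A : Set (Fin n → ℝ)} (hc : Convex ℝ A) (h : A ⊆ e.target) {y : Fin n → ℝ} (hy : y ∈ A)
    (σ : Pool.Agent.Helper922.HB.Sc.Sing X 0) (hσ : range σ ⊆ BX e A) :
    Pool.Agent.Helper922.HB.Sc.sface 0 1 (jc_cone e hc h hy σ hσ) = ContinuousMap.const _ (e.symm y) := by
  refine ContinuousMap.ext fun x => ?_
  change e.symm (jc_G (jc_phi e σ hσ) y (stdSimplex.map (1 : Fin 2).succAbove x)) = e.symm y
  have h0 : stdSimplex.map (1 : Fin 2).succAbove x 0 = x 0 := by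
    have h1 := jc_map_apply (1 : Fin 2).succAbove Fin.succAbove_right_injective x 0
    have h2 : (1 : Fin 2).succAbove (0 : Fin 1) = 0 := by decide
    rwa [h2] at h1
  have h1 : x 0 = 1 := by
    have := stdSimplex.sum_eq_one x
    rwa [Fin.sum_univ_one] at this
  rw [jc_G_one _ _ _ (h0.trans h1)]

/-- open convex sets in a chart are acyclic -/
theorem contr {n : ℕ} (e : OpenPartialHomeomorph X (Fin n → ℝ)) {A : Set (Fin n → ℝ)}
    (hA : IsOpen A) (hc : Convex ℝ A) (hne : A.Nonempty) (h : A ⊆ e.target) (a : TS X → F2)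
    (ha : ∀ s : TS X, range s.2 ⊆ BX e A → tdl a s = 0) :
    ∃ r : F2, ∃ a' : TS X → F2, ∀ s : TS X, range s.2 ⊆ BX e A → a s = (r • (one : TS X → F2) + tdl a') s := by
  classical
  obtain ⟨y, hy⟩ := hne
  have hF : ∀ a b : F2, a + b = 0 → a = b := by decide
  refine ⟨a ⟨0, ContinuousMap.const _ (e.symm y)⟩,
    fun s => if hs : range s.2 ⊆ BX e A then a ⟨s.1 + 1, jc_cone e hc h hy s.2 hs⟩ else 0, ?_⟩
  rintro ⟨p, σ⟩ hσ
  have hσ0 : range σ ⊆ BX e A := hσ
  have h1 := ha ⟨p + 1, jc_cone e hc h hy σ hσ0⟩ (jc_cone_range e hc h hy σ hσ0)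
  change dl p (cp p a) (jc_cone e hc h hy σ hσ0) = 0 at h1
  rw [dl_apply, Fin.sum_univ_succ] at h1
  change a ⟨p, Pool.Agent.Helper922.HB.Sc.sface p 0 (jc_cone e hc h hy σ hσ0)⟩ +
    ∑ i : Fin (p + 1), a ⟨p, Pool.Agent.Helper922.HB.Sc.sface p i.succ (jc_cone e hc h hy σ hσ0)⟩ = 0 at h1
  rw [jc_face0] at h1
  have h2 := hF _ _ h1
  rw [h2]
  cases p with
  | zero =>
    rw [Fin.sum_univ_one]
    have e1 : (Fin.succ (0 : Fin 1)) = (1 : Fin 2) := rfl
    rw [e1, jc_face_last]
    change a ⟨0, ContinuousMap.const _ (e.symm y)⟩ =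
      a ⟨0, ContinuousMap.const _ (e.symm y)⟩ * (one : TS X → F2) ⟨0, σ⟩ + 0
    have e2 : (one : TS X → F2) ⟨0, σ⟩ = 1 := congrFun (cp_inc 0 (fun _ : Pool.Agent.Helper922.HB.Sc.Sing X 0 => (1 : F2))) σ
    rw [e2, mul_one, add_zero]
  | succ p =>
    have hface : ∀ i : Fin (p + 2), range (Pool.Agent.Helper922.HB.Sc.sface p i σ) ⊆ BX e A := fun i =>
      (range_sface p i σ).trans hσ0
    have e2 : (one : TS X → F2) ⟨p + 1, σ⟩ = 0 :=
      congrFun (cp_inc_ne (p := 0) (q := p + 1) (by omega) (fun _ : Pool.Agent.Helper922.HB.Sc.Sing X 0 => (1 : F2))) σ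
    change _ = a ⟨0, ContinuousMap.const _ (e.symm y)⟩ * (one : TS X → F2) ⟨p + 1, σ⟩ +
      dl p (cp p (fun s : TS X => if hs : range s.2 ⊆ BX e A then
        a ⟨s.1 + 1, jc_cone e hc h hy s.2 hs⟩ else 0)) σ
    rw [e2, mul_zero, zero_add, dl_apply]
    refine Finset.sum_congr rfl fun i _ => ?_
    change _ = (if hs : range (Pool.Agent.Helper922.HB.Sc.sface p i σ) ⊆ BX e A then
        a ⟨p + 1, jc_cone e hc h hy (Pool.Agent.Helper922.HB.Sc.sface p i σ) hs⟩ else 0)
    rw [dif_pos (hface i), jc_face_succ e hc h hy σ hσ0 i (hface i)]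

/-- convex compact sets in a chart have the cohomology of a point -/
theorem cacy_convex {n : ℕ} (e : OpenPartialHomeomorph X (Fin n → ℝ)) {A : Set (Fin n → ℝ)}
    (hA : IsCompact A) (hc : Convex ℝ A) (hne : A.Nonempty) (h : A ⊆ e.target) :
    CAcy (BX e A) := by
  intro a ha
  obtain ⟨U, hU, hAU, hUa⟩ := (Tot X).N_nhd ha
  have hO : IsOpen (e.target ∩ e.symm ⁻¹' U) := e.symm.isOpen_inter_preimage hU
  have hAO : A ⊆ e.target ∩ e.symm ⁻¹' U := by
    intro y hy
    refine ⟨h hy, hAU ⟨e.map_target (h hy), ?_⟩⟩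
    change e (e.symm y) ∈ A
    rw [e.right_inv (h hy)]
    exact hy
  obtain ⟨δ, hδ, hδO⟩ := hA.exists_thickening_subset_open hO hAO
  have hsub : A ⊆ Metric.thickening δ A := Metric.self_subset_thickening hδ A
  have hBU : BX e (Metric.thickening δ A) ⊆ U := by
    intro x hx
    have h1 := (hδO hx.2).2
    change e.symm (e x) ∈ U at h1
    rwa [e.left_inv hx.1] at h1
  have hBo : IsOpen (BX e (Metric.thickening δ A)) := BX_open e Metric.isOpen_thickening
  obtain ⟨a1, h1, h2⟩ := ss_ext hBo a ((Tot X).N_mono hBU hUa)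
  obtain ⟨r, a', h3⟩ := contr e Metric.isOpen_thickening (hc.thickening δ) (hne.mono hsub)
    (hδO.trans inter_subset_left) a1 h1
  refine ⟨r, a', ?_⟩
  intro x hx
  have hxB : x ∈ BX e (Metric.thickening δ A) := BX_mono e hsub hx
  obtain ⟨V, hV, hxV, h4⟩ := h2 x hxB
  refine ⟨V ∩ BX e (Metric.thickening δ A), hV.inter hBo, ⟨hxV, hxB⟩, fun s hs => ?_⟩
  have h5 := h4 s (hs.trans inter_subset_left)
  have h6 := h3 s (hs.trans inter_subset_right)
  rw [Pi.sub_apply, sub_eq_zero] at h5
  rw [h5] at h6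
  have h6 : a s = r * one s + tdl a' s := h6
  rw [Pi.sub_apply, Pi.sub_apply, h6, Pi.smul_apply, smul_eq_mul]
  ring

theorem box_acy_facet {n : ℕ} (l u : Fin n → ℝ) (i : Fin n) (c : ℝ) (h1 : l i ≤ c)
    (h2 : c ≤ u i) : {y | y ∈ Icc l u ∧ y i = c} =
      Icc (Function.update l i c) (Function.update u i c) := by
  ext y
  simp only [mem_ofPred_eq, mem_Icc, update_le_iff, le_update_iff]
  constructor
  · rintro ⟨⟨ha, hb⟩, hc⟩
    exact ⟨⟨hc.ge, fun k _ => ha k⟩, ⟨hc.le, fun k _ => hb k⟩⟩
  · rintro ⟨⟨ha, hb⟩, ⟨hc, hd⟩⟩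
    have h3 : y i = c := le_antisymm hc ha
    refine ⟨⟨fun k => ?_, fun k => ?_⟩, h3⟩
    · by_cases hk : k = i
      · subst hk; rw [h3]; exact h1
      · exact hb k hk
    · by_cases hk : k = i
      · subst hk; rw [h3]; exact h2
      · exact hd k hk

theorem box_acy_Lf_compact {n : ℕ} (l u : Fin n → ℝ) (J : Finset (Fin n × Bool)) :
    IsCompact (Lf l u J) := by
  have h : Lf l u J = Icc l u ∩
      ⋃ q ∈ J, {y : Fin n → ℝ | y q.1 = if q.2 then u q.1 else l q.1} := by
    ext y
    simp [Lf]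
  rw [h]
  refine isCompact_Icc.inter_right ?_
  exact isClosed_biUnion_finset fun q _ => isClosed_eq (continuous_apply _) continuous_const

theorem box_acy_end {n : ℕ} (l u : Fin n → ℝ) (hlu : l ≤ u) (i : Fin n) (ε : Bool) :
    l i ≤ (if ε then u i else l i) ∧ (if ε then u i else l i) ≤ u i := by
  cases ε
  · exact ⟨le_refl _, hlu i⟩
  · exact ⟨hlu i, le_refl _⟩

theorem box_acy_nonempty {n : ℕ} (e : OpenPartialHomeomorph X (Fin n → ℝ))
    {A : Set (Fin n → ℝ)} (hne : A.Nonempty) (h : A ⊆ e.target) : (BX e A).Nonempty := by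
  obtain ⟨y, hy⟩ := hne
  refine ⟨e.symm y, e.map_target (h hy), ?_⟩
  show e (e.symm y) ∈ A
  rw [e.right_inv (h hy)]
  exact hy

theorem box_acy_base {n : ℕ}
    (e : OpenPartialHomeomorph X (Fin n → ℝ)) (l u : Fin n → ℝ) (hlu : l ≤ u)
    (ht : Icc l u ⊆ e.target) (i : Fin n) (ε : Bool) :
    RAcy (BX e (Icc l u)) (BX e (Lf l u (insert (i, ε) ∅))) := by
  obtain ⟨c1, c2⟩ := box_acy_end l u hlu i ε
  have hL : Lf l u (insert (i, ε) ∅) = Icc (Function.update l i (if ε then u i else l i))
      (Function.update u i (if ε then u i else l i)) := by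
    rw [← box_acy_facet l u i _ c1 c2]
    ext y
    simp [Lf]
  have hsub : Lf l u (insert (i, ε) ∅) ⊆ Icc l u := fun y hy => hy.1
  have hle : Function.update l i (if ε then u i else l i) ≤
      Function.update u i (if ε then u i else l i) := by
    intro k
    by_cases hk : k = i
    · subst hk; simp
    · simp only [Function.update_of_ne hk]; exact hlu k
  rw [hL] at hsub ⊢
  refine racy_of_cacy (BX_mono e hsub) ?_ ?_ ?_
  · exact box_acy_nonempty e (nonempty_Icc.2 hle) (hsub.trans ht)
  · exact cacy_convex e isCompact_Icc (convex_Icc _ _) (nonempty_Icc.2 hlu) ht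
  · exact cacy_convex e isCompact_Icc (convex_Icc _ _) (nonempty_Icc.2 hle) (hsub.trans ht)

theorem box_acy_inter {n : ℕ} (l u : Fin n → ℝ) (i j : Fin n) (ε ε' : Bool) (hij : j ≠ i)
    (hlu : l j < u j) (J0 : Finset (Fin n × Bool)) (hq : (j, ε') ∉ J0) :
    {y | y ∈ Icc l u ∧ y j = if ε' then u j else l j} ∩ Lf l u (insert (i, ε) J0) =
      Lf (Function.update l j (if ε' then u j else l j))
        (Function.update u j (if ε' then u j else l j))
        (insert (i, ε) (J0.filter (fun q => q.1 ≠ j))) := by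
  have c12 : l j ≤ (if ε' then u j else l j) ∧ (if ε' then u j else l j) ≤ u j := by
    cases ε'
    · exact ⟨le_refl _, hlu.le⟩
    · exact ⟨hlu.le, le_refl _⟩
  have hF := box_acy_facet l u j (if ε' then u j else l j) c12.1 c12.2
  ext y
  constructor
  · rintro ⟨h1, h2, q, hq1, hq2⟩
    refine ⟨?_, q, ?_⟩
    · rw [← hF]; exact h1
    · have hqj : q.1 ≠ j := by
        intro hqj
        rcases Finset.mem_insert.1 hq1 with h | h
        · apply hij
          rw [← hqj, h]
        · obtain ⟨q1, q2⟩ := q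
          simp only at hqj
          subst hqj
          have h3 := h1.2
          simp only at hq2
          rw [h3] at hq2
          cases ε' <;> cases q2
          · exact hq h
          · simp only [Bool.false_eq_true, if_false, if_true] at hq2
            exact absurd hq2 hlu.ne
          · simp only [Bool.false_eq_true, if_false, if_true] at hq2
            exact absurd hq2 hlu.ne'
          · exact hq h
      refine ⟨?_, ?_⟩
      · rcases Finset.mem_insert.1 hq1 with h | h
        · rw [h]; exact Finset.mem_insert_self _ _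
        · exact Finset.mem_insert_of_mem (Finset.mem_filter.2 ⟨h, hqj⟩)
      · rw [Function.update_of_ne hqj, Function.update_of_ne hqj]
        exact hq2
  · rintro ⟨h1, q, hq1, hq2⟩
    rw [← hF] at h1
    refine ⟨h1, h1.1, q, ?_, ?_⟩
    · rcases Finset.mem_insert.1 hq1 with h | h
      · rw [h]; exact Finset.mem_insert_self _ _
      · exact Finset.mem_insert_of_mem (Finset.mem_filter.1 h).1
    · have hqj : q.1 ≠ j := by
        rcases Finset.mem_insert.1 hq1 with h | h
        · rw [h]; exact hij.symm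
        · exact (Finset.mem_filter.1 h).2
      rw [Function.update_of_ne hqj, Function.update_of_ne hqj] at hq2
      exact hq2

/-- boxes relative to a set of facets with an unpaired facet -/
theorem box_acy [CompletelyNormalSpace X] [T2Space X] {n : ℕ}
    (e : OpenPartialHomeomorph X (Fin n → ℝ)) (m : ℕ) :
    ∀ (J : Finset (Fin n × Bool)), J.card ≤ m → ∀ l u : Fin n → ℝ, l ≤ u → Icc l u ⊆ e.target →
      ∀ (i : Fin n) (ε : Bool), (∀ q ∈ J, q.1 ≠ i ∧ l q.1 < u q.1) →
        RAcy (BX e (Icc l u)) (BX e (Lf l u (insert (i, ε) J))) := by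
  induction m with
  | zero =>
    intro J hJ l u hlu ht i ε _
    have : J = ∅ := Finset.card_eq_zero.1 (Nat.le_zero.1 hJ)
    subst this
    exact box_acy_base e l u hlu ht i ε
  | succ m ih =>
    intro J hJ l u hlu ht i ε hJi
    rcases J.eq_empty_or_nonempty with h0 | ⟨⟨j, ε'⟩, hq⟩
    · subst h0
      exact box_acy_base e l u hlu ht i ε
    · obtain ⟨J0, hJ0⟩ : ∃ J0, J0 = J.erase (j, ε') := ⟨_, rfl⟩
      have hJins : J = insert (j, ε') J0 := by
        rw [hJ0, Finset.insert_erase hq]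
      have hqJ0 : (j, ε') ∉ J0 := by
        rw [hJ0]; exact Finset.notMem_erase _ _
      have hcard : J0.card ≤ m := by
        rw [hJ0, Finset.card_erase_of_mem hq]
        omega
      obtain ⟨hji, hluj⟩ := hJi (j, ε') hq
      simp only at hji hluj
      have hsubJ : ∀ q ∈ J0, q.1 ≠ i ∧ l q.1 < u q.1 := by
        intro q hq'
        apply hJi
        rw [hJins]
        exact Finset.mem_insert_of_mem hq'
      obtain ⟨c1, c2⟩ := box_acy_end l u hlu j ε'
      have hK := ih J0 hcard l u hlu ht i ε hsubJ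
      have hF := box_acy_facet l u j (if ε' then u j else l j) c1 c2
      -- decomposition of the larger union
      have hL2 : BX e (Lf l u (insert (i, ε) J)) =
          BX e {y | y ∈ Icc l u ∧ y j = if ε' then u j else l j} ∪
            BX e (Lf l u (insert (i, ε) J0)) := by
        ext x
        constructor
        · rintro ⟨hx, hxA, q, hq1, hq2⟩
          rw [hJins] at hq1
          rcases Finset.mem_insert.1 hq1 with h | h
          · right
            refine ⟨hx, hxA, q, ?_, hq2⟩
            rw [h]; exact Finset.mem_insert_self _ _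
          · rcases Finset.mem_insert.1 h with h' | h'
            · left
              refine ⟨hx, hxA, ?_⟩
              rw [h'] at hq2
              exact hq2
            · right
              exact ⟨hx, hxA, q, Finset.mem_insert_of_mem h', hq2⟩
        · rintro (⟨hx, hxA, hxj⟩ | ⟨hx, hxA, q, hq1, hq2⟩)
          · refine ⟨hx, hxA, (j, ε'), ?_, hxj⟩
            exact Finset.mem_insert_of_mem hq
          · refine ⟨hx, hxA, q, ?_, hq2⟩
            rcases Finset.mem_insert.1 hq1 with h | h
            · rw [h]; exact Finset.mem_insert_self _ _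
            · rw [hJins]
              exact Finset.mem_insert_of_mem (Finset.mem_insert_of_mem h)
      have hFsub : {y | y ∈ Icc l u ∧ y j = if ε' then u j else l j} ⊆ Icc l u := fun y hy => hy.1
      have hcF : IsClosed (BX e {y | y ∈ Icc l u ∧ y j = if ε' then u j else l j}) := by
        refine (BX_compact e ?_ (hFsub.trans ht)).isClosed
        rw [hF]
        exact isCompact_Icc
      have hcL : IsClosed (BX e (Lf l u (insert (i, ε) J0))) := by
        refine (BX_compact e (box_acy_Lf_compact _ _ _) ?_).isClosed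
        exact fun y hy => ht hy.1
      have hint : BX e {y | y ∈ Icc l u ∧ y j = if ε' then u j else l j} ∩
          BX e (Lf l u (insert (i, ε) J0)) =
          BX e (Lf (Function.update l j (if ε' then u j else l j))
        (Function.update u j (if ε' then u j else l j))
        (insert (i, ε) (J0.filter (fun q => q.1 ≠ j)))) := by
        rw [← box_acy_inter l u i j ε ε' hji hluj J0 hqJ0]
        ext x
        constructor
        · rintro ⟨h1, h2⟩
          exact ⟨h1.1, h1.2, h2.2⟩
        · rintro ⟨h1, h2, h3⟩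
          exact ⟨⟨h1, h2⟩, ⟨h1, h3⟩⟩
      have hle : Function.update l j (if ε' then u j else l j) ≤
          Function.update u j (if ε' then u j else l j) := by
        intro k
        by_cases hk : k = j
        · subst hk; simp
        · simp only [Function.update_of_ne hk]; exact hlu k
      have hIH := ih (J0.filter (fun q => q.1 ≠ j)) ((Finset.card_filter_le _ _).trans hcard)
        (Function.update l j (if ε' then u j else l j))
        (Function.update u j (if ε' then u j else l j)) hle (by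
          rw [← hF]
          exact hFsub.trans ht) i ε (by
          intro q hq'
          obtain ⟨hq1, hq2⟩ := Finset.mem_filter.1 hq'
          refine ⟨(hsubJ q hq1).1, ?_⟩
          rw [Function.update_of_ne hq2, Function.update_of_ne hq2]
          exact (hsubJ q hq1).2)
      have hexc : RAcy (BX e (Lf l u (insert (i, ε) J))) (BX e (Lf l u (insert (i, ε) J0))) := by
        rw [hL2]
        apply racy_exc hcF hcL
        rw [hint]
        have := hIH
        rw [← hF] at this
        exact this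
      refine racy_triple ?_ ?_ hK hexc
      · rw [hL2]
        exact subset_union_right
      · exact BX_mono e fun y hy => hy.1

theorem bsph_BX_inter {n : ℕ} (e : OpenPartialHomeomorph X (Fin n → ℝ)) (A B : Set (Fin n → ℝ)) :
    BX e A ∩ BX e B = BX e (A ∩ B) := by
  ext x
  constructor
  · rintro ⟨⟨h1, h2⟩, ⟨_, h3⟩⟩
    exact ⟨h1, h2, h3⟩
  · rintro ⟨h1, h2, h3⟩
    exact ⟨⟨h1, h2⟩, ⟨h1, h3⟩⟩

theorem bsph_BX_union {n : ℕ} (e : OpenPartialHomeomorph X (Fin n → ℝ)) (A B : Set (Fin n → ℝ)) :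
    BX e A ∪ BX e B = BX e (A ∪ B) := by
  ext x
  constructor
  · rintro (⟨h1, h2⟩ | ⟨h1, h2⟩)
    · exact ⟨h1, Or.inl h2⟩
    · exact ⟨h1, Or.inr h2⟩
  · rintro ⟨h1, h2 | h2⟩
    · exact Or.inl ⟨h1, h2⟩
    · exact Or.inr ⟨h1, h2⟩

theorem bsph_BX_nonempty {n : ℕ} (e : OpenPartialHomeomorph X (Fin n → ℝ)) {A : Set (Fin n → ℝ)}
    (hne : A.Nonempty) (h : A ⊆ e.target) : (BX e A).Nonempty := by
  obtain ⟨y, hy⟩ := hne
  refine ⟨e.symm y, e.map_target (h hy), ?_⟩
  rw [mem_preimage, e.right_inv (h hy)]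
  exact hy

theorem bsph_Lf_closed {n : ℕ} (l u : Fin n → ℝ) (J : Finset (Fin n × Bool)) :
    IsClosed (Lf l u J) := by
  have : Lf l u J = Icc l u ∩ ⋃ q ∈ J, {y | y q.1 = if q.2 then u q.1 else l q.1} := by
    ext y
    constructor
    · rintro ⟨h1, q, hq, h2⟩
      exact ⟨h1, mem_iUnion₂.2 ⟨q, hq, h2⟩⟩
    · rintro ⟨h1, h2⟩
      obtain ⟨q, hq, h2⟩ := mem_iUnion₂.1 h2
      exact ⟨h1, q, hq, h2⟩
  rw [this]
  refine isClosed_Icc.inter ?_
  apply Set.Finite.isClosed_biUnion J.finite_toSet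
  intro q _
  exact isClosed_eq (continuous_apply q.1) continuous_const

theorem box_sph_aux [CompletelyNormalSpace X] [T2Space X] {n : ℕ}
    (e : OpenPartialHomeomorph X (Fin n → ℝ)) (I : Finset (Fin n)) :
    ∀ p : ℕ, I.card = p →
    ∀ l u : Fin n → ℝ, l ≤ u → Icc l u ⊆ e.target → (∀ i ∈ I, l i < u i) →
      ∃ a : Co X p, RSph (BX e (Icc l u)) (BX e (Lf l u (I ×ˢ Finset.univ))) p a := by
  classical
  induction I using Finset.induction_on with
  | empty =>
    intro p hp l u hlu ht _
    rw [Finset.card_empty] at hp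
    subst hp
    refine ⟨fun _ => 1, ?_⟩
    have hL : BX e (Lf l u (∅ ×ˢ Finset.univ)) = ∅ := by
      rw [Finset.empty_product, eq_empty_iff_forall_notMem]
      rintro x ⟨_, _, q, hq, _⟩
      exact absurd hq (Finset.notMem_empty q)
    rw [hL]
    have hne : (Icc l u).Nonempty := nonempty_Icc.2 hlu
    exact rsph_of_cacy (bsph_BX_nonempty e hne ht) (cacy_convex e isCompact_Icc (convex_Icc l u) hne ht)
  | insert i I0 hi ih =>
    intro p hp l u hlu ht hI
    rw [Finset.card_insert_of_notMem hi] at hp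
    subst hp
    have hliu : l i < u i := hI i (Finset.mem_insert_self i I0)
    have hne : ∀ j ∈ I0, j ≠ i := fun j hj h => hi (h ▸ hj)
    set l1 : Fin n → ℝ := Function.update l i (u i) with hl1
    have hl1i : l1 i = u i := by rw [hl1, Function.update_self]
    have hl1j : ∀ j, j ≠ i → l1 j = l j := fun j hj => by rw [hl1, Function.update_of_ne hj]
    have hll1 : l ≤ l1 := by
      intro j
      by_cases hj : j = i
      · subst hj
        rw [hl1i]
        exact hliu.le
      · rw [hl1j j hj]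
    have hl1u : l1 ≤ u := by
      intro j
      by_cases hj : j = i
      · subst hj
        rw [hl1i]
      · rw [hl1j j hj]
        exact hlu j
    have hsub : Icc l1 u ⊆ Icc l u := fun y hy => ⟨hll1.trans hy.1, hy.2⟩
    set L1 : Set X := BX e (Lf l u (insert (i, false) (I0 ×ˢ Finset.univ))) with hL1
    have hL12 : L1 ⊆ BX e (Lf l u ((insert i I0) ×ˢ Finset.univ)) := by
      apply BX_mono
      rintro y ⟨h1, q, hq, h2⟩
      refine ⟨h1, q, ?_, h2⟩
      rw [Finset.mem_product]
      refine ⟨?_, Finset.mem_univ _⟩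
      rcases Finset.mem_insert.1 hq with h | h
      · rw [h]
        exact Finset.mem_insert_self _ _
      · exact Finset.mem_insert_of_mem (Finset.mem_product.1 h).1
    have hL2K : BX e (Lf l u ((insert i I0) ×ˢ Finset.univ)) ⊆ BX e (Icc l u) :=
      BX_mono e fun y hy => hy.1
    have hK : RAcy (BX e (Icc l u)) L1 := by
      apply box_acy e _ (I0 ×ˢ Finset.univ) le_rfl l u hlu ht i false
      intro q hq
      have hq1 := (Finset.mem_product.1 hq).1
      exact ⟨hne _ hq1, hI _ (Finset.mem_insert_of_mem hq1)⟩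
    obtain ⟨a, ha⟩ := ih I0.card rfl l1 u hl1u (hsub.trans ht) (by
      intro j hj
      rw [hl1j j (hne j hj)]
      exact hI j (Finset.mem_insert_of_mem hj))
    have hint : BX e (Icc l1 u) ∩ L1 = BX e (Lf l1 u (I0 ×ˢ Finset.univ)) := by
      rw [hL1, bsph_BX_inter]
      congr 1
      ext y
      constructor
      · rintro ⟨h1, h2, q, hq, h3⟩
        rcases Finset.mem_insert.1 hq with h | h
        · subst h
          have h4 := h1.1 i
          rw [hl1i] at h4
          simp only [Bool.false_eq_true, if_false] at h3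
          rw [h3] at h4
          exact absurd hliu (not_lt.2 h4)
        · refine ⟨h1, q, h, ?_⟩
          rw [hl1j _ (hne _ (Finset.mem_product.1 h).1)]
          exact h3
      · rintro ⟨h1, q, hq, h3⟩
        refine ⟨h1, hsub h1, q, Finset.mem_insert_of_mem hq, ?_⟩
        rw [hl1j _ (hne _ (Finset.mem_product.1 hq).1)] at h3
        exact h3
    have hun : BX e (Icc l1 u) ∪ L1 = BX e (Lf l u ((insert i I0) ×ˢ Finset.univ)) := by
      apply Subset.antisymm
      · apply union_subset _ hL12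
        apply BX_mono
        intro y hy
        refine ⟨hsub hy, (i, true), ?_, ?_⟩
        · rw [Finset.mem_product]
          exact ⟨Finset.mem_insert_self _ _, Finset.mem_univ _⟩
        · have h4 := hy.1 i
          rw [hl1i] at h4
          simp only [if_true]
          exact le_antisymm (hy.2 i) h4
      · rw [hL1, bsph_BX_union]
        apply BX_mono
        rintro y ⟨h1, ⟨j, ε⟩, hq, h2⟩
        rw [Finset.mem_product] at hq
        rcases Finset.mem_insert.1 hq.1 with h | h
        · simp only at h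
          subst h
          cases ε with
          | true =>
            left
            refine ⟨?_, h1.2⟩
            intro k
            by_cases hk : k = j
            · subst hk
              rw [hl1i]
              simp only [if_true] at h2
              rw [h2]
            · rw [hl1j k hk]
              exact h1.1 k
          | false =>
            right
            exact ⟨h1, (j, false), Finset.mem_insert_self _ _, h2⟩
        · right
          exact ⟨h1, (j, ε), Finset.mem_insert_of_mem (Finset.mem_product.2 ⟨h, Finset.mem_univ _⟩), h2⟩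
    rw [← hint] at ha
    have hc1 : IsClosed (BX e (Icc l1 u)) := (BX_compact e isCompact_Icc (hsub.trans ht)).isClosed
    have hc2 : IsClosed L1 := by
      have hcc : IsCompact (Lf l u (insert (i, false) (I0 ×ˢ Finset.univ))) :=
        isCompact_Icc.of_isClosed_subset (bsph_Lf_closed _ _ _) (fun y hy => hy.1)
      exact (BX_compact e hcc (fun y hy => ht hy.1)).isClosed
    obtain ⟨a', ha'⟩ := rsph_exc hc1 hc2 ha
    rw [hun] at ha'
    exact ⟨dl _ a', rsph_conn hL12 hL2K hK ha'⟩

/-- boxes relative to paired facets -/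
theorem box_sph [CompletelyNormalSpace X] [T2Space X] {n : ℕ}
    (e : OpenPartialHomeomorph X (Fin n → ℝ)) (I : Finset (Fin n)) :
    ∀ l u : Fin n → ℝ, l ≤ u → Icc l u ⊆ e.target → (∀ i ∈ I, l i < u i) →
      ∃ a : Co X I.card, RSph (BX e (Icc l u)) (BX e (Lf l u (I ×ˢ Finset.univ))) I.card a :=
  box_sph_aux e I I.card rfl

/-- the open box -/
def OB {n : ℕ} (l u : Fin n → ℝ) : Set (Fin n → ℝ) := {y | ∀ i, l i < y i ∧ y i < u i}

/-- an open box in the domain of a chart -/
def IsBox (n : ℕ) (V : Set X) : Prop :=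
  ∃ (e : OpenPartialHomeomorph X (Fin n → ℝ)) (l u : Fin n → ℝ), (∀ i, l i < u i) ∧
    Icc l u ⊆ e.target ∧ V = BX e (OB l u)

theorem OB_isOpen {n : ℕ} (l u : Fin n → ℝ) : IsOpen (OB l u) := by
  have h1 : OB l u = Set.pi univ (fun i => Ioo (l i) (u i)) := by
    ext y
    constructor
    · intro h i _
      exact h i
    · intro h i
      exact h i (mem_univ i)
  rw [h1]
  exact isOpen_set_pi finite_univ (fun i _ => isOpen_Ioo)

theorem IsBox.isOpen {n : ℕ} {V : Set X} (h : IsBox n V) : IsOpen V := by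
  obtain ⟨e, l, u, _, _, rfl⟩ := h
  exact BX_open e (OB_isOpen l u)

theorem IsBox.nonempty {n : ℕ} {V : Set X} (h : IsBox n V) : V.Nonempty := by
  obtain ⟨e, l, u, hlu, ht, rfl⟩ := h
  obtain ⟨y, hy⟩ : ∃ y : Fin n → ℝ, ∀ i, l i < y i ∧ y i < u i :=
    ⟨fun i => (l i + u i) / 2, fun i => by
      have := hlu i
      constructor <;> simp only <;> linarith⟩
  have hyt : y ∈ e.target := ht ⟨fun i => (hy i).1.le, fun i => (hy i).2.le⟩
  refine ⟨e.symm y, e.map_target hyt, ?_⟩
  show e (e.symm y) ∈ OB l u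
  rw [e.right_inv hyt]
  exact hy

theorem exists_box {n : ℕ} (e : OpenPartialHomeomorph X (Fin n → ℝ)) {x : X} (hx : x ∈ e.source)
    {U : Set X} (hU : IsOpen U) (hxU : x ∈ U) {l u : Fin n → ℝ} (hlu : e x ∈ OB l u) :
    ∃ l' u' : Fin n → ℝ, (∀ i, l i < l' i ∧ l' i < u' i ∧ u' i < u i) ∧ Icc l' u' ⊆ e.target ∧
      x ∈ BX e (OB l' u') ∧ BX e (Icc l' u') ⊆ U := by
  have hW : IsOpen (OB l u ∩ (e.target ∩ e.symm ⁻¹' U)) :=
    (OB_isOpen l u).inter (e.isOpen_inter_preimage_symm hU)
  have hxW : e x ∈ OB l u ∩ (e.target ∩ e.symm ⁻¹' U) := by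
    refine ⟨hlu, e.map_source hx, ?_⟩
    show e.symm (e x) ∈ U
    rw [e.left_inv hx]
    exact hxU
  obtain ⟨r, hr, hball⟩ := Metric.isOpen_iff.mp hW (e x) hxW
  have hsub : Icc (fun i => e x i - r / 2) (fun i => e x i + r / 2) ⊆
      OB l u ∩ (e.target ∩ e.symm ⁻¹' U) := by
    intro y hy
    apply hball
    rw [Metric.mem_ball]
    refine lt_of_le_of_lt ((dist_pi_le_iff (by linarith : (0:ℝ) ≤ r / 2)).mpr ?_)
      (by linarith : r / 2 < r)
    intro i
    rw [Real.dist_eq, abs_le]
    have h1 := hy.1 i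
    have h2 := hy.2 i
    simp only at h1 h2
    constructor <;> linarith
  have hle : (fun i => e x i - r / 2) ≤ (fun i => e x i + r / 2) := by
    intro i
    simp only
    linarith
  refine ⟨fun i => e x i - r / 2, fun i => e x i + r / 2, ?_, ?_, ?_, ?_⟩
  · intro i
    have h1 := (hsub (left_mem_Icc.mpr hle)).1 i
    have h2 := (hsub (right_mem_Icc.mpr hle)).1 i
    simp only at h1 h2 ⊢
    exact ⟨h1.1, by linarith, h2.2⟩
  · intro y hy
    exact (hsub hy).2.1
  · refine ⟨hx, ?_⟩
    intro i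
    constructor <;> linarith
  · rintro z ⟨hz1, hz2⟩
    have h1 : e.symm (e z) ∈ U := (hsub hz2).2.2
    rw [e.left_inv hz1] at h1
    exact h1

/-- generators for open boxes -/
theorem box_gen [CompletelyNormalSpace X] [T2Space X] {n : ℕ} {V : Set X} (hV : IsBox n V) :
    ∃ w : Co X n, RSph univ Vᶜ n w := by
  classical
  obtain ⟨e, l, u, hlu, ht, rfl⟩ := hV
  have hOB : IsOpen (OB l u) := by
    have h : OB l u = Set.pi univ (fun i => Ioo (l i) (u i)) := by
      ext y
      simp [OB]
    rw [h]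
    exact isOpen_set_pi finite_univ (fun i _ => isOpen_Ioo)
  have hL : IsClosed (BX e (OB l u))ᶜ := (BX_open e hOB).isClosed_compl
  have hK : IsClosed (BX e (Icc l u)) := (BX_compact e isCompact_Icc ht).isClosed
  obtain ⟨a, ha⟩ := box_sph e Finset.univ l u (fun i => (hlu i).le) ht (fun i _ => hlu i)
  have hKL : BX e (Icc l u) ∩ (BX e (OB l u))ᶜ =
      BX e (Lf l u ((Finset.univ : Finset (Fin n)) ×ˢ (Finset.univ : Finset Bool))) := by
    ext x
    constructor
    · rintro ⟨⟨hx, hxI⟩, hxO⟩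
      refine ⟨hx, hxI, ?_⟩
      have h1 : ¬ ∀ i, l i < e x i ∧ e x i < u i := fun h => hxO ⟨hx, h⟩
      push Not at h1
      obtain ⟨i, hi⟩ := h1
      have h2 : l i ≤ e x i := hxI.1 i
      have h3 : e x i ≤ u i := hxI.2 i
      rcases eq_or_lt_of_le h2 with h4 | h4
      · exact ⟨(i, false), by simp, by simp [h4]⟩
      · exact ⟨(i, true), by simp, by simpa using le_antisymm h3 (hi h4)⟩
    · rintro ⟨hx, hxI, ⟨i, b⟩, _, hq⟩
      refine ⟨⟨hx, hxI⟩, ?_⟩
      rintro ⟨_, hO⟩
      have h1 : l i < e x i ∧ e x i < u i := hO i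
      cases b
      · have h2 : e x i = l i := by simpa using hq
        exact h1.1.ne' h2
      · have h2 : e x i = u i := by simpa using hq
        exact h1.2.ne h2
  have hun : BX e (Icc l u) ∪ (BX e (OB l u))ᶜ = univ := by
    rw [eq_univ_iff_forall]
    intro x
    by_cases hx : x ∈ BX e (OB l u)
    · exact Or.inl ⟨hx.1, fun i => (hx.2 i).1.le, fun i => (hx.2 i).2.le⟩
    · exact Or.inr hx
  rw [← hKL] at ha
  obtain ⟨a', ha'⟩ := rsph_exc hK hL ha
  rw [hun] at ha'
  have htr : ∀ m : ℕ, m = n → ∀ a' : Co X m, RSph univ (BX e (OB l u))ᶜ m a' →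
      ∃ w : Co X n, RSph univ (BX e (OB l u))ᶜ n w := by
    rintro m rfl a' h
    exact ⟨a', h⟩
  exact htr _ (Finset.card_fin n) a' ha'

/-- shrinking of one side of a box -/
theorem shrink_hi [CompletelyNormalSpace X] [T2Space X] {n : ℕ}
    (e : OpenPartialHomeomorph X (Fin n → ℝ)) {l u : Fin n → ℝ} (hlu : ∀ i, l i < u i)
    (ht : Icc l u ⊆ e.target) (i : Fin n) {t : ℝ} (h1 : l i < t) (h2 : t < u i) {w : Co X n}
    (hw : RSph univ (BX e (OB l (Function.update u i t)))ᶜ n w) :
    RSph univ (BX e (OB l u))ᶜ n w := by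
  classical
  have hV'V : BX e (OB l (Function.update u i t)) ⊆ BX e (OB l u) := by
    apply BX_mono
    intro y hy j
    refine ⟨(hy j).1, ?_⟩
    have h3 := (hy j).2
    by_cases hj : j = i
    · subst hj
      rw [Function.update_self] at h3
      exact h3.trans h2
    · rwa [Function.update_of_ne hj] at h3
  have hbox : IsBox n (BX e (OB l u)) := ⟨e, l, u, hlu, ht, rfl⟩
  obtain ⟨a, ha⟩ := box_gen hbox
  have hle : Function.update l i t ≤ u := by
    intro j
    by_cases hj : j = i
    · subst hj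
      rw [Function.update_self]
      exact h2.le
    · rw [Function.update_of_ne hj]
      exact (hlu j).le
  have hll : l ≤ Function.update l i t := by
    intro j
    by_cases hj : j = i
    · subst hj
      rw [Function.update_self]
      exact h1.le
    · rw [Function.update_of_ne hj]
  have htK : Icc (Function.update l i t) u ⊆ e.target :=
    (Icc_subset_Icc_left hll).trans ht
  have hK : IsClosed (BX e (Icc (Function.update l i t) u)) :=
    (BX_compact e isCompact_Icc htK).isClosed
  have hL : IsClosed (BX e (OB l u))ᶜ := hbox.isOpen.isClosed_compl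
  set J : Finset (Fin n × Bool) := (Finset.univ.erase i) ×ˢ Finset.univ with hJ
  have hJm : ∀ q : Fin n × Bool, q ∈ J ↔ q.1 ≠ i := by
    intro q
    simp [hJ, Finset.mem_product]
  have h4 : RAcy (BX e (Icc (Function.update l i t) u))
      (BX e (Lf (Function.update l i t) u (insert (i, true) J))) := by
    refine box_acy e J.card J le_rfl _ _ hle htK i true fun q hq => ?_
    have hq' := (hJm q).1 hq
    refine ⟨hq', ?_⟩
    rw [Function.update_of_ne hq']
    exact hlu _
  have h5 : BX e (Icc (Function.update l i t) u) ∩ (BX e (OB l u))ᶜ =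
      BX e (Lf (Function.update l i t) u (insert (i, true) J)) := by
    ext x
    constructor
    · rintro ⟨⟨hx1, hx2⟩, hx3⟩
      refine ⟨hx1, hx2, ?_⟩
      have h6 : ¬ ∀ j, l j < e x j ∧ e x j < u j := fun h => hx3 ⟨hx1, h⟩
      push Not at h6
      obtain ⟨j, hj⟩ := h6
      have hlo := hx2.1 j
      have hup := hx2.2 j
      by_cases hji : j = i
      · subst hji
        rw [Function.update_self] at hlo
        have h7 := hj (h1.trans_le hlo)
        exact ⟨(j, true), by simp, by simpa using le_antisymm hup h7⟩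
      · rw [Function.update_of_ne hji] at hlo
        rcases lt_or_ge (l j) (e x j) with h7 | h7
        · exact ⟨(j, true), by simp [hJm, hji], by simpa using le_antisymm hup (hj h7)⟩
        · refine ⟨(j, false), by simp [hJm, hji], ?_⟩
          simpa [Function.update_of_ne hji] using le_antisymm h7 hlo
    · rintro ⟨hx1, hx2, q, hq, hxq⟩
      refine ⟨⟨hx1, hx2⟩, fun h => ?_⟩
      have h6 := h.2 q.1
      rcases q with ⟨j, ε⟩
      rcases ε with _ | _
      · have hji : j ≠ i := by
          rcases Finset.mem_insert.1 hq with h7 | h7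
          · simp at h7
          · exact (hJm _).1 h7
        simp only [Bool.false_eq_true, if_false] at hxq
        rw [Function.update_of_ne hji] at hxq
        simp only at h6
        rw [hxq] at h6
        exact lt_irrefl _ h6.1
      · simp only [if_true] at hxq
        simp only at h6
        rw [hxq] at h6
        exact lt_irrefl _ h6.2
  have h6 : (BX e (OB l (Function.update u i t)))ᶜ =
      BX e (Icc (Function.update l i t) u) ∪ (BX e (OB l u))ᶜ := by
    ext x
    constructor
    · intro hx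
      by_cases hxV : x ∈ BX e (OB l u)
      · left
        refine ⟨hxV.1, ?_⟩
        have hxi : t ≤ e x i := by
          by_contra hcon
          push Not at hcon
          apply hx
          refine ⟨hxV.1, fun j => ⟨(hxV.2 j).1, ?_⟩⟩
          by_cases hj : j = i
          · subst hj
            rw [Function.update_self]
            exact hcon
          · rw [Function.update_of_ne hj]
            exact (hxV.2 j).2
        refine ⟨fun j => ?_, fun j => (hxV.2 j).2.le⟩
        by_cases hj : j = i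
        · subst hj
          rw [Function.update_self]
          exact hxi
        · rw [Function.update_of_ne hj]
          exact (hxV.2 j).1.le
      · right
        exact hxV
    · rintro (hx | hx)
      · intro hx'
        have h7 := (hx'.2 i).2
        have h8 := hx.2.1 i
        rw [Function.update_self] at h7 h8
        exact absurd h7 (not_lt.2 h8)
      · intro hx'
        exact hx (hV'V hx')
  have h7 : RAcy (BX e (OB l (Function.update u i t)))ᶜ (BX e (OB l u))ᶜ := by
    rw [h6]
    apply racy_exc hK hL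
    rw [h5]
    exact h4
  exact rsph_shrink hV'V h7 ha hw

theorem shrink_lo [CompletelyNormalSpace X] [T2Space X] {n : ℕ}
    (e : OpenPartialHomeomorph X (Fin n → ℝ)) {l u : Fin n → ℝ} (hlu : ∀ i, l i < u i)
    (ht : Icc l u ⊆ e.target) (i : Fin n) {t : ℝ} (h1 : l i < t) (h2 : t < u i) {w : Co X n}
    (hw : RSph univ (BX e (OB (Function.update l i t) u))ᶜ n w) :
    RSph univ (BX e (OB l u))ᶜ n w := by
  classical
  have hV'V : BX e (OB (Function.update l i t) u) ⊆ BX e (OB l u) := by
    apply BX_mono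
    intro y hy j
    refine ⟨?_, (hy j).2⟩
    have h3 := (hy j).1
    by_cases hj : j = i
    · subst hj
      rw [Function.update_self] at h3
      exact h1.trans h3
    · rwa [Function.update_of_ne hj] at h3
  have hbox : IsBox n (BX e (OB l u)) := ⟨e, l, u, hlu, ht, rfl⟩
  obtain ⟨a, ha⟩ := box_gen hbox
  have hle : l ≤ Function.update u i t := by
    intro j
    by_cases hj : j = i
    · subst hj
      rw [Function.update_self]
      exact h1.le
    · rw [Function.update_of_ne hj]
      exact (hlu j).le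
  have hll : Function.update u i t ≤ u := by
    intro j
    by_cases hj : j = i
    · subst hj
      rw [Function.update_self]
      exact h2.le
    · rw [Function.update_of_ne hj]
  have htK : Icc l (Function.update u i t) ⊆ e.target :=
    (Icc_subset_Icc_right hll).trans ht
  have hK : IsClosed (BX e (Icc l (Function.update u i t))) :=
    (BX_compact e isCompact_Icc htK).isClosed
  have hL : IsClosed (BX e (OB l u))ᶜ := hbox.isOpen.isClosed_compl
  set J : Finset (Fin n × Bool) := (Finset.univ.erase i) ×ˢ Finset.univ with hJ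
  have hJm : ∀ q : Fin n × Bool, q ∈ J ↔ q.1 ≠ i := by
    intro q
    simp [hJ, Finset.mem_product]
  have h4 : RAcy (BX e (Icc l (Function.update u i t)))
      (BX e (Lf l (Function.update u i t) (insert (i, false) J))) := by
    refine box_acy e J.card J le_rfl _ _ hle htK i false fun q hq => ?_
    have hq' := (hJm q).1 hq
    refine ⟨hq', ?_⟩
    rw [Function.update_of_ne hq']
    exact hlu _
  have h5 : BX e (Icc l (Function.update u i t)) ∩ (BX e (OB l u))ᶜ =
      BX e (Lf l (Function.update u i t) (insert (i, false) J)) := by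
    ext x
    constructor
    · rintro ⟨⟨hx1, hx2⟩, hx3⟩
      refine ⟨hx1, hx2, ?_⟩
      have h6 : ¬ ∀ j, l j < e x j ∧ e x j < u j := fun h => hx3 ⟨hx1, h⟩
      push Not at h6
      obtain ⟨j, hj⟩ := h6
      have hlo := hx2.1 j
      have hup := hx2.2 j
      by_cases hji : j = i
      · subst hji
        rw [Function.update_self] at hup
        have h7 : e x j ≤ l j := by
          by_contra hcon
          push Not at hcon
          exact absurd (hup.trans_lt h2) (not_lt.2 (hj hcon))
        exact ⟨(j, false), by simp, by simpa using le_antisymm h7 hlo⟩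
      · rw [Function.update_of_ne hji] at hup
        rcases lt_or_ge (l j) (e x j) with h7 | h7
        · refine ⟨(j, true), by simp [hJm, hji], ?_⟩
          simpa [Function.update_of_ne hji] using le_antisymm hup (hj h7)
        · exact ⟨(j, false), by simp [hJm, hji], by simpa using le_antisymm h7 hlo⟩
    · rintro ⟨hx1, hx2, q, hq, hxq⟩
      refine ⟨⟨hx1, hx2⟩, fun h => ?_⟩
      have h6 := h.2 q.1
      rcases q with ⟨j, ε⟩
      rcases ε with _ | _
      · simp only [Bool.false_eq_true, if_false] at hxq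
        simp only at h6
        rw [hxq] at h6
        exact lt_irrefl _ h6.1
      · have hji : j ≠ i := by
          rcases Finset.mem_insert.1 hq with h7 | h7
          · simp at h7
          · exact (hJm _).1 h7
        simp only [if_true] at hxq
        rw [Function.update_of_ne hji] at hxq
        simp only at h6
        rw [hxq] at h6
        exact lt_irrefl _ h6.2
  have h6 : (BX e (OB (Function.update l i t) u))ᶜ =
      BX e (Icc l (Function.update u i t)) ∪ (BX e (OB l u))ᶜ := by
    ext x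
    constructor
    · intro hx
      by_cases hxV : x ∈ BX e (OB l u)
      · left
        refine ⟨hxV.1, ?_⟩
        have hxi : e x i ≤ t := by
          by_contra hcon
          push Not at hcon
          apply hx
          refine ⟨hxV.1, fun j => ⟨?_, (hxV.2 j).2⟩⟩
          by_cases hj : j = i
          · subst hj
            rw [Function.update_self]
            exact hcon
          · rw [Function.update_of_ne hj]
            exact (hxV.2 j).1
        refine ⟨fun j => (hxV.2 j).1.le, fun j => ?_⟩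
        by_cases hj : j = i
        · subst hj
          rw [Function.update_self]
          exact hxi
        · rw [Function.update_of_ne hj]
          exact (hxV.2 j).2.le
      · right
        exact hxV
    · rintro (hx | hx)
      · intro hx'
        have h7 := (hx'.2 i).1
        have h8 := hx.2.2 i
        rw [Function.update_self] at h7 h8
        exact absurd h7 (not_lt.2 h8)
      · intro hx'
        exact hx (hV'V hx')
  have h7 : RAcy (BX e (OB (Function.update l i t) u))ᶜ (BX e (OB l u))ᶜ := by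
    rw [h6]
    apply racy_exc hK hL
    rw [h5]
    exact h4
  exact rsph_shrink hV'V h7 ha hw

theorem shrink [CompletelyNormalSpace X] [T2Space X] {n : ℕ}
    (e : OpenPartialHomeomorph X (Fin n → ℝ)) {l u l' u' : Fin n → ℝ}
    (hlu : ∀ i, l i < l' i ∧ l' i < u' i ∧ u' i < u i)
    (ht : Icc l u ⊆ e.target) {w : Co X n}
    (hw : RSph univ (BX e (OB l' u'))ᶜ n w) :
    RSph univ (BX e (OB l u))ᶜ n w := by
  classical
  obtain ⟨ls, hls⟩ : ∃ f : Finset (Fin n) → Fin n → ℝ,
      f = fun s i => if i ∈ s then l' i else l i := ⟨_, rfl⟩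
  obtain ⟨us, hus⟩ : ∃ f : Finset (Fin n) → Fin n → ℝ,
      f = fun s i => if i ∈ s then u' i else u i := ⟨_, rfl⟩
  have bl : ∀ s j, l j ≤ ls s j ∧ ls s j ≤ l' j := by
    intro s j
    have := hlu j
    rw [hls]
    dsimp only
    split_ifs
    · exact ⟨this.1.le, le_rfl⟩
    · exact ⟨le_rfl, this.1.le⟩
  have bu : ∀ s j, u' j ≤ us s j ∧ us s j ≤ u j := by
    intro s j
    have := hlu j
    rw [hus]
    dsimp only
    split_ifs
    · exact ⟨le_rfl, this.2.2.le⟩
    · exact ⟨this.2.2.le, le_rfl⟩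
  have blt : ∀ s t j, ls s j < us t j := fun s t j =>
    lt_of_le_of_lt (bl s j).2 (lt_of_lt_of_le (hlu j).2.1 (bu t j).1)
  have bt : ∀ s t, Icc (ls s) (us t) ⊆ e.target := by
    intro s t y hy
    exact ht ⟨fun j => (bl s j).1.trans (hy.1 j), fun j => (hy.2 j).trans (bu t j).2⟩
  have main : ∀ s : Finset (Fin n), RSph univ (BX e (OB (ls s) (us s)))ᶜ n w →
      RSph univ (BX e (OB l u))ᶜ n w := by
    intro s
    induction s using Finset.induction_on with
    | empty =>
      intro h
      have e1 : ls ∅ = l := by rw [hls]; funext i; simp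
      have e2 : us ∅ = u := by rw [hus]; funext i; simp
      rwa [e1, e2] at h
    | insert i s hi ih =>
      intro h
      have eu : us (insert i s) = Function.update (us s) i (u' i) := by
        rw [hus]
        funext j
        by_cases hj : j = i
        · subst hj; simp
        · simp [Function.update_of_ne hj, hj]
      have el : ls (insert i s) = Function.update (ls s) i (l' i) := by
        rw [hls]
        funext j
        by_cases hj : j = i
        · subst hj; simp
        · simp [Function.update_of_ne hj, hj]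
      have vl : ls (insert i s) i = l' i := by rw [el, Function.update_self]
      have vl0 : ls s i = l i := by rw [hls]; simp [hi]
      have vu0 : us s i = u i := by rw [hus]; simp [hi]
      rw [eu] at h
      have h1 := shrink_hi e (blt (insert i s) s) (bt (insert i s) s) i
        (t := u' i) (by rw [vl]; exact (hlu i).2.1) (by rw [vu0]; exact (hlu i).2.2) h
      rw [el] at h1
      have h2 := shrink_lo e (blt s s) (bt s s) i (t := l' i) (by rw [vl0]; exact (hlu i).1)
        (by rw [vu0]; exact (hlu i).2.1.trans (hlu i).2.2) h1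
      exact ih h2
  refine main Finset.univ ?_
  have e1 : ls Finset.univ = l' := by rw [hls]; funext i; simp
  have e2 : us Finset.univ = u' := by rw [hus]; funext i; simp
  rw [e1, e2]
  exact hw

/-- generators of smaller boxes are generators of larger boxes -/
theorem box_gen_mono [CompletelyNormalSpace X] [T2Space X] {n : ℕ} {V V' : Set X}
    (hV : IsBox n V) (hV' : IsBox n V') (h : V' ⊆ V) {w : Co X n}
    (hw : RSph univ V'ᶜ n w) : RSph univ Vᶜ n w := by
  obtain ⟨a, ha⟩ := box_gen hV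
  obtain ⟨e, l, u, hlu, ht, rfl⟩ := hV
  obtain ⟨y, hy⟩ := hV'.nonempty
  have hyV := h hy
  obtain ⟨l', u', hl, ht', hy', hsub⟩ := exists_box e hyV.1 hV'.isOpen hy
    (l := l) (u := u) hyV.2
  have hbox : IsBox n (BX e (OB l' u')) := ⟨e, l', u', fun i => (hl i).2.1, ht', rfl⟩
  obtain ⟨w'', hw''⟩ := box_gen hbox
  have h4 := shrink e hl ht hw''
  have hOI : OB l' u' ⊆ Icc l' u' := fun z hz => ⟨fun i => (hz i).1.le, fun i => (hz i).2.le⟩
  have hsub' : BX e (OB l' u') ⊆ V' := (BX_mono e hOI).trans hsub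
  exact rsph_between (w := w) h hsub' ha hw hw'' h4

end Pool.Agent.Helper158.PD
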