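import Pool.Agent.Helper158.PD.Loc
import Pool.Agent.Helper922.HB.Sc.Prism

/-! The singular cochain complexes with supports, cup products and the duality cone. -/

set_option autoImplicit false

namespace Pool.Agent.Helper158.PD

open Set Topology
open Pool.Agent.Helper922.HB.Sc (Sing sface altd vert)

universe u v

variable {X : Type u} [TopologicalSpace X]

/-- singular cochains mod 2 -/
abbrev Co (X : Type u) [TopologicalSpace X] (n : ℕ) : Type u := Sing X n → F2

/-- the coboundary -/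
noncomputable def dl (n : ℕ) : Co X n →ₗ[F2] Co X (n + 1) := altd F2 (sface (X := X)) n

theorem dl_apply (n : ℕ) (c : Co X n) (σ : Sing X (n + 1)) :
    dl n c σ = ∑ i : Fin (n + 2), c (sface n i σ) := by
  change ∑ i : Fin (n + 2), (-1 : F2) ^ (i : ℕ) * c (sface n i σ) = _
  refine Finset.sum_congr rfl fun i _ => ?_
  have : (-1 : F2) = 1 := by decide
  rw [this, one_pow, one_mul]

theorem sface_sface_swap (n : ℕ) (j : Fin (n + 3)) (i : Fin (n + 2)) (σ : Sing X (n + 1 + 1)) :
    sface n (i.predAbove j) (sface (n + 1) (j.succAbove i) σ) = sface n i (sface (n + 1) j σ) := by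
  ext x
  change σ (stdSimplex.map (j.succAbove i).succAbove (stdSimplex.map (i.predAbove j).succAbove x)) =
    σ (stdSimplex.map j.succAbove (stdSimplex.map i.succAbove x))
  rw [stdSimplex.map_comp_apply, stdSimplex.map_comp_apply]
  have h : (j.succAbove i).succAbove.comp (i.predAbove j).succAbove =
      j.succAbove.comp i.succAbove := by
    funext k
    exact Fin.succAbove_succAbove_succAbove_predAbove j i k
  rw [h]

theorem dl_dl (n : ℕ) (c : Co X n) : dl (n + 1) (dl n c) = 0 := by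
  funext σ
  rw [dl_apply]
  simp_rw [dl_apply]
  rw [← Fintype.sum_prod_type' (f := fun (j : Fin (n + 1 + 2)) (i : Fin (n + 2)) =>
    c (sface n i (sface (n + 1) j σ)))]
  refine Finset.sum_involution (fun a _ => (a.1.succAbove a.2, a.2.predAbove a.1)) ?_ ?_ ?_ ?_
  · intro a _
    change c (sface n a.2 (sface (n + 1) a.1 σ)) +
      c (sface n (a.2.predAbove a.1) (sface (n + 1) (a.1.succAbove a.2) σ)) = 0
    rw [sface_sface_swap]
    exact CharTwo.add_self_eq_zero _
  · intro a _ _ h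
    exact Fin.succAbove_ne a.1 a.2 (congrArg Prod.fst h)
  · intro a _
    exact Finset.mem_univ _
  · intro a _
    exact Prod.ext (Fin.succAbove_succAbove_predAbove a.1 a.2)
      (Fin.predAbove_predAbove_succAbove a.1 a.2)

theorem range_sface (n : ℕ) (i : Fin (n + 2)) (σ : Sing X (n + 1)) :
    range (sface n i σ) ⊆ range σ := by
  rintro _ ⟨x, rfl⟩
  exact ⟨_, rfl⟩

theorem dl_loc (n : ℕ) (c : Co X n) (U : Set X) (h : ∀ σ : Sing X n, range σ ⊆ U → c σ = 0)
    (σ : Sing X (n + 1)) (hσ : range σ ⊆ U) : dl n c σ = 0 := by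
  rw [dl_apply]
  exact Finset.sum_eq_zero fun i _ => h _ ((range_sface n i σ).trans hσ)

/-- the graded complex -/
noncomputable abbrev Gr (X : Type u) [TopologicalSpace X] : CC X where
  S k := Sing X k
  rg k σ := range σ
  v0 k σ := σ (vert k 0)
  v0_mem k σ := ⟨_, rfl⟩
  dl k := dl k
  dd := dl_dl
  loc := dl_loc

/-- all singular simplices -/
abbrev TS (X : Type u) [TopologicalSpace X] : Type u := Σ p : ℕ, Sing X p

/-- component of a total cochain -/
def cp (p : ℕ) : (TS X → F2) →ₗ[F2] Co X p where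
  toFun c τ := c ⟨p, τ⟩
  map_add' _ _ := rfl
  map_smul' _ _ := rfl

/-- total coboundary, as a function -/
noncomputable def tdlFun (c : TS X → F2) : TS X → F2
  | ⟨0, _⟩ => 0
  | ⟨p + 1, σ⟩ => dl p (cp p c) σ

/-- total coboundary -/
noncomputable def tdl : (TS X → F2) →ₗ[F2] (TS X → F2) where
  toFun := tdlFun
  map_add' a b := by
    funext ⟨p, σ⟩
    cases p with
    | zero => change (0 : F2) = 0 + 0; rw [add_zero]
    | succ p => change dl p (cp p (a + b)) σ = dl p (cp p a) σ + dl p (cp p b) σ; rw [map_add, map_add]; rfl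
  map_smul' r a := by
    funext ⟨p, σ⟩
    cases p with
    | zero => change (0 : F2) = r • 0; rw [smul_zero]
    | succ p => change dl p (cp p (r • a)) σ = r • dl p (cp p a) σ; rw [map_smul, map_smul]; rfl

theorem cp_tdl_zero (c : TS X → F2) : cp 0 (tdl c) = 0 := rfl

theorem cp_tdl_succ (p : ℕ) (c : TS X → F2) : cp (p + 1) (tdl c) = dl p (cp p c) := rfl

theorem tot_ext {a b : TS X → F2} (h : ∀ p, cp p a = cp p b) : a = b := by
  funext ⟨p, σ⟩
  exact congrFun (h p) σ

theorem tdl_tdl (c : TS X → F2) : tdl (tdl c) = 0 := by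
  apply tot_ext
  intro p
  rcases p with _ | _ | p
  · rfl
  · rw [cp_tdl_succ, cp_tdl_zero, map_zero, map_zero]
  · rw [cp_tdl_succ, cp_tdl_succ, dl_dl, map_zero]

theorem tdl_loc (c : TS X → F2) (U : Set X) (h : ∀ s : TS X, range s.2 ⊆ U → c s = 0)
    (s : TS X) (hs : range s.2 ⊆ U) : tdl c s = 0 := by
  obtain ⟨p, σ⟩ := s
  cases p with
  | zero => rfl
  | succ p => exact dl_loc p (cp p c) U (fun τ hτ => h ⟨p, τ⟩ hτ) σ hs

/-- the total complex -/
noncomputable abbrev Tot (X : Type u) [TopologicalSpace X] : CC X where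
  S _ := TS X
  rg _ s := range s.2
  v0 _ s := s.2 (vert s.1 0)
  v0_mem _ s := ⟨_, rfl⟩
  dl _ := tdl
  dd _ := tdl_tdl
  loc _ := tdl_loc

open Classical in
/-- inclusion of cochains of degree `p` in the total complex -/
noncomputable def inc (p : ℕ) : Co X p →ₗ[F2] (TS X → F2) where
  toFun a := fun s => if h : s.1 = p then a (h ▸ s.2) else 0
  map_add' a b := by
    funext s
    simp only [Pi.add_apply]
    split_ifs <;> simp
  map_smul' r a := by
    funext s
    simp only [Pi.smul_apply, RingHom.id_apply]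
    split_ifs <;> simp

theorem cp_inc (p : ℕ) (a : Co X p) : cp p (inc p a) = a := by
  funext σ
  change (if h : p = p then a (h ▸ σ) else 0) = a σ
  rw [dif_pos rfl]

theorem cp_inc_ne {p q : ℕ} (h : q ≠ p) (a : Co X p) : cp q (inc p a) = 0 := by
  funext σ
  change (if h : q = p then a (h ▸ σ) else 0) = 0
  rw [dif_neg h]

theorem tdl_inc (p : ℕ) (a : Co X p) : tdl (inc p a) = inc (p + 1) (dl p a) := by
  apply tot_ext
  intro q
  by_cases h : q = p + 1
  · subst h
    rw [cp_tdl_succ, cp_inc, cp_inc]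
  · rw [cp_inc_ne h]
    cases q with
    | zero => rfl
    | succ q => rw [cp_tdl_succ, cp_inc_ne (by omega), map_zero]

theorem cp_mem_N {p : ℕ} {A : Set X} {c : TS X → F2} (h : c ∈ (Tot X).N 0 A) :
    cp p c ∈ (Gr X).N p A := by
  intro x hx
  obtain ⟨U, hU, hxU, h1⟩ := h x hx
  exact ⟨U, hU, hxU, fun σ hσ => h1 ⟨p, σ⟩ hσ⟩

theorem inc_mem_N {p : ℕ} {A : Set X} {a : Co X p} (h : a ∈ (Gr X).N p A) :
    inc p a ∈ (Tot X).N 0 A := by
  intro x hx
  obtain ⟨U, hU, hxU, h1⟩ := h x hx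
  refine ⟨U, hU, hxU, ?_⟩
  rintro ⟨q, σ⟩ hσ
  by_cases hq : q = p
  · subst hq
    exact (congrFun (cp_inc q a) σ).trans (h1 σ hσ)
  · exact congrFun (cp_inc_ne hq a) σ

/-- the front face of dimension `p` of an `r`-simplex -/
def front {p q r : ℕ} (h : p + q = r) (i : Fin (p + 1)) : Fin (r + 1) := ⟨i, by omega⟩

/-- the back face of dimension `q` of an `r`-simplex -/
def back {p q r : ℕ} (h : p + q = r) (i : Fin (q + 1)) : Fin (r + 1) := ⟨p + i, by omega⟩

/-- precomposition of a singular simplex with the affine map given by a map of vertices -/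
noncomputable def sub {r p : ℕ} (f : Fin (p + 1) → Fin (r + 1)) (σ : Sing X r) : Sing X p :=
  σ.comp ⟨stdSimplex.map f, stdSimplex.continuous_map _⟩

/-- the cup product -/
noncomputable def cup {p q r : ℕ} (h : p + q = r) :
    Co X p →ₗ[F2] Co X q →ₗ[F2] Co X r :=
  LinearMap.mk₂ F2 (fun a b σ => a (sub (front h) σ) * b (sub (back h) σ))
    (fun a a' b => by funext σ; exact add_mul _ _ _)
    (fun r a b => by funext σ; exact mul_assoc _ _ _)
    (fun a b b' => by funext σ; exact mul_add _ _ _)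
    (fun r a b => by funext σ; exact mul_left_comm _ _ _)

theorem cup_apply {p q r : ℕ} (h : p + q = r) (a : Co X p) (b : Co X q) (σ : Sing X r) :
    cup h a b σ = a (sub (front h) σ) * b (sub (back h) σ) := rfl

theorem sub_sub_lz {r m n : ℕ} (f : Fin (n + 1) → Fin (m + 1)) (g : Fin (m + 1) → Fin (r + 1))
    (σ : Sing X r) : sub f (sub g σ) = sub (g ∘ f) σ := by
  refine ContinuousMap.ext fun x => ?_
  change σ (stdSimplex.map g (stdSimplex.map f x)) = σ (stdSimplex.map (g ∘ f) x)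
  congr 1
  exact stdSimplex.map_comp_apply f g x

theorem sface_sub_lz {r : ℕ} (i : Fin (r + 2)) (σ : Sing X (r + 1)) :
    sface r i σ = sub (r := r + 1) i.succAbove σ := rfl

/-- vertex maps of the front part -/
def uu_lz {p q r : ℕ} (h : p + q = r) (i : ℕ) : Fin (p + 1) → Fin (r + 1 + 1) :=
  fun j => if (j : ℕ) < i then ⟨j, by omega⟩ else ⟨j + 1, by omega⟩

/-- vertex maps of the back part -/
def ww_lz {p q r : ℕ} (h : p + q = r) (i : ℕ) : Fin (q + 1) → Fin (r + 1 + 1) :=
  fun j => if p + (j : ℕ) < i then ⟨p + j, by omega⟩ else ⟨p + j + 1, by omega⟩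

theorem leibniz {p q r : ℕ} (h : p + q = r) (a : Co X p) (b : Co X q) :
    dl r (cup h a b) = cup (show p + 1 + q = r + 1 by omega) (dl p a) b +
      cup (show p + (q + 1) = r + 1 by omega) a (dl q b) := by
  funext σ
  rw [dl_apply, Pi.add_apply, cup_apply, cup_apply, dl_apply, dl_apply, Finset.sum_mul,
    Finset.mul_sum]
  have e1 : ∑ i : Fin (r + 2), cup h a b (sface r i σ) =
      ∑ i ∈ Finset.range (r + 2), a (sub (uu_lz h i) σ) * b (sub (ww_lz h i) σ) := by
    rw [Finset.sum_range]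
    refine Finset.sum_congr rfl fun i _ => ?_
    rw [cup_apply, sface_sub_lz, sub_sub_lz, sub_sub_lz]
    have f1 : i.succAbove ∘ front h = uu_lz h i := by
      funext j
      apply Fin.ext
      simp only [Function.comp, uu_lz, front, Fin.succAbove, Fin.lt_def]
      split_ifs <;> simp_all
    have f2 : i.succAbove ∘ back h = ww_lz h i := by
      funext j
      apply Fin.ext
      simp only [Function.comp, ww_lz, back, Fin.succAbove, Fin.lt_def]
      split_ifs <;> simp_all
    rw [f1, f2]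
  have e2 : ∑ i : Fin (p + 2), a (sface p i (sub (front (show p + 1 + q = r + 1 by omega)) σ)) *
        b (sub (back (show p + 1 + q = r + 1 by omega)) σ) =
      ∑ i ∈ Finset.range (p + 2), a (sub (uu_lz h i) σ) *
        b (sub (back (show p + 1 + q = r + 1 by omega)) σ) := by
    rw [Finset.sum_range]
    refine Finset.sum_congr rfl fun i _ => ?_
    rw [sface_sub_lz, sub_sub_lz]
    have f1 : front (show p + 1 + q = r + 1 by omega) ∘ i.succAbove = uu_lz h i := by
      funext j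
      apply Fin.ext
      simp only [Function.comp, uu_lz, front, Fin.succAbove, Fin.lt_def]
      split_ifs <;> simp_all
    rw [f1]
  have e3 : ∑ i : Fin (q + 2), a (sub (front (show p + (q + 1) = r + 1 by omega)) σ) *
        b (sface q i (sub (back (show p + (q + 1) = r + 1 by omega)) σ)) =
      ∑ i ∈ Finset.range (q + 2), a (sub (front (show p + (q + 1) = r + 1 by omega)) σ) *
        b (sub (ww_lz h (p + i)) σ) := by
    rw [Finset.sum_range]
    refine Finset.sum_congr rfl fun i _ => ?_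
    rw [sface_sub_lz, sub_sub_lz]
    have f1 : back (show p + (q + 1) = r + 1 by omega) ∘ i.succAbove = ww_lz h (p + i) := by
      funext j
      apply Fin.ext
      simp only [Function.comp, ww_lz, back, Fin.succAbove, Fin.lt_def]
      split_ifs <;> simp_all <;> omega
    rw [f1]
  rw [e1, e2, e3]
  have g1 : ∀ i, p < i → uu_lz h i = front (show p + (q + 1) = r + 1 by omega) := by
    intro i hi
    funext j
    apply Fin.ext
    have := j.2
    simp only [uu_lz, front]
    rw [if_pos (by omega)]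
  have g2 : ∀ i, i ≤ p → ww_lz h i = back (show p + 1 + q = r + 1 by omega) := by
    intro i hi
    funext j
    apply Fin.ext
    simp only [ww_lz, back]
    rw [if_neg (by omega)]
    simp only []
    omega
  rw [show r + 2 = (p + 1) + (q + 1) by omega, Finset.sum_range_add, Finset.sum_range_succ _ (p + 1),
    Finset.sum_range_succ' _ (q + 1), g1 (p + 1) (by omega), g2 (p + 0) (by omega)]
  have e4 : ∑ i ∈ Finset.range (p + 1), a (sub (uu_lz h i) σ) * b (sub (ww_lz h i) σ) =
      ∑ i ∈ Finset.range (p + 1), a (sub (uu_lz h i) σ) *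
        b (sub (back (show p + 1 + q = r + 1 by omega)) σ) := by
    refine Finset.sum_congr rfl fun i hi => ?_
    rw [g2 i (by have := Finset.mem_range.1 hi; omega)]
  have e5 : ∑ i ∈ Finset.range (q + 1), a (sub (uu_lz h (p + 1 + i)) σ) *
        b (sub (ww_lz h (p + 1 + i)) σ) =
      ∑ i ∈ Finset.range (q + 1), a (sub (front (show p + (q + 1) = r + 1 by omega)) σ) *
        b (sub (ww_lz h (p + (i + 1))) σ) := by
    refine Finset.sum_congr rfl fun i hi => ?_
    rw [g1 (p + 1 + i) (by omega), show p + 1 + i = p + (i + 1) by omega]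
  rw [e4, e5]
  generalize (∑ i ∈ Finset.range (p + 1), a (sub (uu_lz h i) σ) *
        b (sub (back (show p + 1 + q = r + 1 by omega)) σ)) = A
  generalize (∑ i ∈ Finset.range (q + 1), a (sub (front (show p + (q + 1) = r + 1 by omega)) σ) *
        b (sub (ww_lz h (p + (i + 1))) σ)) = B
  generalize a (sub (front (show p + (q + 1) = r + 1 by omega)) σ) *
        b (sub (back (show p + 1 + q = r + 1 by omega)) σ) = D
  revert A B D
  decide

theorem range_sub {r p : ℕ} (f : Fin (p + 1) → Fin (r + 1)) (σ : Sing X r) :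
    range (sub f σ) ⊆ range σ := by
  rintro _ ⟨x, rfl⟩
  exact ⟨_, rfl⟩

theorem cup_mem_N {p q r : ℕ} (h : p + q = r) {A B : Set X} {a : Co X p} {b : Co X q}
    (ha : a ∈ (Gr X).N p A) (hb : b ∈ (Gr X).N q B) : cup h a b ∈ (Gr X).N r (A ∪ B) := by
  rintro x (hx | hx)
  · obtain ⟨U, hU, hxU, h1⟩ := ha x hx
    refine ⟨U, hU, hxU, fun σ hσ => ?_⟩
    have : a (sub (front h) σ) = 0 := h1 _ ((range_sub _ σ).trans hσ)
    rw [cup_apply, this, zero_mul]
  · obtain ⟨U, hU, hxU, h1⟩ := hb x hx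
    refine ⟨U, hU, hxU, fun σ hσ => ?_⟩
    have : b (sub (back h) σ) = 0 := h1 _ ((range_sub _ σ).trans hσ)
    rw [cup_apply, this, mul_zero]

/-- the total pairing given by a functional on cochains of degree `n` -/
noncomputable def pairing (n : ℕ) (I : Co X n →ₗ[F2] F2) :
    (TS X → F2) →ₗ[F2] (TS X → F2) →ₗ[F2] F2 :=
  ∑ p : Fin (n + 1), (LinearMap.compr₂ (cup (X := X) (show (p : ℕ) + (n - p) = n by omega)) I).compl₁₂
    (cp (p : ℕ)) (cp (n - p))

theorem pairing_apply (n : ℕ) (I : Co X n →ₗ[F2] F2) (a b : TS X → F2) :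
    pairing n I a b = ∑ p : Fin (n + 1),
      I (cup (show (p : ℕ) + (n - p) = n by omega) (cp (p : ℕ) a) (cp (n - p) b)) := by
  simp only [pairing, LinearMap.sum_apply]
  rfl

theorem pairing_dl_cg {p p' q q' r : ℕ} (hp : p = p') (hq : q = q') (h : p + q = r)
    (h' : p' + q' = r) (I : Co X r →ₗ[F2] F2) (a b : TS X → F2) :
    I (cup h (cp p a) (cp q b)) = I (cup h' (cp p' a) (cp q' b)) := by
  subst hp hq
  rfl

theorem pairing_dl_z1 {p q r : ℕ} (hq : q = 0) (h : p + q = r)
    (I : Co X r →ₗ[F2] F2) (a b : TS X → F2) :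
    I (cup h (cp p a) (cp q (tdl b))) = 0 := by
  subst hq
  rw [cp_tdl_zero, map_zero, map_zero]

theorem pairing_dl_z2 {p q r : ℕ} (hp : p = 0) (h : p + q = r)
    (I : Co X r →ₗ[F2] F2) (a b : TS X → F2) :
    I (cup h (cp p (tdl a)) (cp q b)) = 0 := by
  subst hp
  rw [cp_tdl_zero, map_zero, LinearMap.zero_apply, map_zero]

theorem pairing_dl_term {p q m : ℕ} (h : p + q = m) (I : Co X (m + 1) →ₗ[F2] F2)
    (hI : ∀ c : Co X m, I (dl m c) = 0) (a b : TS X → F2) :
    I (cup (show p + (q + 1) = m + 1 by omega) (cp p a) (cp (q + 1) (tdl b)))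
      = I (cup (show p + 1 + q = m + 1 by omega) (cp (p + 1) (tdl a)) (cp q b)) := by
  have h1 := hI (cup h (cp p a) (cp q b))
  rw [leibniz, map_add] at h1
  rw [cp_tdl_succ, cp_tdl_succ]
  have h2 : ∀ x y : F2, x + y = 0 → y = x := by decide
  exact h2 _ _ h1

theorem pairing_dl_add {A B C D E : F2} (hB : B = 0) (hC : C = 0) (h1 : A = E) (h2 : D = E) :
    A + B = C + D := by
  rw [hB, hC, h1, h2, add_zero, zero_add]

theorem pairing_dl {m : ℕ} (I : Co X (m + 1) →ₗ[F2] F2) (hI : ∀ c : Co X m, I (dl m c) = 0)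
    (a b : TS X → F2) : pairing (m + 1) I a (tdl b) = pairing (m + 1) I (tdl a) b := by
  rw [pairing_apply, pairing_apply]
  refine (Fin.sum_univ_castSucc _).trans ?_
  refine Eq.trans ?_ (Fin.sum_univ_succ _).symm
  refine pairing_dl_add (E := ∑ p : Fin (m + 1), I (cup (show (p : ℕ) + ((m - p) + 1) = m + 1 by
    omega) (cp (p : ℕ) a) (cp ((m - p) + 1) (tdl b)))) ?_ ?_ ?_ ?_
  · exact pairing_dl_z1 (Nat.sub_self (m + 1)) _ I a b
  · exact pairing_dl_z2 rfl _ I a b
  · refine Finset.sum_congr rfl fun p _ => ?_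
    refine pairing_dl_cg rfl ?_ _ _ I a (tdl b)
    simp only [Fin.val_castSucc]
    omega
  · refine Finset.sum_congr rfl fun p _ => ?_
    refine Eq.trans ?_ (pairing_dl_term (show (p : ℕ) + (m - p) = m by omega) I hI a b).symm
    refine pairing_dl_cg (Fin.val_succ p) ?_ _ _ I (tdl a) b
    simp only [Fin.val_succ]
    omega

/-- the duality map -/
noncomputable def Phi (n : ℕ) (I : (Gr X).D n) : (TS X → F2) →ₗ[F2] (Tot X).D 0 :=
  LinearMap.codRestrict ((Tot X).D 0) (pairing n I.1) (by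
    intro a b hb
    rw [pairing_apply]
    refine Finset.sum_eq_zero fun p _ => I.2 _ ?_
    have h1 := cup_mem_N (X := X) (show (p : ℕ) + (n - p) = n by omega) (A := ∅) (B := univ)
      (a := cp (p : ℕ) a) (b := cp (n - p) b) ((Gr X).N_empty _ _) (cp_mem_N hb)
    rwa [empty_union] at h1)

theorem Phi_apply (n : ℕ) (I : (Gr X).D n) (a b : TS X → F2) :
    (Phi n I a).1 b = pairing n I.1 a b := rfl

/-- boundary of total functionals -/
noncomputable def tbd : (Tot X).D 0 →ₗ[F2] (Tot X).D 0 where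
  toFun φ := ⟨φ.1.comp tdl, fun _ hc => φ.2 _ ((Tot X).dl_N hc)⟩
  map_add' _ _ := rfl
  map_smul' _ _ := rfl

theorem tbd_apply (φ : (Tot X).D 0) (c : TS X → F2) : (tbd φ).1 c = φ.1 (tdl c) := rfl

theorem tbd_tbd (φ : (Tot X).D 0) : tbd (tbd φ) = 0 := by
  apply Subtype.ext
  apply LinearMap.ext
  intro c
  change φ.1 (tdl (tdl c)) = 0
  rw [tdl_tdl, map_zero]

theorem Phi_dl {m : ℕ} (I : (Gr X).D (m + 1)) (hI : ∀ c : Co X m, I.1 (dl m c) = 0)
    (a : TS X → F2) : tbd (Phi (m + 1) I a) = Phi (m + 1) I (tdl a) := by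
  apply Subtype.ext
  apply LinearMap.ext
  intro b
  exact pairing_dl I.1 hI a b

theorem Phi_N {n : ℕ} (I : (Gr X).D n) {A : Set X} {a : TS X → F2} (h : a ∈ (Tot X).N 0 A) :
    Phi n I a ∈ (Tot X).Z 0 A := by
  obtain ⟨U, hU, hAU, h1⟩ := (Tot X).N_nhd h
  refine ⟨U, hU, hAU, fun b hb => ?_⟩
  rw [Phi_apply, pairing_apply]
  refine Finset.sum_eq_zero fun p _ => I.2 _ ?_
  have h1 := cup_mem_N (X := X) (show (p : ℕ) + (n - p) = n by omega) (A := U) (B := Uᶜ)
    (a := cp (p : ℕ) a) (b := cp (n - p) b) (cp_mem_N h1) (cp_mem_N hb)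
  rwa [union_compl_self] at h1

/-- the cone of the duality map -/
noncomputable def cone [CompletelyNormalSpace X] [T4Space X] {m : ℕ} (I : (Gr X).D (m + 1))
    (hI : ∀ c : Co X m, I.1 (dl m c) = 0) : HC X where
  T _ := (TS X → F2) × (Tot X).D 0
  d _ := (LinearMap.prod (tdl.comp (LinearMap.fst F2 _ _))
    (tbd.comp (LinearMap.snd F2 _ _) +
      (Phi (m + 1) I).comp (LinearMap.fst F2 _ _))).toAddMonoidHom
  Z _ A := (((Tot X).N 0 A).prod ((Tot X).Z 0 A)).toAddSubgroup
  d_Z := by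
    rintro k A ⟨a, φ⟩ ⟨h1, h2⟩
    refine ⟨(Tot X).dl_N h1, ?_⟩
    refine Submodule.add_mem _ ?_ (Phi_N I h1)
    obtain ⟨U, hU, hAU, h⟩ := h2
    exact ⟨U, hU, hAU, fun c hc => h _ ((Tot X).dl_N hc)⟩
  dd := by
    rintro k ⟨a, φ⟩
    apply Prod.ext
    · exact tdl_tdl a
    · change tbd (tbd φ + Phi (m + 1) I a) + Phi (m + 1) I (tdl a) = 0
      rw [map_add, Phi_dl I hI, tbd_tbd, zero_add]
      apply Subtype.ext
      apply LinearMap.ext
      intro c
      change (Phi (m + 1) I (tdl a)).1 c + (Phi (m + 1) I (tdl a)).1 c = 0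
      exact CharTwo.add_self_eq_zero _
  mono := by
    rintro k A B hAB ⟨a, φ⟩ ⟨h1, U, hU, hBU, h⟩
    exact ⟨(Tot X).N_mono hAB h1, U, hU, hAB.trans hBU, h⟩
  union := by
    rintro k A B _ _ ⟨a, φ⟩ ⟨h1, h2⟩ ⟨h3, h4⟩
    exact ⟨(Tot X).N_union h1 h3, (Tot X).Z_union h2 h4⟩
  inter := by
    rintro k A B hA hB ⟨a, φ⟩ ⟨h1, h2⟩
    obtain ⟨a1, h3, a2, h4, e1⟩ := (Tot X).N_inter_closed hA hB h1
    obtain ⟨φ1, h5, φ2, h6, e2⟩ := (Tot X).Z_inter hA hB h2
    exact ⟨(a1, φ1), ⟨h3, h5⟩, (a2, φ2), ⟨h4, h6⟩, Prod.ext e1 e2⟩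
  nhd := by
    rintro k A _ ⟨a, φ⟩ ⟨h1, U, hU, hAU, h⟩
    obtain ⟨V, hV, hAV, h3⟩ := (Tot X).N_nhd h1
    exact ⟨U ∩ V, hU.inter hV, subset_inter hAU hAV, fun B hB =>
      ⟨(Tot X).N_mono (hB.trans inter_subset_right) h3, U, hU, hB.trans inter_subset_left, h⟩⟩
  empty := by
    rintro k ⟨a, φ⟩
    refine ⟨(Tot X).N_empty _ _, ∅, isOpen_empty, subset_rfl, fun c hc => φ.2 c ?_⟩
    rwa [compl_empty] at hc

end Pool.Agent.Helper158.PD
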