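import Pool.Agent.Helper158.PD.Base

/-! Fundamental group and cohomology in degrees one and two. -/

set_option autoImplicit false
set_option linter.unusedVariables false

namespace Pool.Agent.Helper158.PD

open Set Topology
open Pool.Agent.Helper922.HB.Sc (Sing sface altd vert)

universe u v

variable {X : Type u} [TopologicalSpace X]

/-- the singular 1-simplex of a path -/
noncomputable def pathSx {x y : X} (γ : Path x y) : Sing X 1 :=
  ⟨fun t => γ.extend (t.1 1),
    γ.continuous_extend.comp ((continuous_apply (1 : Fin 2)).comp continuous_subtype_val)⟩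

theorem et_map_val {m n : ℕ} (f : Fin (m + 1) → Fin (n + 1)) (s : stdSimplex ℝ (Fin (m + 1)))
    (y : Fin (n + 1)) :
    (stdSimplex.map f s).1 y = ∑ x ∈ Finset.univ.filter (fun x => f x = y), s.1 x := by
  change FunOnFinite.linearMap ℝ ℝ f s.1 y = _
  rw [FunOnFinite.linearMap_apply_apply]

theorem et_coords (s : stdSimplex ℝ (Fin (1 + 1))) :
    ((stdSimplex.map (Fin.succAbove (n := 1 + 1) 2) s).1 1 = s.1 1 ∧
      (stdSimplex.map (Fin.succAbove (n := 1 + 1) 2) s).1 2 = 0) ∧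
    ((stdSimplex.map (Fin.succAbove (n := 1 + 1) 0) s).1 1 = s.1 0 ∧
      (stdSimplex.map (Fin.succAbove (n := 1 + 1) 0) s).1 2 = s.1 1) ∧
    ((stdSimplex.map (Fin.succAbove (n := 1 + 1) 1) s).1 1 = 0 ∧
      (stdSimplex.map (Fin.succAbove (n := 1 + 1) 1) s).1 2 = s.1 1) := by
  have e1 : Finset.univ.filter (fun x : Fin (1 + 1) => Fin.succAbove (n := 1 + 1) 2 x = 1) = {1} := by
    decide
  have e2 : Finset.univ.filter (fun x : Fin (1 + 1) => Fin.succAbove (n := 1 + 1) 2 x = 2) = ∅ := by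
    decide
  have e3 : Finset.univ.filter (fun x : Fin (1 + 1) => Fin.succAbove (n := 1 + 1) 0 x = 1) = {0} := by
    decide
  have e4 : Finset.univ.filter (fun x : Fin (1 + 1) => Fin.succAbove (n := 1 + 1) 0 x = 2) = {1} := by
    decide
  have e5 : Finset.univ.filter (fun x : Fin (1 + 1) => Fin.succAbove (n := 1 + 1) 1 x = 1) = ∅ := by
    decide
  have e6 : Finset.univ.filter (fun x : Fin (1 + 1) => Fin.succAbove (n := 1 + 1) 1 x = 2) = {1} := by
    decide
  refine ⟨⟨?_, ?_⟩, ⟨?_, ?_⟩, ⟨?_, ?_⟩⟩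
  · exact (et_map_val (m := 1) (n := 2) _ s 1).trans (by rw [e1, Finset.sum_singleton])
  · exact (et_map_val (m := 1) (n := 2) _ s 2).trans (by rw [e2, Finset.sum_empty])
  · exact (et_map_val (m := 1) (n := 2) _ s 1).trans (by rw [e3, Finset.sum_singleton])
  · exact (et_map_val (m := 1) (n := 2) _ s 2).trans (by rw [e4, Finset.sum_singleton])
  · exact (et_map_val (m := 1) (n := 2) _ s 1).trans (by rw [e5, Finset.sum_empty])
  · exact (et_map_val (m := 1) (n := 2) _ s 2).trans (by rw [e6, Finset.sum_singleton])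

theorem exists_tri {x y z : X} (γ : Path x y) (η : Path y z) : ∃ τ : Sing X 2,
    sface 1 2 τ = pathSx γ ∧ sface 1 0 τ = pathSx η ∧ sface 1 1 τ = pathSx (γ.trans η) := by
  have hc : Continuous (fun t : stdSimplex ℝ (Fin (2 + 1)) =>
      (γ.trans η).extend (t.1 2 + t.1 1 / 2)) := by
    apply (γ.trans η).continuous_extend.comp
    exact ((continuous_apply (2 : Fin 3)).comp continuous_subtype_val).add
      (((continuous_apply (1 : Fin 3)).comp continuous_subtype_val).div_const 2)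
  have key : ∀ u ∈ Icc (0 : ℝ) 1, (γ.trans η).extend u =
      if u ≤ 1 / 2 then γ.extend (2 * u) else η.extend (2 * u - 1) := by
    intro u hu
    rw [Path.extend_apply _ hu]
    rfl
  refine ⟨⟨fun t => (γ.trans η).extend (t.1 2 + t.1 1 / 2), hc⟩, ?_, ?_, ?_⟩
  · refine ContinuousMap.ext fun s => ?_
    obtain ⟨⟨h1, h2⟩, _, _⟩ := et_coords s
    have hs0 : 0 ≤ s.1 1 := s.2.1 1
    have hs1 : s.1 1 ≤ 1 := stdSimplex.le_one s 1
    change (γ.trans η).extend ((stdSimplex.map (Fin.succAbove (n := 1 + 1) 2) s).1 2 +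
      (stdSimplex.map (Fin.succAbove (n := 1 + 1) 2) s).1 1 / 2) = γ.extend (s.1 1)
    rw [h1, h2, zero_add, key _ ⟨by linarith, by linarith⟩, if_pos (by linarith)]
    congr 1
    ring
  · refine ContinuousMap.ext fun s => ?_
    obtain ⟨_, ⟨h1, h2⟩, _⟩ := et_coords s
    have hs0 : 0 ≤ s.1 1 := s.2.1 1
    have hs1 : s.1 1 ≤ 1 := stdSimplex.le_one s 1
    have hsum : s.1 0 + s.1 1 = 1 := stdSimplex.add_eq_one s
    change (γ.trans η).extend ((stdSimplex.map (Fin.succAbove (n := 1 + 1) 0) s).1 2 +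
      (stdSimplex.map (Fin.succAbove (n := 1 + 1) 0) s).1 1 / 2) = η.extend (s.1 1)
    rw [h1, h2]
    have e : s.1 1 + s.1 0 / 2 = (1 + s.1 1) / 2 := by
      have : s.1 0 = 1 - s.1 1 := by linarith
      rw [this]; ring
    rw [e, key _ ⟨by linarith, by linarith⟩]
    by_cases h : (1 + s.1 1) / 2 ≤ 1 / 2
    · have h0 : s.1 1 = 0 := by linarith
      rw [if_pos h, h0]
      have e2 : (2 : ℝ) * ((1 + 0) / 2) = 1 := by norm_num
      rw [e2, Path.extend_one, Path.extend_zero]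
    · rw [if_neg h]
      congr 1
      ring
  · refine ContinuousMap.ext fun s => ?_
    obtain ⟨_, _, ⟨h1, h2⟩⟩ := et_coords s
    change (γ.trans η).extend ((stdSimplex.map (Fin.succAbove (n := 1 + 1) 1) s).1 2 +
      (stdSimplex.map (Fin.succAbove (n := 1 + 1) 1) s).1 1 / 2) = (γ.trans η).extend (s.1 1)
    rw [h1, h2, zero_div, add_zero]

theorem sm_coord (i : Fin (1 + 2)) (s : stdSimplex ℝ (Fin (1 + 1))) (j : Fin (1 + 2)) :
    (stdSimplex.map i.succAbove s).1 j = ∑ k : Fin (1 + 1), if i.succAbove k = j then s.1 k else 0 := by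
  have h1 : (stdSimplex.map i.succAbove s).1 j =
      FunOnFinite.linearMap ℝ ℝ i.succAbove s.1 j := rfl
  rw [h1, FunOnFinite.linearMap_apply_apply, Finset.sum_filter]

theorem sm_vals (s : stdSimplex ℝ (Fin (1 + 1))) :
    ((stdSimplex.map (0 : Fin (1 + 2)).succAbove s).1 1 = s.1 0 ∧
      (stdSimplex.map (0 : Fin (1 + 2)).succAbove s).1 2 = s.1 1) ∧
    ((stdSimplex.map (1 : Fin (1 + 2)).succAbove s).1 1 = 0 ∧
      (stdSimplex.map (1 : Fin (1 + 2)).succAbove s).1 2 = s.1 1) ∧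
    ((stdSimplex.map (2 : Fin (1 + 2)).succAbove s).1 1 = s.1 1 ∧
      (stdSimplex.map (2 : Fin (1 + 2)).succAbove s).1 2 = 0) := by
  have h00 : (0 : Fin (1 + 2)).succAbove (0 : Fin (1 + 1)) = 1 := by decide
  have h01 : (0 : Fin (1 + 2)).succAbove (1 : Fin (1 + 1)) = 2 := by decide
  have h10 : (1 : Fin (1 + 2)).succAbove (0 : Fin (1 + 1)) = 0 := by decide
  have h11 : (1 : Fin (1 + 2)).succAbove (1 : Fin (1 + 1)) = 2 := by decide
  have h20 : (2 : Fin (1 + 2)).succAbove (0 : Fin (1 + 1)) = 0 := by decide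
  have h21 : (2 : Fin (1 + 2)).succAbove (1 : Fin (1 + 1)) = 1 := by decide
  have n1 : ¬ ((2 : Fin (1 + 2)) = 1) := by decide
  have n2 : ¬ ((1 : Fin (1 + 2)) = 2) := by decide
  have n3 : ¬ ((0 : Fin (1 + 2)) = 1) := by decide
  have n4 : ¬ ((0 : Fin (1 + 2)) = 2) := by decide
  refine ⟨⟨?_, ?_⟩, ⟨?_, ?_⟩, ?_, ?_⟩
  · rw [sm_coord, Fin.sum_univ_two, h00, h01, if_pos rfl, if_neg n1, add_zero]
  · rw [sm_coord, Fin.sum_univ_two, h00, h01, if_pos rfl, if_neg n2, zero_add]
  · rw [sm_coord, Fin.sum_univ_two, h10, h11, if_neg n3, if_neg n1, add_zero]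
  · rw [sm_coord, Fin.sum_univ_two, h10, h11, if_neg n4, if_pos rfl, zero_add]
  · rw [sm_coord, Fin.sum_univ_two, h20, h21, if_neg n3, if_pos rfl, zero_add]
  · rw [sm_coord, Fin.sum_univ_two, h20, h21, if_neg n4, if_neg n2, add_zero]

theorem exists_sq {x y : X} {γ γ' : Path x y} (h : γ.Homotopic γ') : ∃ (τ₁ τ₂ : Sing X 2),
    sface 1 2 τ₁ = pathSx γ ∧ sface 1 0 τ₁ = pathSx (Path.refl y) ∧
    sface 1 2 τ₂ = pathSx (Path.refl x) ∧ sface 1 0 τ₂ = pathSx γ' ∧
    sface 1 1 τ₁ = sface 1 1 τ₂ := by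
  obtain ⟨F⟩ := h
  obtain ⟨F', hF'⟩ : ∃ F' : ℝ × ℝ → X, F' = fun p =>
    F (Set.projIcc 0 1 zero_le_one p.1, Set.projIcc 0 1 zero_le_one p.2) := ⟨_, rfl⟩
  have hFc : Continuous F' := by
    rw [hF']
    exact F.continuous.comp ((continuous_projIcc.comp continuous_fst).prodMk
      (continuous_projIcc.comp continuous_snd))
  have hp0 : Set.projIcc (0 : ℝ) 1 zero_le_one 0 = (0 : unitInterval) := Set.projIcc_left _
  have hp1 : Set.projIcc (0 : ℝ) 1 zero_le_one 1 = (1 : unitInterval) := Set.projIcc_right _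
  have hF0 : ∀ s : ℝ, F' (0, s) = γ.extend s := by
    intro s
    rw [hF']
    show F (Set.projIcc 0 1 zero_le_one 0, Set.projIcc 0 1 zero_le_one s) = _
    rw [hp0]
    exact F.apply_zero _
  have hF1 : ∀ s : ℝ, F' (1, s) = γ'.extend s := by
    intro s
    rw [hF']
    show F (Set.projIcc 0 1 zero_le_one 1, Set.projIcc 0 1 zero_le_one s) = _
    rw [hp1]
    exact F.apply_one _
  have hFx : ∀ t : ℝ, F' (t, 0) = x := by
    intro t
    rw [hF']
    show F (Set.projIcc 0 1 zero_le_one t, Set.projIcc 0 1 zero_le_one 0) = _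
    rw [hp0]
    exact F.source _
  have hFy : ∀ t : ℝ, F' (t, 1) = y := by
    intro t
    rw [hF']
    show F (Set.projIcc 0 1 zero_le_one t, Set.projIcc 0 1 zero_le_one 1) = _
    rw [hp1]
    exact F.target _
  have hc1 : Continuous fun t : stdSimplex ℝ (Fin (2 + 1)) => F' (t.1 2, t.1 1 + t.1 2) :=
    hFc.comp ((((continuous_apply (2 : Fin 3)).comp continuous_subtype_val)).prodMk
      (((continuous_apply (1 : Fin 3)).comp continuous_subtype_val).add
        ((continuous_apply (2 : Fin 3)).comp continuous_subtype_val)))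
  have hc2 : Continuous fun t : stdSimplex ℝ (Fin (2 + 1)) => F' (t.1 1 + t.1 2, t.1 2) :=
    hFc.comp ((((continuous_apply (1 : Fin 3)).comp continuous_subtype_val).add
        ((continuous_apply (2 : Fin 3)).comp continuous_subtype_val)).prodMk
        ((continuous_apply (2 : Fin 3)).comp continuous_subtype_val))
  have hsum : ∀ s : stdSimplex ℝ (Fin (1 + 1)), s.1 0 + s.1 1 = 1 := by
    intro s
    exact stdSimplex.add_eq_one s
  refine ⟨⟨_, hc1⟩, ⟨_, hc2⟩, ?_, ?_, ?_, ?_, ?_⟩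
  · ext s
    obtain ⟨⟨a1, a2⟩, ⟨a3, a4⟩, a5, a6⟩ := sm_vals s
    show F' ((stdSimplex.map (2 : Fin (1 + 2)).succAbove s).1 2,
      (stdSimplex.map (2 : Fin (1 + 2)).succAbove s).1 1 +
        (stdSimplex.map (2 : Fin (1 + 2)).succAbove s).1 2) = γ.extend (s.1 1)
    rw [a5, a6, add_zero, hF0]
  · ext s
    obtain ⟨⟨a1, a2⟩, ⟨a3, a4⟩, a5, a6⟩ := sm_vals s
    show F' ((stdSimplex.map (0 : Fin (1 + 2)).succAbove s).1 2,
      (stdSimplex.map (0 : Fin (1 + 2)).succAbove s).1 1 +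
        (stdSimplex.map (0 : Fin (1 + 2)).succAbove s).1 2) = y
    rw [a1, a2, hsum, hFy]
  · ext s
    obtain ⟨⟨a1, a2⟩, ⟨a3, a4⟩, a5, a6⟩ := sm_vals s
    show F' ((stdSimplex.map (2 : Fin (1 + 2)).succAbove s).1 1 +
        (stdSimplex.map (2 : Fin (1 + 2)).succAbove s).1 2,
        (stdSimplex.map (2 : Fin (1 + 2)).succAbove s).1 2) = x
    rw [a5, a6, hFx]
  · ext s
    obtain ⟨⟨a1, a2⟩, ⟨a3, a4⟩, a5, a6⟩ := sm_vals s
    show F' ((stdSimplex.map (0 : Fin (1 + 2)).succAbove s).1 1 +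
        (stdSimplex.map (0 : Fin (1 + 2)).succAbove s).1 2,
        (stdSimplex.map (0 : Fin (1 + 2)).succAbove s).1 2) = γ'.extend (s.1 1)
    rw [a1, a2, hsum, hF1]
  · ext s
    obtain ⟨⟨a1, a2⟩, ⟨a3, a4⟩, a5, a6⟩ := sm_vals s
    show F' ((stdSimplex.map (1 : Fin (1 + 2)).succAbove s).1 2,
      (stdSimplex.map (1 : Fin (1 + 2)).succAbove s).1 1 +
        (stdSimplex.map (1 : Fin (1 + 2)).succAbove s).1 2) =
      F' ((stdSimplex.map (1 : Fin (1 + 2)).succAbove s).1 1 +
        (stdSimplex.map (1 : Fin (1 + 2)).succAbove s).1 2,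
        (stdSimplex.map (1 : Fin (1 + 2)).succAbove s).1 2)
    rw [a3, a4, zero_add]

theorem exists_cst (x : X) : ∃ τ : Sing X 2,
    sface 1 2 τ = pathSx (Path.refl x) ∧ sface 1 0 τ = pathSx (Path.refl x) ∧
      sface 1 1 τ = pathSx (Path.refl x) := by
  have h : ∀ u : ℝ, (Path.refl x).extend u = x := fun u => rfl
  refine ⟨⟨fun _ => x, continuous_const⟩, ?_, ?_, ?_⟩ <;>
  · refine ContinuousMap.ext fun s => ?_
    exact (h (s.1 1)).symm

/-- the point with second barycentric coordinate `s` -/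
noncomputable def xpPt (s : unitInterval) : stdSimplex ℝ (Fin 2) :=
  ⟨![1 - (s : ℝ), (s : ℝ)], by
    constructor
    · intro i
      fin_cases i
      · simpa using s.2.2
      · simpa using s.2.1
    · simp [Fin.sum_univ_two]⟩

theorem xpPt_cont : Continuous xpPt := by
  refine Continuous.subtype_mk ?_ _
  refine continuous_pi fun i => ?_
  fin_cases i
  · simp only [Fin.zero_eta, Matrix.cons_val_zero]
    fun_prop
  · simp only [Fin.mk_one, Matrix.cons_val_one]
    fun_prop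

theorem xpPt_one (s : unitInterval) : (xpPt s).1 1 = (s : ℝ) := rfl

theorem xpPt_mem (t : stdSimplex ℝ (Fin 2)) : t.1 1 ∈ unitInterval := by
  have h := t.2.2
  rw [Fin.sum_univ_two] at h
  have h0 := t.2.1 0
  have h1 := t.2.1 1
  exact ⟨h1, by linarith⟩

theorem xpPt_eq (t : stdSimplex ℝ (Fin 2)) : xpPt ⟨t.1 1, xpPt_mem t⟩ = t := by
  apply Subtype.ext
  funext i
  have h := t.2.2
  rw [Fin.sum_univ_two] at h
  fin_cases i
  · show 1 - t.1 1 = t.1 0
    linarith
  · rfl

theorem xp_apply {x y : X} (γ : Path x y) (s : unitInterval) :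
    pathSx γ (xpPt s) = γ s := by
  show γ.extend ((xpPt s).1 1) = γ s
  rw [xpPt_one]
  exact γ.extend_apply s.2

theorem exists_path (σ : Sing X 1) : ∃ (x y : X) (γ : Path x y), σ = pathSx γ := by
  refine ⟨σ (xpPt 0), σ (xpPt 1), ⟨⟨fun s => σ (xpPt s), σ.continuous.comp xpPt_cont⟩, rfl, rfl⟩, ?_⟩
  ext t
  conv_lhs => rw [← xpPt_eq t]
  conv_rhs => rw [← xpPt_eq t]
  rw [xp_apply]
  rfl

/-- the standard path in the 1-simplex -/
noncomputable def sgp : Path (stdSimplex.vertex (S := ℝ) (0 : Fin 2)) (stdSimplex.vertex (S := ℝ) (1 : Fin 2)) where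
  toFun t := ⟨![1 - (t : ℝ), (t : ℝ)], by
    refine ⟨fun i => ?_, ?_⟩
    · fin_cases i
      · simpa using t.2.2
      · simpa using t.2.1
    · rw [Fin.sum_univ_two]; simp⟩
  continuous_toFun := by
    refine Continuous.subtype_mk ?_ _
    refine continuous_pi fun i => ?_
    fin_cases i
    · change Continuous (fun a : unitInterval => 1 - (a : ℝ))
      exact continuous_const.sub continuous_subtype_val
    · change Continuous (fun a : unitInterval => (a : ℝ))
      exact continuous_subtype_val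
  source' := by
    apply Subtype.ext
    funext i
    fin_cases i <;> simp
  target' := by
    apply Subtype.ext
    funext i
    fin_cases i <;> simp

/-- an edge of the 2-simplex -/
noncomputable def edp (f : Fin 2 → Fin 3) {a b : Fin 3} (ha : a = f 0) (hb : b = f 1) :
    Path (stdSimplex.vertex (S := ℝ) a) (stdSimplex.vertex (S := ℝ) b) :=
  (sgp.map (stdSimplex.continuous_map f)).cast (by rw [stdSimplex.map_vertex, ha])
    (by rw [stdSimplex.map_vertex, hb])

theorem pathSx_of {x y : X} (p : Path x y) (σ : Sing X 1) (h : ∀ t, p t = σ (sgp t)) :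
    σ = pathSx p := by
  refine ContinuousMap.ext fun u => ?_
  have hu : u.1 1 ∈ Icc (0 : ℝ) 1 := mem_Icc_of_mem_stdSimplex u.2 1
  change σ u = p.extend (u.1 1)
  rw [Path.extend_apply p hu, h]
  congr 1
  apply Subtype.ext
  funext i
  have h2 : u.1 0 + u.1 1 = 1 := stdSimplex.add_eq_one u
  fin_cases i
  · change u.1 0 = 1 - u.1 1
    linarith
  · rfl

theorem exists_faces (τ : Sing X 2) : ∃ (x y z : X) (γ : Path x y) (η : Path y z) (θ : Path x z),
    sface 1 2 τ = pathSx γ ∧ sface 1 0 τ = pathSx η ∧ sface 1 1 τ = pathSx θ ∧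
      θ.Homotopic (γ.trans η) := by
  have hc : Convex ℝ (stdSimplex ℝ (Fin 3)) := convex_stdSimplex ℝ (Fin 3)
  have hne : (stdSimplex ℝ (Fin 3)).Nonempty := ⟨_, single_mem_stdSimplex ℝ 0⟩
  haveI : ContractibleSpace (stdSimplex ℝ (Fin 3)) := hc.contractibleSpace hne
  haveI : SimplyConnectedSpace (stdSimplex ℝ (Fin 3)) := inferInstance
  let γ0 : Path (stdSimplex.vertex (S := ℝ) (0 : Fin 3)) (stdSimplex.vertex (S := ℝ) (1 : Fin 3)) :=
    edp (2 : Fin 3).succAbove (by decide) (by decide)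
  let η0 : Path (stdSimplex.vertex (S := ℝ) (1 : Fin 3)) (stdSimplex.vertex (S := ℝ) (2 : Fin 3)) :=
    edp (0 : Fin 3).succAbove (by decide) (by decide)
  let θ0 : Path (stdSimplex.vertex (S := ℝ) (0 : Fin 3)) (stdSimplex.vertex (S := ℝ) (2 : Fin 3)) :=
    edp (1 : Fin 3).succAbove (by decide) (by decide)
  have h0 : θ0.Homotopic (γ0.trans η0) := SimplyConnectedSpace.paths_homotopic _ _
  refine ⟨_, _, _, γ0.map τ.continuous, η0.map τ.continuous, θ0.map τ.continuous, ?_, ?_, ?_, ?_⟩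
  · exact pathSx_of _ _ fun t => rfl
  · exact pathSx_of _ _ fun t => rfl
  · exact pathSx_of _ _ fun t => rfl
  · have := h0.map τ
    rw [Path.map_trans] at this
    exact this

theorem pathSx_inj {x y x' y' : X} {γ : Path x y} {γ' : Path x' y'} (h : pathSx γ = pathSx γ') :
    x = x' ∧ y = y' ∧ HEq γ γ' := by
  have hs : ∀ s : unitInterval, γ s = γ' s := by
    intro s
    rw [← xp_apply γ s, ← xp_apply γ' s, h]
  have hx : x = x' := by
    have := hs 0
    rwa [γ.source, γ'.source] at this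
  have hy : y = y' := by
    have := hs 1
    rwa [γ.target, γ'.target] at this
  subst hx
  subst hy
  refine ⟨rfl, rfl, heq_of_eq ?_⟩
  ext s
  exact hs s

theorem exl_aux [PathConnectedSpace X] (x₀ : X) {G : Type v} [Group G]
    (e : FundamentalGroup X x₀ ≃* G) : ∃ L : ∀ x y : X, Path.Homotopic.Quotient x y → G,
      (∀ (x y z : X) (p : Path.Homotopic.Quotient x y) (q : Path.Homotopic.Quotient y z),
        L x z (p.trans q) = L x y p * L y z q) ∧
      (∀ g : G, ∃ p : Path.Homotopic.Quotient x₀ x₀, L x₀ x₀ p = g) ∧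
      ∀ p q : Path.Homotopic.Quotient x₀ x₀, L x₀ x₀ p = L x₀ x₀ q → p = q := by
  classical
  let P0 : ∀ x : X, Path.Homotopic.Quotient x₀ x := fun x =>
    Path.Homotopic.Quotient.mk (PathConnectedSpace.somePath x₀ x)
  let P : ∀ x : X, Path.Homotopic.Quotient x₀ x := fun x => (P0 x₀).symm.trans (P0 x)
  have hP : P x₀ = Path.Homotopic.Quotient.refl x₀ := Path.Homotopic.Quotient.symm_trans _
  let l : ∀ x y : X, Path.Homotopic.Quotient x y → FundamentalGroup X x₀ := fun x y p =>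
    (P x).trans (p.trans (P y).symm)
  have hl : ∀ p : Path.Homotopic.Quotient x₀ x₀, l x₀ x₀ p = p := by
    intro p
    show (P x₀).trans (p.trans (P x₀).symm) = p
    have h1 : (Path.Homotopic.Quotient.refl x₀).symm = Path.Homotopic.Quotient.refl x₀ := by
      show Path.Homotopic.Quotient.symm (Path.Homotopic.Quotient.mk (Path.refl x₀)) = _
      rw [← Path.Homotopic.Quotient.mk_symm, Path.refl_symm]
      rfl
    rw [hP, h1, Path.Homotopic.Quotient.trans_refl, Path.Homotopic.Quotient.refl_trans]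
  have hm : ∀ (x y z : X) (p : Path.Homotopic.Quotient x y) (q : Path.Homotopic.Quotient y z),
      l x z (p.trans q) = l y z q * l x y p := by
    intro x y z p q
    show (P x).trans ((p.trans q).trans (P z).symm) =
      ((P x).trans (p.trans (P y).symm)).trans ((P y).trans (q.trans (P z).symm))
    rw [Path.Homotopic.Quotient.trans_assoc (P x), Path.Homotopic.Quotient.trans_assoc p q,
      Path.Homotopic.Quotient.trans_assoc p (P y).symm,
      ← Path.Homotopic.Quotient.trans_assoc (P y).symm (P y), Path.Homotopic.Quotient.symm_trans,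
      Path.Homotopic.Quotient.refl_trans]
  refine ⟨fun x y p => e (l x y p)⁻¹, ?_, ?_, ?_⟩
  · intro x y z p q
    show e (l x z (p.trans q))⁻¹ = e (l x y p)⁻¹ * e (l y z q)⁻¹
    rw [← map_mul, ← mul_inv_rev, hm]
  · intro g
    refine ⟨((e.symm g)⁻¹ : FundamentalGroup X x₀), ?_⟩
    show e (l x₀ x₀ ((e.symm g)⁻¹ : FundamentalGroup X x₀))⁻¹ = g
    have := hl ((e.symm g)⁻¹ : FundamentalGroup X x₀)
    rw [this, inv_inv, e.apply_symm_apply]
  · intro p q h
    have h1 : (l x₀ x₀ p)⁻¹ = (l x₀ x₀ q)⁻¹ := e.injective h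
    have h2 : l x₀ x₀ p = l x₀ x₀ q := inv_injective h1
    rw [hl, hl] at h2
    exact h2

/-- labelling of the 1-simplices by elements of the fundamental group -/
theorem exists_label [PathConnectedSpace X] (x₀ : X) {G : Type v} [Group G]
    (e : FundamentalGroup X x₀ ≃* G) : ∃ c : Sing X 1 → G,
      (∀ τ : Sing X 2, c (sface 1 1 τ) = c (sface 1 2 τ) * c (sface 1 0 τ)) ∧
      (∀ g : G, ∃ γ : Path x₀ x₀, c (pathSx γ) = g) ∧
      ∀ γ γ' : Path x₀ x₀, c (pathSx γ) = c (pathSx γ') → γ.Homotopic γ' := by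
  classical
  obtain ⟨L, hL, hs, hi⟩ := exl_aux x₀ e
  choose px py pg hp using fun σ : Sing X 1 => exists_path σ
  have key : ∀ (x y : X) (γ : Path x y) (x' y' : X) (γ' : Path x' y'), pathSx γ = pathSx γ' →
      L x y (Path.Homotopic.Quotient.mk γ) = L x' y' (Path.Homotopic.Quotient.mk γ') := by
    intro x y γ x' y' γ' h
    obtain ⟨h1, h2, h3⟩ := pathSx_inj h
    subst h1
    subst h2
    rw [eq_of_heq h3]
  have hc : ∀ (x y : X) (γ : Path x y),
      L (px (pathSx γ)) (py (pathSx γ)) (Path.Homotopic.Quotient.mk (pg (pathSx γ))) =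
        L x y (Path.Homotopic.Quotient.mk γ) := fun x y γ => key _ _ _ _ _ _ (hp (pathSx γ)).symm
  refine ⟨fun σ => L (px σ) (py σ) (Path.Homotopic.Quotient.mk (pg σ)), ?_, ?_, ?_⟩
  · intro τ
    obtain ⟨x, y, z, γ, η, θ, h2, h0, h1, hh⟩ := exists_faces τ
    beta_reduce
    rw [h2, h0, h1, hc, hc, hc, ← hL, ← Path.Homotopic.Quotient.mk_trans]
    congr 1
    exact Path.Homotopic.Quotient.eq.2 hh
  · intro g
    obtain ⟨p, hp'⟩ := hs g
    obtain ⟨γ, rfl⟩ := Path.Homotopic.Quotient.mk_surjective p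
    exact ⟨γ, (hc _ _ γ).trans hp'⟩
  · intro γ γ' h
    beta_reduce at h
    rw [hc, hc] at h
    exact Path.Homotopic.Quotient.exact (hi _ _ h)

theorem cocycle_trans {a : Co X 1} (ha : a ∈ Cy X 1) {x y z : X} (γ : Path x y) (η : Path y z) :
    a (pathSx (γ.trans η)) = a (pathSx γ) + a (pathSx η) := by
  have hc : ∀ τ : Sing X 2, a (sface 1 1 τ) = a (sface 1 2 τ) + a (sface 1 0 τ) := by
    intro τ
    have h0 : dl 1 a = 0 := LinearMap.mem_ker.1 ha
    have h : ∑ i : Fin 3, a (sface 1 i τ) = 0 := (dl_apply 1 a τ).symm.trans (congrFun h0 τ)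
    rw [Fin.sum_univ_three] at h
    have key : ∀ p q r : F2, p + q + r = 0 → q = r + p := by decide
    exact key _ _ _ h
  obtain ⟨τ, h2, h0, h1⟩ := exists_tri γ η
  have h := hc τ
  rw [h2, h0, h1] at h
  exact h

theorem cocycle_refl {a : Co X 1} (ha : a ∈ Cy X 1) (x : X) : a (pathSx (Path.refl x)) = 0 := by
  have h := cocycle_trans ha (Path.refl x) (Path.refl x)
  rw [Path.refl_trans_refl] at h
  have key : ∀ p : F2, p = p + p → p = 0 := by decide
  exact key _ h

theorem cocycle_homotopic {a : Co X 1} (ha : a ∈ Cy X 1) {x y : X} {γ γ' : Path x y}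
    (h : γ.Homotopic γ') : a (pathSx γ) = a (pathSx γ') := by
  have hc : ∀ τ : Sing X 2, a (sface 1 1 τ) = a (sface 1 2 τ) + a (sface 1 0 τ) := by
    intro τ
    have h0 : dl 1 a = 0 := LinearMap.mem_ker.1 ha
    have h : ∑ i : Fin 3, a (sface 1 i τ) = 0 := (dl_apply 1 a τ).symm.trans (congrFun h0 τ)
    rw [Fin.sum_univ_three] at h
    have key : ∀ p q r : F2, p + q + r = 0 → q = r + p := by decide
    exact key _ _ _ h
  obtain ⟨τ₁, τ₂, h12, h10, h22, h20, he⟩ := exists_sq h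
  have e1 := hc τ₁
  have e2 := hc τ₂
  rw [h12, h10, cocycle_refl ha, add_zero] at e1
  rw [h22, h20, cocycle_refl ha, zero_add] at e2
  rw [← e1, ← e2, he]

theorem eol_pathSx_one {x y : X} (γ : Path x y) :
    pathSx γ (stdSimplex.vertex (S := ℝ) (1 : Fin 2)) = y := by
  show γ.extend ((Pi.single (1 : Fin 2) (1 : ℝ) : Fin 2 → ℝ) 1) = y
  rw [Pi.single_eq_same]
  exact γ.extend_one

theorem eol_pathSx_zero {x y : X} (γ : Path x y) :
    pathSx γ (stdSimplex.vertex (S := ℝ) (0 : Fin 2)) = x := by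
  show γ.extend ((Pi.single (0 : Fin 2) (1 : ℝ) : Fin 2 → ℝ) 1) = x
  rw [Pi.single_eq_of_ne (by decide)]
  exact γ.extend_zero

theorem eol_symm {a : Co X 1} (ha : a ∈ Cy X 1) {x y : X} (γ : Path x y) :
    a (pathSx γ.symm) = a (pathSx γ) := by
  have h1 := cocycle_trans ha γ γ.symm
  have h2 : a (pathSx (Path.refl x)) = a (pathSx (γ.trans γ.symm)) :=
    cocycle_homotopic ha ⟨Path.Homotopy.reflTransSymm γ⟩
  rw [← h2, cocycle_refl ha] at h1
  have h3 : ∀ u v : F2, 0 = u + v → v = u := by decide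
  exact h3 _ _ h1

theorem exact_of_loops [PathConnectedSpace X] (x₀ : X) {a : Co X 1} (ha : a ∈ Cy X 1)
    (h : ∀ γ : Path x₀ x₀, a (pathSx γ) = 0) : a ∈ Bd X 1 := by
  let p : ∀ x : X, Path x₀ x := fun x => PathConnectedSpace.somePath x₀ x
  let b : Co X 0 := fun σ => a (pathSx (p (σ (stdSimplex.vertex (S := ℝ) (0 : Fin 1)))))
  refine ⟨b, ?_⟩
  funext σ
  obtain ⟨x, y, γ, rfl⟩ := exists_path σ
  rw [dl_apply, Fin.sum_univ_two]
  have h0 : (sface 0 0 (pathSx γ)) (stdSimplex.vertex (S := ℝ) (0 : Fin 1)) = y := by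
    show pathSx γ (stdSimplex.map _ (stdSimplex.vertex (S := ℝ) (0 : Fin 1))) = y
    rw [stdSimplex.map_vertex]
    exact eol_pathSx_one γ
  have h1 : (sface 0 1 (pathSx γ)) (stdSimplex.vertex (S := ℝ) (0 : Fin 1)) = x := by
    show pathSx γ (stdSimplex.map _ (stdSimplex.vertex (S := ℝ) (0 : Fin 1))) = x
    rw [stdSimplex.map_vertex]
    exact eol_pathSx_zero γ
  show a (pathSx (p ((sface 0 0 (pathSx γ)) (stdSimplex.vertex (S := ℝ) (0 : Fin 1))))) +
    a (pathSx (p ((sface 0 1 (pathSx γ)) (stdSimplex.vertex (S := ℝ) (0 : Fin 1))))) =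
      a (pathSx γ)
  rw [h0, h1]
  have h2 := h (((p x).trans γ).trans (p y).symm)
  rw [cocycle_trans ha, cocycle_trans ha, eol_symm ha] at h2
  have h3 : ∀ u v w : F2, u + v + w = 0 → w + u = v := by decide
  exact h3 _ _ _ h2

section label

variable {G : Type v} [Group G] {c : Sing X 1 → G} {x₀ : X}

theorem exact_of_gens [PathConnectedSpace X]
    (h1 : ∀ τ : Sing X 2, c (sface 1 1 τ) = c (sface 1 2 τ) * c (sface 1 0 τ))
    (h2 : ∀ g : G, ∃ γ : Path x₀ x₀, c (pathSx γ) = g)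
    (h3 : ∀ γ γ' : Path x₀ x₀, c (pathSx γ) = c (pathSx γ') → γ.Homotopic γ')
    (S : Set G) (hS : Subgroup.closure S = ⊤) {a : Co X 1} (ha : a ∈ Cy X 1)
    (h : ∀ g ∈ S, ∀ γ : Path x₀ x₀, c (pathSx γ) = g → a (pathSx γ) = 0) : a ∈ Bd X 1 := by
  have hrefl : c (pathSx (Path.refl x₀)) = 1 := by
    obtain ⟨τ, e1, e2, e3⟩ := exists_cst x₀
    have := h1 τ
    rw [e1, e2, e3] at this
    exact left_eq_mul.1 this
  have htrans : ∀ γ η : Path x₀ x₀, c (pathSx (γ.trans η)) = c (pathSx γ) * c (pathSx η) := by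
    intro γ η
    obtain ⟨τ, e1, e2, e3⟩ := exists_tri γ η
    have := h1 τ
    rwa [e1, e2, e3] at this
  let H : Subgroup G :=
    { carrier := {g | ∀ γ : Path x₀ x₀, c (pathSx γ) = g → a (pathSx γ) = 0}
      one_mem' := by
        intro γ hγ
        rw [cocycle_homotopic ha (h3 γ (Path.refl x₀) (by rw [hγ, hrefl])), cocycle_refl ha]
      mul_mem' := by
        intro g1 g2 hg1 hg2 γ hγ
        obtain ⟨γ1, e1⟩ := h2 g1
        obtain ⟨γ2, e2⟩ := h2 g2
        rw [cocycle_homotopic ha (h3 γ (γ1.trans γ2) (by rw [hγ, htrans, e1, e2])),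
          cocycle_trans ha, hg1 γ1 e1, hg2 γ2 e2, add_zero]
      inv_mem' := by
        intro g hg γ hγ
        obtain ⟨γ1, e1⟩ := h2 g
        have e2 : (γ.trans γ1).Homotopic (Path.refl x₀) :=
          h3 _ _ (by rw [htrans, hγ, e1, inv_mul_cancel, hrefl])
        have e3 := cocycle_homotopic ha e2
        rw [cocycle_trans ha, cocycle_refl ha, hg γ1 e1, add_zero] at e3
        exact e3 }
  have hle : Subgroup.closure S ≤ H := (Subgroup.closure_le H).2 (fun g hg => h g hg)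
  rw [hS] at hle
  exact exact_of_loops x₀ ha (fun γ => hle (Subgroup.mem_top (c (pathSx γ))) γ rfl)

theorem betti_one_le_face {x : X} (γ : Path x x) :
    sface 0 0 (pathSx γ) = sface 0 1 (pathSx γ) := by
  refine ContinuousMap.ext fun t => ?_
  change γ.extend ((stdSimplex.map (0 : Fin 2).succAbove t).1 1) =
    γ.extend ((stdSimplex.map (1 : Fin 2).succAbove t).1 1)
  have ht : t.1 0 = 1 := by
    have := t.2.2
    simpa using this
  have e1 : (stdSimplex.map (0 : Fin 2).succAbove t).1 1 = 1 := by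
    have h := stdSimplex.map_coe (S := ℝ) (0 : Fin 2).succAbove t
    have h' := congrFun h 1
    refine h'.trans ?_
    rw [FunOnFinite.linearMap_apply_apply]
    have : (Finset.univ.filter (fun j : Fin 1 => (0 : Fin 2).succAbove j = 1)) = {0} := by
      decide
    rw [this, Finset.sum_singleton]
    exact ht
  have e2 : (stdSimplex.map (1 : Fin 2).succAbove t).1 1 = 0 := by
    have h := stdSimplex.map_coe (S := ℝ) (1 : Fin 2).succAbove t
    have h' := congrFun h 1
    refine h'.trans ?_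
    rw [FunOnFinite.linearMap_apply_apply]
    have : (Finset.univ.filter (fun j : Fin 1 => (1 : Fin 2).succAbove j = 1)) = ∅ := by
      decide
    rw [this, Finset.sum_empty]
  rw [e1, e2, Path.extend_zero, Path.extend_one]

theorem betti_one_le [PathConnectedSpace X]
    (h1 : ∀ τ : Sing X 2, c (sface 1 1 τ) = c (sface 1 2 τ) * c (sface 1 0 τ))
    (h2 : ∀ g : G, ∃ γ : Path x₀ x₀, c (pathSx γ) = g)
    (h3 : ∀ γ γ' : Path x₀ x₀, c (pathSx γ) = c (pathSx γ') → γ.Homotopic γ')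
    (k : ℕ) (s : Fin k → G) (hs : Subgroup.closure (range s) = ⊤) :
    Module.finrank F2 (Hc X 1) ≤ k := by
  choose γ hγ using fun i => h2 (s i)
  let T : Cy X 1 →ₗ[F2] (Fin k → F2) :=
    { toFun := fun a i => a.1 (pathSx (γ i))
      map_add' := fun a b => rfl
      map_smul' := fun r a => rfl }
  have hT : (Bd X 1).submoduleOf (Cy X 1) ≤ LinearMap.ker T := by
    intro a ha
    have ha' : a.1 ∈ Bd X 1 := ha
    obtain ⟨b, hb⟩ := ha'
    rw [LinearMap.mem_ker]
    funext i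
    change a.1 (pathSx (γ i)) = 0
    rw [← hb, dl_apply]
    rw [Fin.sum_univ_two, betti_one_le_face]
    exact CharTwo.add_self_eq_zero _
  have hT' : LinearMap.ker T ≤ (Bd X 1).submoduleOf (Cy X 1) := by
    intro a ha
    change a.1 ∈ Bd X 1
    refine exact_of_gens h1 h2 h3 (range s) hs a.2 ?_
    rintro g ⟨i, rfl⟩ η hη
    have h4 : η.Homotopic (γ i) := h3 _ _ (hη.trans (hγ i).symm)
    rw [cocycle_homotopic a.2 h4]
    exact congrFun (LinearMap.mem_ker.1 ha) i
  have hinj : Function.Injective (Submodule.liftQ _ T hT) :=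
    LinearMap.ker_eq_bot.1 (Submodule.ker_liftQ_eq_bot _ _ hT hT')
  have := LinearMap.finrank_le_finrank_of_injective hinj
  rwa [Module.finrank_fin_fun] at this

theorem symm_of_exact
    (h1 : ∀ τ : Sing X 2, c (sface 1 1 τ) = c (sface 1 2 τ) * c (sface 1 0 τ))
    (h2 : ∀ g : G, ∃ γ : Path x₀ x₀, c (pathSx γ) = g)
    (h3 : ∀ γ γ' : Path x₀ x₀, c (pathSx γ) = c (pathSx γ') → γ.Homotopic γ')
    (ξ : G → G → F2) (hξ1 : ∀ g, ξ g 1 = 0) (hξ2 : ∀ g, ξ 1 g = 0)
    (h : (fun τ : Sing X 2 => ξ (c (sface 1 2 τ)) (c (sface 1 0 τ))) ∈ Bd X 2)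
    {g g' : G} (hg : g * g' = g' * g) : ξ g g' = ξ g' g := by
  change (fun τ : Sing X 2 => ξ (c (sface 1 2 τ)) (c (sface 1 0 τ))) ∈
    LinearMap.range (dl (X := X) 1) at h
  obtain ⟨b, hb⟩ := h
  have hτ : ∀ τ : Sing X 2, b (sface 1 0 τ) + (b (sface 1 1 τ) + b (sface 1 2 τ)) =
      ξ (c (sface 1 2 τ)) (c (sface 1 0 τ)) := by
    intro τ
    have e := congrFun hb τ
    rw [dl_apply] at e
    rw [Fin.sum_univ_succ, Fin.sum_univ_succ, Fin.sum_univ_succ, Finset.univ_eq_empty,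
      Finset.sum_empty, add_zero] at e
    exact e
  have crefl : ∀ x : X, c (pathSx (Path.refl x)) = 1 := by
    intro x
    obtain ⟨τ, t2, t0, t1⟩ := exists_cst x
    have e := h1 τ
    rw [t2, t0, t1] at e
    exact left_eq_mul.1 e
  have brefl : ∀ x : X, b (pathSx (Path.refl x)) = 0 := by
    intro x
    obtain ⟨τ, t2, t0, t1⟩ := exists_cst x
    have e := hτ τ
    rw [t2, t0, t1, crefl, hξ1] at e
    revert e
    generalize b (pathSx (Path.refl x)) = u
    revert u
    decide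
  have btrans : ∀ {x y z : X} (γ : Path x y) (η : Path y z),
      b (pathSx (γ.trans η)) = b (pathSx γ) + b (pathSx η) + ξ (c (pathSx γ)) (c (pathSx η)) := by
    intro x y z γ η
    obtain ⟨τ, t2, t0, t1⟩ := exists_tri γ η
    have e := hτ τ
    rw [t2, t0, t1] at e
    revert e
    generalize b (pathSx (γ.trans η)) = u
    generalize b (pathSx γ) = v
    generalize b (pathSx η) = w
    generalize ξ (c (pathSx γ)) (c (pathSx η)) = s
    revert u v w s
    decide
  have ctrans : ∀ {x y z : X} (γ : Path x y) (η : Path y z),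
      c (pathSx (γ.trans η)) = c (pathSx γ) * c (pathSx η) := by
    intro x y z γ η
    obtain ⟨τ, t2, t0, t1⟩ := exists_tri γ η
    have e := h1 τ
    rw [t2, t0, t1] at e
    exact e
  have bhom : ∀ {x y : X} {γ γ' : Path x y}, γ.Homotopic γ' →
      b (pathSx γ) = b (pathSx γ') := by
    intro x y γ γ' hh
    obtain ⟨τ₁, τ₂, a2, a0, b2, b0, hd⟩ := exists_sq hh
    have e1 := hτ τ₁
    have e2 := hτ τ₂
    rw [a2, a0, brefl, crefl, hξ1, hd] at e1
    rw [b2, b0, brefl, crefl, hξ2] at e2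
    revert e1 e2
    generalize b (pathSx γ) = u
    generalize b (pathSx γ') = v
    generalize b (sface 1 1 τ₂) = w
    revert u v w
    decide
  obtain ⟨γ, hγ⟩ := h2 g
  obtain ⟨γ', hγ'⟩ := h2 g'
  have hh : (γ.trans γ').Homotopic (γ'.trans γ) := by
    apply h3
    rw [ctrans, ctrans, hγ, hγ', hg]
  have e := bhom hh
  rw [btrans, btrans, hγ, hγ'] at e
  revert e
  generalize b (pathSx γ) = u
  generalize b (pathSx γ') = v
  generalize ξ g g' = s
  generalize ξ g' g = t
  revert u v s t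
  decide

/-- the class of an additive function on the group -/
def cl (c : Sing X 1 → G) (A : G → ℤ) : Co X 1 := fun σ => (A (c σ) : F2)

theorem cl_cocycle (h1 : ∀ τ : Sing X 2, c (sface 1 1 τ) = c (sface 1 2 τ) * c (sface 1 0 τ))
    {A : G → ℤ} (hA : ∀ g g', A (g * g') = A g + A g') : cl c A ∈ Cy X 1 := by
  change dl 1 (cl c A) = 0
  funext τ
  rw [dl_apply, Fin.sum_univ_three]
  change ((A (c (sface 1 0 τ)) : ℤ) : F2) + ((A (c (sface 1 1 τ)) : ℤ) : F2) +
    ((A (c (sface 1 2 τ)) : ℤ) : F2) = 0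
  rw [h1, hA, Int.cast_add]
  have h2 : ∀ x y : F2, x + (y + x) + y = 0 := by decide
  exact h2 _ _

theorem cup_one_one (a b : Co X 1) (τ : Sing X 2) :
    cup (show 1 + 1 = 2 from rfl) a b τ = a (sface 1 2 τ) * b (sface 1 0 τ) := by
  rw [cup_apply, sface_sub_lz, sface_sub_lz]
  have f1 : front (show 1 + 1 = 2 from rfl) = (2 : Fin 3).succAbove := by
    funext j
    fin_cases j <;> rfl
  have f2 : back (show 1 + 1 = 2 from rfl) = (0 : Fin 3).succAbove := by
    funext j
    fin_cases j <;> rfl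
  rw [f1, f2]

theorem cl_sq (h1 : ∀ τ : Sing X 2, c (sface 1 1 τ) = c (sface 1 2 τ) * c (sface 1 0 τ))
    {A : G → ℤ} (hA : ∀ g g', A (g * g') = A g + A g') :
    cup (show 1 + 1 = 2 from rfl) (cl c A) (cl c A) ∈ Bd X 2 := by
  change _ ∈ LinearMap.range (dl 1)
  refine ⟨fun σ => ((A (c σ) * (A (c σ) - 1) / 2 : ℤ) : F2), ?_⟩
  funext τ
  rw [dl_apply, Fin.sum_univ_three, cup_one_one]
  change ((A (c (sface 1 0 τ)) * (A (c (sface 1 0 τ)) - 1) / 2 : ℤ) : F2) +
    ((A (c (sface 1 1 τ)) * (A (c (sface 1 1 τ)) - 1) / 2 : ℤ) : F2) +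
    ((A (c (sface 1 2 τ)) * (A (c (sface 1 2 τ)) - 1) / 2 : ℤ) : F2) =
    ((A (c (sface 1 2 τ)) : ℤ) : F2) * ((A (c (sface 1 0 τ)) : ℤ) : F2)
  rw [h1, hA]
  generalize A (c (sface 1 2 τ)) = m
  generalize A (c (sface 1 0 τ)) = n
  have e : (m + n) * (m + n - 1) / 2 = m * (m - 1) / 2 + n * (n - 1) / 2 + m * n := by
    have e1 := Int.two_mul_ediv_two_of_even (Int.even_mul_pred_self (m + n))
    have e2 := Int.two_mul_ediv_two_of_even (Int.even_mul_pred_self m)
    have e3 := Int.two_mul_ediv_two_of_even (Int.even_mul_pred_self n)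
    have e4 : (m + n) * (m + n - 1) = m * (m - 1) + n * (n - 1) + 2 * (m * n) := by ring
    omega
  rw [e, Int.cast_add, Int.cast_add, Int.cast_mul]
  have h2 : ∀ x y z : F2, x + (y + x + z) + y = z := by decide
  exact h2 _ _ _

theorem cl_comm (h1 : ∀ τ : Sing X 2, c (sface 1 1 τ) = c (sface 1 2 τ) * c (sface 1 0 τ))
    {A B : G → ℤ} (hA : ∀ g g', A (g * g') = A g + A g') (hB : ∀ g g', B (g * g') = B g + B g') :
    cup (show 1 + 1 = 2 from rfl) (cl c A) (cl c B) +
      cup (show 1 + 1 = 2 from rfl) (cl c B) (cl c A) ∈ Bd X 2 := by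
  change _ ∈ LinearMap.range (dl 1)
  refine ⟨fun σ => ((A (c σ) : ℤ) : F2) * ((B (c σ) : ℤ) : F2), ?_⟩
  funext τ
  rw [dl_apply, Fin.sum_univ_three, Pi.add_apply, cup_one_one, cup_one_one]
  change ((A (c (sface 1 0 τ)) : ℤ) : F2) * ((B (c (sface 1 0 τ)) : ℤ) : F2) +
    ((A (c (sface 1 1 τ)) : ℤ) : F2) * ((B (c (sface 1 1 τ)) : ℤ) : F2) +
    ((A (c (sface 1 2 τ)) : ℤ) : F2) * ((B (c (sface 1 2 τ)) : ℤ) : F2) =
    ((A (c (sface 1 2 τ)) : ℤ) : F2) * ((B (c (sface 1 0 τ)) : ℤ) : F2) +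
    ((B (c (sface 1 2 τ)) : ℤ) : F2) * ((A (c (sface 1 0 τ)) : ℤ) : F2)
  rw [h1, hA, hB, Int.cast_add, Int.cast_add]
  have h2 : ∀ m n p q : F2, n * q + (m + n) * (p + q) + m * p = m * q + p * n := by decide
  exact h2 _ _ _ _

theorem cl_zero (h1 : ∀ τ : Sing X 2, c (sface 1 1 τ) = c (sface 1 2 τ) * c (sface 1 0 τ))
    {A B : G → ℤ} (κ : G → F2) (hκ : ∀ g g', κ (g * g') = κ g + κ g' + (A g : F2) * (B g' : F2)) :
    cup (show 1 + 1 = 2 from rfl) (cl c A) (cl c B) ∈ Bd X 2 := by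
  change _ ∈ LinearMap.range (dl 1)
  refine ⟨fun σ => κ (c σ), ?_⟩
  funext τ
  rw [dl_apply, Fin.sum_univ_three, cup_one_one]
  change κ (c (sface 1 0 τ)) + κ (c (sface 1 1 τ)) + κ (c (sface 1 2 τ)) =
    ((A (c (sface 1 2 τ)) : ℤ) : F2) * ((B (c (sface 1 0 τ)) : ℤ) : F2)
  rw [h1, hκ]
  have h2 : ∀ x y z : F2, x + (y + x + z) + y = z := by decide
  exact h2 _ _ _

end label

/-- cocycles are closed under cup products, and a product with a coboundary is a coboundary -/
theorem cup_Cy {p q r : ℕ} (h : p + q = r) {a : Co X p} {b : Co X q} (ha : a ∈ Cy X p)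
    (hb : b ∈ Cy X q) : cup h a b ∈ Cy X r := by
  have ha' : dl p a = 0 := ha
  have hb' : dl q b = 0 := hb
  show dl r (cup h a b) = 0
  rw [leibniz h, ha', hb', map_zero, LinearMap.zero_apply, map_zero, add_zero]

theorem cup_Bd_left {p q r : ℕ} (h : p + q = r) {a : Co X p} {b : Co X q} (ha : a ∈ Bd X p)
    (hb : b ∈ Cy X q) : cup h a b ∈ Bd X r := by
  have hb' : dl q b = 0 := hb
  cases p with
  | zero =>
    have ha' : a = 0 := (Submodule.mem_bot F2).mp ha
    rw [ha', map_zero, LinearMap.zero_apply]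
    exact Submodule.zero_mem _
  | succ p =>
    obtain ⟨a', rfl⟩ := LinearMap.mem_range.mp ha
    cases r with
    | zero => omega
    | succ r =>
      refine LinearMap.mem_range.mpr ⟨cup (show p + q = r by omega) a' b, ?_⟩
      rw [leibniz, hb', map_zero, add_zero]

theorem cup_Bd_right {p q r : ℕ} (h : p + q = r) {a : Co X p} {b : Co X q} (ha : a ∈ Cy X p)
    (hb : b ∈ Bd X q) : cup h a b ∈ Bd X r := by
  have ha' : dl p a = 0 := ha
  cases q with
  | zero =>
    have hb' : b = 0 := (Submodule.mem_bot F2).mp hb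
    rw [hb', map_zero]
    exact Submodule.zero_mem _
  | succ q =>
    obtain ⟨b', rfl⟩ := LinearMap.mem_range.mp hb
    cases r with
    | zero => omega
    | succ r =>
      refine LinearMap.mem_range.mpr ⟨cup (show p + q = r by omega) a b', ?_⟩
      rw [leibniz, ha', map_zero, LinearMap.zero_apply, zero_add]

theorem cup_assoc {p q s t u' r : ℕ} (h1 : p + q = t) (h2 : t + s = r) (h3 : q + s = u')
    (h4 : p + u' = r) (a : Co X p) (b : Co X q) (d : Co X s) :
    cup h2 (cup h1 a b) d = cup h4 a (cup h3 b d) := by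
  funext σ
  rw [cup_apply, cup_apply, cup_apply, cup_apply, sub_sub_lz, sub_sub_lz, sub_sub_lz, sub_sub_lz,
    mul_assoc]
  have e1 : front h2 ∘ front h1 = (front h4 : Fin (p + 1) → Fin (r + 1)) := by
    funext i
    rfl
  have e2 : front h2 ∘ back h1 = (back h4 ∘ front h3 : Fin (q + 1) → Fin (r + 1)) := by
    funext i
    rfl
  have e3 : back h4 ∘ back h3 = (back h2 : Fin (s + 1) → Fin (r + 1)) := by
    funext i
    apply Fin.ext
    simp only [Function.comp, back]
    omega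
  rw [e1, e2, e3]

/-- fourfold product of classes of degree one -/
noncomputable def Q4 (I : Co X 4 →ₗ[F2] F2) (x y z w : Co X 1) : F2 :=
  I (cup (show 2 + 2 = 4 from rfl) (cup (show 1 + 1 = 2 from rfl) x y)
    (cup (show 1 + 1 = 2 from rfl) z w))

theorem Q4_aux_zero {I : Co X 4 →ₗ[F2] F2} (hI : ∀ c : Co X 3, I (dl 3 c) = 0) {c : Co X 4}
    (hc : c ∈ Bd X 4) : I c = 0 := by
  obtain ⟨b, rfl⟩ := hc
  exact hI b

theorem Q4_aux_eq {a b : F2} (h : a + b = 0) : a = b := by
  revert a b; decide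

theorem Q4_aux_mid (I : Co X 4 →ₗ[F2] F2) (x y z w : Co X 1) :
    Q4 I x y z w = I (cup (show 1 + 3 = 4 from rfl) x (cup (show 2 + 1 = 3 from rfl)
      (cup (show 1 + 1 = 2 from rfl) y z) w)) := by
  unfold Q4
  rw [cup_assoc (show 1 + 1 = 2 from rfl) (show 2 + 2 = 4 from rfl) (show 1 + 2 = 3 from rfl)
    (show 1 + 3 = 4 from rfl) x y (cup (show 1 + 1 = 2 from rfl) z w),
    cup_assoc (show 1 + 1 = 2 from rfl) (show 2 + 1 = 3 from rfl) (show 1 + 1 = 2 from rfl)
    (show 1 + 2 = 3 from rfl) y z w]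

theorem Q4_12 {I : Co X 4 →ₗ[F2] F2} (hI : ∀ c : Co X 3, I (dl 3 c) = 0) {x y z w : Co X 1}
    (hx : cup (show 1 + 1 = 2 from rfl) x y ∈ Bd X 2) (hz : z ∈ Cy X 1) (hw : w ∈ Cy X 1) :
    Q4 I x y z w = 0 :=
  Q4_aux_zero hI (cup_Bd_left _ hx (cup_Cy _ hz hw))

theorem Q4_34 {I : Co X 4 →ₗ[F2] F2} (hI : ∀ c : Co X 3, I (dl 3 c) = 0) {x y z w : Co X 1}
    (hz : cup (show 1 + 1 = 2 from rfl) z w ∈ Bd X 2) (hx : x ∈ Cy X 1) (hy : y ∈ Cy X 1) :
    Q4 I x y z w = 0 :=
  Q4_aux_zero hI (cup_Bd_right _ (cup_Cy _ hx hy) hz)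

theorem Q4_23 {I : Co X 4 →ₗ[F2] F2} (hI : ∀ c : Co X 3, I (dl 3 c) = 0) {x y z w : Co X 1}
    (hy : cup (show 1 + 1 = 2 from rfl) y z ∈ Bd X 2) (hx : x ∈ Cy X 1) (hw : w ∈ Cy X 1) :
    Q4 I x y z w = 0 := by
  rw [Q4_aux_mid]
  exact Q4_aux_zero hI (cup_Bd_right _ hx (cup_Bd_left _ hy hw))

theorem Q4_swap12 {I : Co X 4 →ₗ[F2] F2} (hI : ∀ c : Co X 3, I (dl 3 c) = 0) {x y z w : Co X 1}
    (hx : cup (show 1 + 1 = 2 from rfl) x y + cup (show 1 + 1 = 2 from rfl) y x ∈ Bd X 2)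
    (hz : z ∈ Cy X 1) (hw : w ∈ Cy X 1) : Q4 I x y z w = Q4 I y x z w := by
  apply Q4_aux_eq
  have h := Q4_aux_zero hI (cup_Bd_left (show 2 + 2 = 4 from rfl) hx
    (cup_Cy (show 1 + 1 = 2 from rfl) hz hw))
  rw [map_add, LinearMap.add_apply, map_add] at h
  exact h

theorem Q4_swap34 {I : Co X 4 →ₗ[F2] F2} (hI : ∀ c : Co X 3, I (dl 3 c) = 0) {x y z w : Co X 1}
    (hz : cup (show 1 + 1 = 2 from rfl) z w + cup (show 1 + 1 = 2 from rfl) w z ∈ Bd X 2)
    (hx : x ∈ Cy X 1) (hy : y ∈ Cy X 1) : Q4 I x y z w = Q4 I x y w z := by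
  apply Q4_aux_eq
  have h := Q4_aux_zero hI (cup_Bd_right (show 2 + 2 = 4 from rfl)
    (cup_Cy (show 1 + 1 = 2 from rfl) hx hy) hz)
  rw [map_add, map_add] at h
  exact h

theorem Q4_swap23 {I : Co X 4 →ₗ[F2] F2} (hI : ∀ c : Co X 3, I (dl 3 c) = 0) {x y z w : Co X 1}
    (hy : cup (show 1 + 1 = 2 from rfl) y z + cup (show 1 + 1 = 2 from rfl) z y ∈ Bd X 2)
    (hx : x ∈ Cy X 1) (hw : w ∈ Cy X 1) : Q4 I x y z w = Q4 I x z y w := by
  apply Q4_aux_eq
  rw [Q4_aux_mid, Q4_aux_mid]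
  have h := Q4_aux_zero hI (cup_Bd_right (show 1 + 3 = 4 from rfl) hx
    (cup_Bd_left (show 2 + 1 = 3 from rfl) hy hw))
  rw [map_add, LinearMap.add_apply, map_add, map_add] at h
  exact h

/-- the Heisenberg group mod 2 -/
@[ext] structure exists_kappa_H where
  a : F2
  b : F2
  c : F2

instance : Mul exists_kappa_H := ⟨fun x y => ⟨x.a + y.a, x.b + y.b, x.c + y.c + x.a * y.b⟩⟩
instance : One exists_kappa_H := ⟨⟨0, 0, 0⟩⟩
instance : Inv exists_kappa_H := ⟨fun x => ⟨-x.a, -x.b, -x.c + x.a * x.b⟩⟩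

theorem exists_kappa_mul (x y : exists_kappa_H) :
    x * y = ⟨x.a + y.a, x.b + y.b, x.c + y.c + x.a * y.b⟩ := rfl
theorem exists_kappa_one : (1 : exists_kappa_H) = ⟨0, 0, 0⟩ := rfl
theorem exists_kappa_inv (x : exists_kappa_H) : x⁻¹ = ⟨-x.a, -x.b, -x.c + x.a * x.b⟩ := rfl

instance : Group exists_kappa_H := Group.ofLeftAxioms
  (by
    intro x y z
    simp only [exists_kappa_mul]
    ext <;> ring)
  (by
    intro x
    simp only [exists_kappa_mul, exists_kappa_one]
    ext <;> ring)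
  (by
    intro x
    simp only [exists_kappa_mul, exists_kappa_one, exists_kappa_inv]
    ext <;> ring)

theorem exists_kappa_mul_a (x y : exists_kappa_H) : (x * y).a = x.a + y.a := rfl
theorem exists_kappa_mul_b (x y : exists_kappa_H) : (x * y).b = x.b + y.b := rfl
theorem exists_kappa_mul_c (x y : exists_kappa_H) : (x * y).c = x.c + y.c + x.a * y.b := rfl

/-- first factor -/
def exists_kappa_f {G₁ : Type*} [Group G₁] (A : G₁ →* Multiplicative ℤ) : G₁ →* exists_kappa_H where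
  toFun x := ⟨((Multiplicative.toAdd (A x) : ℤ) : F2), 0, 0⟩
  map_one' := by
    rw [map_one]
    show (⟨((0 : ℤ) : F2), 0, 0⟩ : exists_kappa_H) = ⟨0, 0, 0⟩
    rw [Int.cast_zero]
  map_mul' x y := by
    rw [map_mul]
    ext
    · show (((Multiplicative.toAdd (A x) : ℤ) + (Multiplicative.toAdd (A y) : ℤ) : ℤ) : F2) = _
      rw [Int.cast_add]
      rfl
    · show (0 : F2) = 0 + 0
      rw [add_zero]
    · show (0 : F2) = 0 + 0 + _ * 0
      rw [mul_zero, add_zero, add_zero]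

/-- second factor -/
def exists_kappa_g {G₁ : Type*} [Group G₁] (A : G₁ →* Multiplicative ℤ) : G₁ →* exists_kappa_H where
  toFun x := ⟨0, ((Multiplicative.toAdd (A x) : ℤ) : F2), 0⟩
  map_one' := by
    rw [map_one]
    show (⟨0, ((0 : ℤ) : F2), 0⟩ : exists_kappa_H) = ⟨0, 0, 0⟩
    rw [Int.cast_zero]
  map_mul' x y := by
    rw [map_mul]
    ext
    · show (0 : F2) = 0 + 0
      rw [add_zero]
    · show (((Multiplicative.toAdd (A x) : ℤ) + (Multiplicative.toAdd (A y) : ℤ) : ℤ) : F2) = _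
      rw [Int.cast_add]
      rfl
    · show (0 : F2) = 0 + 0 + 0 * _
      rw [zero_mul, add_zero, add_zero]

theorem exists_kappa_a {G₁ G₂ : Type*} [Group G₁] [Group G₂] (A : G₁ →* Multiplicative ℤ)
    (B : G₂ →* Multiplicative ℤ) (g : Monoid.Coprod G₁ G₂) :
    (Monoid.Coprod.lift (exists_kappa_f A) (exists_kappa_g B) g).a =
      ((Multiplicative.toAdd (Monoid.Coprod.lift A 1 g) : ℤ) : F2) := by
  induction g using Monoid.Coprod.induction_on with
  | inl x =>
    rw [Monoid.Coprod.lift_apply_inl, Monoid.Coprod.lift_apply_inl]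
    rfl
  | inr x =>
    rw [Monoid.Coprod.lift_apply_inr, Monoid.Coprod.lift_apply_inr]
    show (0 : F2) = ((0 : ℤ) : F2)
    rw [Int.cast_zero]
  | mul x y hx hy =>
    rw [map_mul, map_mul, exists_kappa_mul_a, hx, hy, toAdd_mul, Int.cast_add]

theorem exists_kappa_b {G₁ G₂ : Type*} [Group G₁] [Group G₂] (A : G₁ →* Multiplicative ℤ)
    (B : G₂ →* Multiplicative ℤ) (g : Monoid.Coprod G₁ G₂) :
    (Monoid.Coprod.lift (exists_kappa_f A) (exists_kappa_g B) g).b =
      ((Multiplicative.toAdd (Monoid.Coprod.lift 1 B g) : ℤ) : F2) := by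
  induction g using Monoid.Coprod.induction_on with
  | inl x =>
    rw [Monoid.Coprod.lift_apply_inl, Monoid.Coprod.lift_apply_inl]
    show (0 : F2) = ((0 : ℤ) : F2)
    rw [Int.cast_zero]
  | inr x =>
    rw [Monoid.Coprod.lift_apply_inr, Monoid.Coprod.lift_apply_inr]
    rfl
  | mul x y hx hy =>
    rw [map_mul, map_mul, exists_kappa_mul_b, hx, hy, toAdd_mul, Int.cast_add]

/-- a functional of Heisenberg type on a free product -/
theorem exists_kappa {G₁ G₂ : Type*} [Group G₁] [Group G₂] (A : G₁ →* Multiplicative ℤ)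
    (B : G₂ →* Multiplicative ℤ) : ∃ κ : Monoid.Coprod G₁ G₂ → F2, ∀ g g',
      κ (g * g') = κ g + κ g' +
        ((Multiplicative.toAdd (Monoid.Coprod.lift A 1 g) : ℤ) : F2) *
          ((Multiplicative.toAdd (Monoid.Coprod.lift 1 B g') : ℤ) : F2) := by
  refine ⟨fun g => (Monoid.Coprod.lift (exists_kappa_f A) (exists_kappa_g B) g).c, ?_⟩
  intro g g'
  show (Monoid.Coprod.lift (exists_kappa_f A) (exists_kappa_g B) (g * g')).c = _
  rw [map_mul, exists_kappa_mul_c, exists_kappa_a, exists_kappa_b]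


/-- an alternating form on an odd-dimensional space over the field with two elements is
degenerate -/
theorem odd_alt {ι : Type*} [Fintype ι] [DecidableEq ι] (hι : Odd (Fintype.card ι))
    (M : Matrix ι ι F2) (h0 : ∀ i, M i i = 0) (hs : ∀ i j, M i j = M j i) :
    ∃ v : ι → F2, v ≠ 0 ∧ Matrix.vecMul v M = 0 := by
  let e := Fintype.equivFin ι
  let N : Matrix ι ι ℤ := Matrix.of fun i j =>
    if e i < e j then ((M i j).val : ℤ) else if e j < e i then -((M i j).val : ℤ) else 0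
  have hNT : N.transpose = -N := by
    ext i j
    simp only [Matrix.transpose_apply, Matrix.neg_apply, N, Matrix.of_apply]
    rcases lt_trichotomy (e i) (e j) with h | h | h
    · rw [if_neg (not_lt.2 h.le), if_pos h, if_pos h, hs j i]
    · rw [h]; simp
    · rw [if_pos h, if_neg (not_lt.2 h.le), if_pos h, hs j i, neg_neg]
  have hdet : N.det = 0 := by
    have h1 : N.det = - N.det := by
      conv_lhs => rw [← Matrix.det_transpose, hNT, Matrix.det_neg, hι.neg_one_pow]
      ring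
    omega
  have hmap : N.map (Int.castRingHom F2) = M := by
    ext i j
    simp only [Matrix.map_apply, N, Matrix.of_apply]
    rcases lt_trichotomy (e i) (e j) with h | h | h
    · rw [if_pos h]; simp
    · have hij : i = j := e.injective h
      subst hij
      simp [h0]
    · rw [if_neg (not_lt.2 h.le), if_pos h]
      simp only [map_neg, map_natCast]
      rw [ZMod.natCast_zmod_val, ZMod.neg_eq_self_mod_two]
  have hM : M.det = 0 := by
    rw [← hmap]
    have h2 := (Int.castRingHom F2).map_det N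
    rw [hdet, map_zero] at h2
    exact h2.symm
  exact Matrix.exists_vecMul_eq_zero_iff.2 hM

/-- dimension estimate for a nondegenerate form -/
theorem dim_le {V : Type*} [AddCommGroup V] [Module F2 V] [Module.Finite F2 V]
    (B : V →ₗ[F2] V →ₗ[F2] F2) (hB : Function.Injective B) (L R : Submodule F2 V)
    (h : ∀ r ∈ R, ∀ l ∈ L, B r l = 0) :
    Module.finrank F2 L + Module.finrank F2 R ≤ Module.finrank F2 V := by
  have hBs : Function.Surjective B := by
    have h1 : Module.finrank F2 V = Module.finrank F2 (Module.Dual F2 V) :=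
      (Subspace.dual_finrank_eq).symm
    exact (LinearMap.injective_iff_surjective_of_finrank_eq_finrank h1).1 hB
  let f : V →ₗ[F2] Module.Dual F2 L := L.subtype.dualMap.comp B
  have hfs : Function.Surjective f :=
    (LinearMap.dualMap_surjective_of_injective L.injective_subtype).comp hBs
  have hker : R ≤ LinearMap.ker f := by
    intro r hr
    rw [LinearMap.mem_ker]
    ext l
    exact h r hr l.1 l.2
  have h1 := LinearMap.finrank_range_add_finrank_ker f
  rw [LinearMap.range_eq_top.2 hfs, finrank_top] at h1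
  have h2 : Module.finrank F2 (Module.Dual F2 L) = Module.finrank F2 L :=
    Subspace.dual_finrank_eq
  have h3 : Module.finrank F2 R ≤ Module.finrank F2 (LinearMap.ker f) :=
    Submodule.finrank_mono hker
  omega

end Pool.Agent.Helper158.PD
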